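import Pool.Agent.Work.MP_288596_co.Base2

/-! The case of uncountable cofinality. -/

set_option autoImplicit false

namespace Pool.Agent.Work.MP_288596_co.CofBig

open Cardinal Set
universe u
variable {α : Type u} {r H : α → α → Prop}

theorem mk_iUnion_nat_lt {S : ℕ → Set α} {κ : Cardinal.{u}} (hκ : ℵ₀ < κ)
    (hcof : ℵ₀ < κ.ord.cof) (h : ∀ i, #(S i) < κ) : #(⋃ i, S i) < κ := by
  have h1 := mk_iUnion_le_lift S
  have h2 : (⨆ i, Cardinal.lift.{0} #(S i)) < κ := by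
    apply Cardinal.lift_iSup_lt_of_lt_cof_ord
    · simpa using hcof
    · intro i; simpa using h i
  have h3 : Cardinal.lift.{0} #(⋃ i, S i) < κ := by
    refine h1.trans_lt ?_
    apply mul_lt_of_lt hκ.le _ h2
    simpa using hκ
  simpa using h3

theorem mk_iUnion_fin_lt {ι : Type*} [Finite ι] {S : ι → Set α} {κ : Cardinal.{u}} (hκ : ℵ₀ ≤ κ)
    (h : ∀ i, #(S i) < κ) : #(⋃ i, S i) < κ := by
  classical
  have := Fintype.ofFinite ι
  have key : ∀ s : Finset ι, #(⋃ i ∈ s, S i) < κ := by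
    intro s
    induction s using Finset.induction_on with
    | empty =>
      simp only [Finset.notMem_empty, iUnion_of_empty, iUnion_empty, Cardinal.mk_eq_zero]
      exact lt_of_lt_of_le aleph0_pos hκ
    | insert a s _ ih =>
      rw [Finset.set_biUnion_insert]
      exact (mk_union_le _ _).trans_lt (add_lt_of_lt hκ (h a) ih)
  have := key Finset.univ
  simpa using this

theorem colour_pigeon {n : ℕ} (c : α → Fin n) {S : Set α} {κ : Cardinal.{u}} (hκ : ℵ₀ ≤ κ)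
    (hS : κ ≤ #S) : ∃ j, κ ≤ #({x | x ∈ S ∧ c x = j} : Set α) := by
  by_contra hcon
  push Not at hcon
  have h1 := mk_iUnion_fin_lt hκ hcon
  have h2 : (⋃ j, {x | x ∈ S ∧ c x = j}) = S := by
    ext x; simp
  rw [h2] at h1
  exact absurd hS (not_le.2 h1)

/-- Finitely many elements are bounded by an element of a cofinal chain. -/
theorem fin_bound {E A : Set α} (hP : PO r H) (hA : ∀ x ∈ A, ∀ y ∈ A, r x y ∨ r y x)
    (hne : A.Nonempty) (hcof : ∀ x ∈ E, ∃ a ∈ A, r x a) {ι : Type*} (s : Finset ι) (x : ι → α)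
    (hx : ∀ i ∈ s, x i ∈ E) : ∃ a ∈ A, ∀ i ∈ s, r (x i) a := by
  classical
  induction s using Finset.induction_on with
  | empty =>
    obtain ⟨a, ha⟩ := hne
    exact ⟨a, ha, by simp⟩
  | insert i s _ ih =>
    obtain ⟨a, ha, h1⟩ := ih (fun j hj => hx j (Finset.mem_insert_of_mem hj))
    obtain ⟨b, hb, h2⟩ := hcof (x i) (hx i (Finset.mem_insert_self i s))
    rcases hA a ha b hb with h | h
    · refine ⟨b, hb, fun j hj => ?_⟩
      rcases Finset.mem_insert.1 hj with rfl | hj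
      · exact h2
      · exact hP.trans _ _ _ (h1 j hj) h
    · refine ⟨a, ha, fun j hj => ?_⟩
      rcases Finset.mem_insert.1 hj with rfl | hj
      · exact hP.trans _ _ _ h2 h
      · exact h1 j hj

/-- A chain whose initial segments have size at most `χ` has size at most `succ χ`. -/
theorem chain_big {L : Set α} (hL : ∀ x ∈ L, ∀ y ∈ L, r x y ∨ r y x)
    {χ κ : Cardinal.{u}} (hχ : ℵ₀ ≤ χ) (hκ : Order.succ χ < κ) (hbig : κ ≤ #L)
    (F : α → Set α) (hF : ∀ x ∈ L, ∀ y ∈ L, r y x → y ∈ F x) :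
    ∃ a ∈ L, χ < #(F a) := by
  by_contra hcon
  push Not at hcon
  obtain ⟨S, hSL, hS⟩ := Cardinal.le_mk_iff_exists_subset.1 (hκ.le.trans hbig)
  by_cases hb : ∃ l ∈ L, ∀ s ∈ S, r s l
  · obtain ⟨l, hl, hsl⟩ := hb
    have h1 : S ⊆ F l := fun s hs => hF l hl s (hSL hs) (hsl s hs)
    have h2 := (Cardinal.mk_le_mk_of_subset h1).trans (hcon l hl)
    rw [hS] at h2
    exact absurd h2 (not_le.2 (Order.lt_succ χ))
  · push Not at hb
    have h1 : L ⊆ ⋃ s ∈ S, F s := by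
      intro l hl
      obtain ⟨s, hs, hsl⟩ := hb l hl
      rw [mem_iUnion₂]
      refine ⟨s, hs, hF s (hSL hs) l hl ?_⟩
      rcases hL s (hSL hs) l hl with h | h
      · exact absurd h hsl
      · exact h
    have h2 : #L ≤ Order.succ χ * χ := by
      refine (Cardinal.mk_le_mk_of_subset h1).trans ((Cardinal.mk_biUnion_le _ _).trans ?_)
      rw [hS]
      gcongr
      exact ciSup_le' fun s => hcon s.1 (hSL s.2)
    have h3 : Order.succ χ * χ < κ := by
      apply mul_lt_of_lt _ hκ ((Order.lt_succ χ).trans hκ)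
      exact hχ.trans ((Order.lt_succ χ).trans hκ).le
    exact absurd hbig (not_le.2 (h2.trans_lt h3))

/-- Closing off. -/
theorem closing {E A : Set α} (hP : PO r H) (hA : ∀ x ∈ A, ∀ y ∈ A, r x y ∨ r y x)
    (hAE : A ⊆ E) {x0 : α} (hb : ∀ m ∈ E, r x0 m → ∃ a ∈ A, ∀ y ∈ E, r x0 y → H m y → r y a)
    {b : α} (hbA : b ∈ A) (hxb : r x0 b) :
    ∃ a : ℕ → α, a 0 = b ∧ (∀ i, a i ∈ A) ∧ (∀ i, r x0 (a i)) ∧ (∀ i, r (a i) (a (i + 1))) ∧
      ∀ i, ∀ y ∈ E, r x0 y → H (a i) y → r y (a (i + 1)) := by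
  have step : ∀ p : {a : α // a ∈ A ∧ r x0 a}, ∃ q : {a : α // a ∈ A ∧ r x0 a},
      r p.1 q.1 ∧ ∀ y ∈ E, r x0 y → H p.1 y → r y q.1 := by
    rintro ⟨a, ha, hxa⟩
    obtain ⟨a', ha', h'⟩ := hb a (hAE ha) hxa
    rcases hA a ha a' ha' with h | h
    · exact ⟨⟨a', ha', hP.trans _ _ _ hxa h⟩, h, h'⟩
    · exact ⟨⟨a, ha, hxa⟩, hP.refl a, fun y hy hxy hay => hP.trans _ _ _ (h' y hy hxy hay) h⟩
  choose f hf using step
  set g : ℕ → {a : α // a ∈ A ∧ r x0 a} := fun i => f^[i] ⟨b, hbA, hxb⟩ with hg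
  have hgs : ∀ i, g (i + 1) = f (g i) := fun i => Function.iterate_succ_apply' f i _
  refine ⟨fun i => (g i).1, rfl, fun i => (g i).2.1, fun i => (g i).2.2, fun i => ?_,
    fun i y hy hxy h => ?_⟩
  · show r (g i).1 (g (i + 1)).1
    rw [hgs]; exact (hf (g i)).1
  · show r y (g (i + 1)).1
    rw [hgs]; exact (hf (g i)).2 y hy hxy h

theorem lemma_up (hP : PO r H) {n : ℕ} {c : α → Fin n} (hc : Col r c) {κ : Cardinal.{u}}
    (hκ : ℵ₀ < κ) (hlim : ∀ μ < κ, Order.succ μ < κ) (hcof : ℵ₀ < κ.ord.cof)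
    (IH : ∀ S : Set α, #S < κ → ∃ B, GB H S B) {E : Set α}
    (hdeg : ∀ m ∈ E, #(nb H m E) < κ)
    (hint : ∀ x ∈ E, ∀ y ∈ E, #{w | w ∈ E ∧ r x w ∧ r w y} < κ)
    {o : α} (ho : o ∈ E) (hup : κ ≤ #{x | x ∈ E ∧ r o x})
    (IH2 : ∀ a : ℕ → α, (∀ i, a i ∈ E) → ∃ B, GB H {x | x ∈ E ∧ ∃ i, r x (a i)} B) :
    ∃ B, GB H E B := by
  classical
  obtain ⟨j0, hj0⟩ := colour_pigeon c hκ.le hup
  set A : Set α := {x | x ∈ {x | x ∈ E ∧ r o x} ∧ c x = j0} with hAdef
  have hAE : A ⊆ E := fun x hx => hx.1.1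
  have hAo : ∀ x ∈ A, r o x := fun x hx => hx.1.2
  have hAch : ∀ x ∈ A, ∀ y ∈ A, r x y ∨ r y x := fun x hx y hy => hc x y (hx.2.trans hy.2.symm)
  have hAbig : ∀ x ∈ E, κ ≤ #{a | a ∈ A ∧ r x a} := by
    intro x hx
    by_contra hcon
    push Not at hcon
    have h1 : A ⊆ {a | a ∈ A ∧ r x a} ∪ (nb H x E ∪ {w | w ∈ E ∧ r o w ∧ r w x}) := by
      intro a ha
      rcases hP.cases x a with h | h | h
      · exact Or.inl ⟨ha, h⟩
      · exact Or.inr (Or.inr ⟨hAE ha, hAo a ha, h⟩)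
      · exact Or.inr (Or.inl ⟨hAE ha, h⟩)
    have h2 := (Cardinal.mk_le_mk_of_subset h1).trans_lt ((mk_union_le _ _).trans_lt
      (add_lt_of_lt hκ.le hcon ((mk_union_le _ _).trans_lt
        (add_lt_of_lt hκ.le (hdeg x hx) (hint o ho x hx)))))
    exact absurd hj0 (not_le.2 h2)
  have hne_of_big : ∀ {S : Set α}, κ ≤ #S → S.Nonempty := by
    intro S hS
    rw [nonempty_iff_ne_empty]
    rintro rfl
    rw [Cardinal.mk_eq_zero] at hS
    exact absurd (aleph0_pos.trans hκ) (not_lt.2 hS)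
  have hAcof : ∀ x ∈ E, ∃ a ∈ A, r x a := fun x hx => by
    obtain ⟨a, ha⟩ := hne_of_big (hAbig x hx)
    exact ⟨a, ha.1, ha.2⟩
  have hAne : A.Nonempty := hne_of_big hj0
  -- minimal J
  set P : α → Fin n → Prop := fun x j => ∀ b ∈ E, ∃ w ∈ E, c w = j ∧ r x w ∧ ¬ r w b with hPdef
  set J : α → Finset (Fin n) := fun x => Finset.univ.filter (P x) with hJdef
  obtain ⟨x0, hx0, hmin⟩ := (measure fun x : α => (J x).card).wf.has_min {x | x ∈ E} ⟨o, ho⟩
  have hx0E : x0 ∈ E := hx0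
  have hJ : ∀ m ∈ E, r x0 m → ∀ j, P x0 j → P m j := by
    intro m hm hxm j hj
    have hsub : J m ⊆ J x0 := by
      intro i hi
      rw [hJdef, Finset.mem_filter] at hi ⊢
      refine ⟨Finset.mem_univ _, fun b hb => ?_⟩
      obtain ⟨w, hw, h1, h2, h3⟩ := hi.2 b hb
      exact ⟨w, hw, h1, hP.trans _ _ _ hxm h2, h3⟩
    have hcard : (J x0).card ≤ (J m).card :=
      not_lt.1 (show ¬ (J m).card < (J x0).card from hmin m hm)
    have heq := Finset.eq_of_subset_of_card_le hsub hcard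
    have : j ∈ J m := by
      rw [heq, hJdef, Finset.mem_filter]
      exact ⟨Finset.mem_univ _, hj⟩
    rw [hJdef, Finset.mem_filter] at this
    exact this.2
  have hbd : ∀ m ∈ E, r x0 m → ∃ a ∈ A, ∀ y ∈ E, r x0 y → H m y → r y a := by
    intro m hm hxm
    have h1 : ∀ j : Fin n, ∃ b ∈ E, ∀ y ∈ E, c y = j → r x0 y → H m y → r y b := by
      intro j
      by_contra hcon
      push Not at hcon
      have hPj : P x0 j := by
        intro b hb
        obtain ⟨y, hy, h1, h2, _, h4⟩ := hcon b hb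
        exact ⟨y, hy, h1, h2, h4⟩
      obtain ⟨w, hw, hw1, hw2, _⟩ := hJ m hm hxm j hPj m hm
      obtain ⟨y, hy, h1, h2, h3, h4⟩ := hcon w hw
      rcases hc y w (h1.trans hw1.symm) with h | h
      · exact h4 h
      · exact hP.not_le h3 (hP.trans _ _ _ hw2 h)
    choose b hb1 hb2 using h1
    obtain ⟨a, ha, h2⟩ := fin_bound hP hAch hAne hAcof Finset.univ b (fun i _ => hb1 i)
    exact ⟨a, ha, fun y hy hxy hmy =>
      hP.trans _ _ _ (hb2 (c y) y hy rfl hxy hmy) (h2 (c y) (Finset.mem_univ _))⟩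
  -- the cardinal χ
  set χ : Cardinal.{u} := max ℵ₀ #(nb H x0 E) with hχdef
  have hχ0 : ℵ₀ ≤ χ := le_max_left _ _
  have hχ1 : #(nb H x0 E) ≤ χ := le_max_right _ _
  have hχκ : χ < κ := max_lt hκ (hdeg x0 hx0E)
  obtain ⟨a0, ha0, hbig0⟩ : ∃ a ∈ {a | a ∈ A ∧ r x0 a}, χ < #{x | x ∈ E ∧ r x0 x ∧ r x a} :=
    chain_big (r := r) (L := {a | a ∈ A ∧ r x0 a}) (fun x hx y hy => hAch x hx.1 y hy.1) hχ0
      (hlim χ hχκ) (hAbig x0 hx0E) (fun a => {x | x ∈ E ∧ r x0 x ∧ r x a})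
      (fun x _ y hy hyx => ⟨hAE hy.1, hy.2, hyx⟩)
  obtain ⟨a, ha00, haA, hax, _, hanb⟩ := closing hP hAch hAE hbd ha0.1 ha0.2
  have haE : ∀ i, a i ∈ E := fun i => hAE (haA i)
  set D' : Set α := {x | x ∈ E ∧ ∃ i, r x (a i)} with hD'
  set V : Set α := {x | x ∈ E ∧ r x0 x ∧ ∀ i, ¬ r x (a i)} with hV
  have hD'E : D' ⊆ E := fun x hx => hx.1
  have hVE : V ⊆ E := fun x hx => hx.1
  have hDV : ∀ x ∈ D', ∀ v ∈ V, r x v := by
    rintro x ⟨_, i, hi⟩ v ⟨hvE, hxv, hv⟩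
    rcases hP.cases (a i) v with h | h | h
    · exact hP.trans _ _ _ hi h
    · exact absurd h (hv i)
    · exact absurd (hanb i v hvE hxv h) (hv (i + 1))
  have hdisj : ∀ x ∈ D', x ∉ V := by
    rintro x ⟨_, i, hi⟩ ⟨_, _, hv⟩
    exact hv i hi
  have hZ : ∀ z ∈ E, z ∉ D' → z ∉ V → H x0 z := by
    intro z hz h1 h2
    rcases hP.cases x0 z with h | h | h
    · exfalso
      apply h2
      exact ⟨hz, h, fun i hi => h1 ⟨hz, i, hi⟩⟩
    · exact absurd ⟨hz, 0, hP.trans _ _ _ h (hax 0)⟩ h1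
    · exact h
  obtain ⟨b1, hb1⟩ := IH2 a haE
  obtain ⟨b2, hb2⟩ : ∃ b, GB H V b := by
    apply GB_of_comps hP
    intro x hx
    apply IH
    obtain ⟨b, hbA, hxb⟩ := hAcof x hx.1
    obtain ⟨a', ha'0, ha'A, ha'x, _, ha'nb⟩ :=
      closing hP hAch hAE hbd hbA (hP.trans _ _ _ hx.2.1 hxb)
    have hsub : Comp H V x ⊆ ⋃ i, {w | w ∈ E ∧ r x0 w ∧ r w (a' i)} := by
      rintro y ⟨-, hy⟩
      unfold Reach at hy
      induction hy with
      | refl =>
        rw [mem_iUnion]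
        exact ⟨0, hx.1, hx.2.1, by rw [ha'0]; exact hxb⟩
      | @tail y z _ hst ih =>
        obtain ⟨hy1, hz1, hyz⟩ := hst
        rw [mem_iUnion] at ih ⊢
        obtain ⟨i, _, _, hi⟩ := ih
        rcases hP.cases (a' i) z with h | h | h
        · exact absurd (hP.trans _ _ _ hi h) (hP.not_le hyz)
        · exact ⟨i, hz1.1, hz1.2.1, h⟩
        · exact ⟨i + 1, hz1.1, hz1.2.1, ha'nb i z hz1.1 hz1.2.1 h⟩
    refine (Cardinal.mk_le_mk_of_subset hsub).trans_lt (mk_iUnion_nat_lt hκ hcof fun i => ?_)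
    exact hint x0 hx0E (a' i) (hAE (ha'A i))
  have hb1D : b1 ⊆ D' := hb1.1
  have hb2V : b2 ⊆ V := hb2.1
  set B := b1 ∪ b2 with hB
  -- degrees
  have hdD : ∀ y ∈ D', nb H y B = nb H y b1 := by
    intro y hy
    ext w
    simp only [mem_nb, hB, mem_union]
    constructor
    · rintro ⟨h1 | h1, h2⟩
      · exact ⟨h1, h2⟩
      · exact absurd (hDV y hy w (hb2V h1)) (hP.not_le h2)
    · rintro ⟨h1, h2⟩
      exact ⟨Or.inl h1, h2⟩
  have hdV : ∀ y ∈ V, nb H y B = nb H y b2 := by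
    intro y hy
    ext w
    simp only [mem_nb, hB, mem_union]
    constructor
    · rintro ⟨h1 | h1, h2⟩
      · exact absurd (hDV w (hb1D h1) y hy) (hP.not_ge h2)
      · exact ⟨h1, h2⟩
    · rintro ⟨h1, h2⟩
      exact ⟨Or.inr h1, h2⟩
  have hdZ : ∀ z ∈ E, z ∉ D' → z ∉ V → χ < #(nb H z B) := by
    intro z hz hz1 hz2
    by_contra hcon
    push Not at hcon
    have hxz := hZ z hz hz1 hz2
    set D : Set α := {x | x ∈ D' ∧ r x0 x} with hD
    have hzD : ∀ d ∈ D, H z d := by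
      rintro d ⟨⟨hdE, i, hi⟩, hxd⟩
      rcases hP.cases z d with h | h | h
      · exact absurd ⟨hz, i, hP.trans _ _ _ h hi⟩ hz1
      · exact absurd (hP.trans _ _ _ hxd h) (hP.not_le hxz)
      · exact h
    have h1 : #(nb H z b1) ≤ χ :=
      (Cardinal.mk_le_mk_of_subset (nb_mono (subset_union_left))).trans hcon
    have h2 : ∀ y ∈ D, #(nb H y b1) ≤ χ := by
      intro y hy
      have hsub : nb H y b1 ⊆ nb H z b1 ∪ nb H x0 E := by
        rintro w ⟨hw1, hw2⟩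
        by_cases hxw : r x0 w
        · exact Or.inl ⟨hw1, hzD w ⟨hb1D hw1, hxw⟩⟩
        · refine Or.inr ⟨hD'E (hb1D hw1), ?_⟩
          rcases hP.cases x0 w with h | h | h
          · exact absurd h hxw
          · exact absurd (hP.trans _ _ _ h hy.2) (hP.not_ge hw2)
          · exact h
      refine (Cardinal.mk_le_mk_of_subset hsub).trans ((mk_union_le _ _).trans ?_)
      calc #(nb H z b1) + #(nb H x0 E) ≤ χ + χ := add_le_add h1 hχ1
        _ = χ := Cardinal.add_eq_self hχ0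
    have h3 := GB.ext hP hc hb1 (hχ0.trans (Order.le_succ χ)) (z := z)
      (lt_of_le_of_lt h1 (Order.lt_succ χ))
    have h4 : {x | x ∈ E ∧ r x0 x ∧ r x a0} ⊆
        {y | y ∈ D' ∧ H z y ∧ #(nb H y b1) < Order.succ χ} := by
      rintro y ⟨hyE, hxy, hya⟩
      have hyD' : y ∈ D' := ⟨hyE, 0, by rw [ha00]; exact hya⟩
      exact ⟨hyD', hzD y ⟨hyD', hxy⟩, lt_of_le_of_lt (h2 y ⟨hyD', hxy⟩) (Order.lt_succ χ)⟩
    have h5 := (Cardinal.mk_le_mk_of_subset h4).trans_lt h3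
    exact absurd hbig0 (not_lt.2 (Order.lt_succ_iff.1 h5))
  refine ⟨B, ?_, ?_, ?_⟩
  · intro y hy
    rcases hy with h | h
    · exact hD'E (hb1D h)
    · exact hVE (hb2V h)
  · intro y hy
    by_cases h1 : y ∈ D'
    · rw [hdD y h1, ← hb1.2.1 y h1]
      constructor
      · rintro (h | h)
        · exact h
        · exact absurd (hb2V h) (hdisj y h1)
      · exact fun h => Or.inl h
    by_cases h2 : y ∈ V
    · rw [hdV y h2, ← hb2.2.1 y h2]
      constructor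
      · rintro (h | h)
        · exact absurd (hb1D h) h1
        · exact h
      · exact fun h => Or.inr h
    · constructor
      · rintro (h | h)
        · exact absurd (hb1D h) h1
        · exact absurd (hb2V h) h2
      · intro h
        exact absurd (hdZ y hy h1 h2) (not_lt.2 (h.le.trans hχ0))
  · intro lam hlam m hm hdm
    by_cases hle : lam ≤ χ
    · have hmZ : m ∈ D' ∨ m ∈ V := by
        by_contra hcon
        push Not at hcon
        exact absurd (hdZ m hm hcon.1 hcon.2) (not_lt.2 (hdm.le.trans hle))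
      rcases hmZ with h | h
      · have hsub : {y | y ∈ E ∧ H m y ∧ #(nb H y B) < lam} ⊆
            {y | y ∈ D' ∧ H m y ∧ #(nb H y b1) < lam} := by
          rintro y ⟨h1, h2, h3⟩
          have hyD : y ∈ D' := by
            by_contra hyD
            by_cases hyV : y ∈ V
            · exact hP.not_le h2 (hDV m h y hyV)
            · exact absurd (hdZ y h1 hyD hyV) (not_lt.2 (h3.le.trans hle))
          rw [hdD y hyD] at h3
          exact ⟨hyD, h2, h3⟩
        refine (Cardinal.mk_le_mk_of_subset hsub).trans_lt (hb1.2.2 lam hlam m h ?_)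
        rwa [← hdD m h]
      · have hsub : {y | y ∈ E ∧ H m y ∧ #(nb H y B) < lam} ⊆
            {y | y ∈ V ∧ H m y ∧ #(nb H y b2) < lam} := by
          rintro y ⟨h1, h2, h3⟩
          have hyV : y ∈ V := by
            by_contra hyV
            by_cases hyD : y ∈ D'
            · exact hP.not_ge h2 (hDV y hyD m h)
            · exact absurd (hdZ y h1 hyD hyV) (not_lt.2 (h3.le.trans hle))
          rw [hdV y hyV] at h3
          exact ⟨hyV, h2, h3⟩
        refine (Cardinal.mk_le_mk_of_subset hsub).trans_lt (hb2.2.2 lam hlam m h ?_)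
        rwa [← hdV m h]
    · push Not at hle
      have e1 : #(nb H m b1) < lam :=
        (Cardinal.mk_le_mk_of_subset (nb_mono (subset_union_left))).trans_lt hdm
      have e2 : #(nb H m b2) < lam :=
        (Cardinal.mk_le_mk_of_subset (nb_mono (subset_union_right))).trans_lt hdm
      have f1 := GB.ext hP hc hb1 hlam e1
      have f2 := GB.ext hP hc hb2 hlam e2
      have hsub : {y | y ∈ E ∧ H m y ∧ #(nb H y B) < lam} ⊆ nb H x0 E ∪
          ({y | y ∈ D' ∧ H m y ∧ #(nb H y b1) < lam} ∪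
            {y | y ∈ V ∧ H m y ∧ #(nb H y b2) < lam}) := by
        rintro y ⟨h1, h2, h3⟩
        by_cases hyD : y ∈ D'
        · rw [hdD y hyD] at h3
          exact Or.inr (Or.inl ⟨hyD, h2, h3⟩)
        by_cases hyV : y ∈ V
        · rw [hdV y hyV] at h3
          exact Or.inr (Or.inr ⟨hyV, h2, h3⟩)
        · exact Or.inl ⟨h1, hZ y h1 hyD hyV⟩
      refine (Cardinal.mk_le_mk_of_subset hsub).trans_lt ((mk_union_le _ _).trans_lt ?_)
      exact add_lt_of_lt hlam (hχ1.trans_lt hle)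
        ((mk_union_le _ _).trans_lt (add_lt_of_lt hlam f1 f2))

/-- One-sided case. -/
theorem one_sided (hP : PO r H) {n : ℕ} {c : α → Fin n} (hc : Col r c) {κ : Cardinal.{u}}
    (hκ : ℵ₀ < κ) (hlim : ∀ μ < κ, Order.succ μ < κ) (hcof : ℵ₀ < κ.ord.cof)
    (IH : ∀ S : Set α, #S < κ → ∃ B, GB H S B) {E : Set α}
    (hdeg : ∀ m ∈ E, #(nb H m E) < κ)
    (hint : ∀ x ∈ E, ∀ y ∈ E, #{w | w ∈ E ∧ r x w ∧ r w y} < κ)
    {o : α} (ho : o ∈ E) (hup : κ ≤ #{x | x ∈ E ∧ r o x}) (hdown : #{x | x ∈ E ∧ r x o} < κ) :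
    ∃ B, GB H E B := by
  apply lemma_up hP hc hκ hlim hcof IH hdeg hint ho hup
  intro a ha
  apply IH
  have hsub : {x | x ∈ E ∧ ∃ i, r x (a i)} ⊆ {x | x ∈ E ∧ r x o} ∪ (nb H o E ∪
      ⋃ i, {w | w ∈ E ∧ r o w ∧ r w (a i)}) := by
    rintro x ⟨hx, i, hi⟩
    rcases hP.cases o x with h | h | h
    · exact Or.inr (Or.inr (mem_iUnion.2 ⟨i, hx, h, hi⟩))
    · exact Or.inl ⟨hx, h⟩
    · exact Or.inr (Or.inl ⟨hx, h⟩)
  refine (Cardinal.mk_le_mk_of_subset hsub).trans_lt ((mk_union_le _ _).trans_lt ?_)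
  apply add_lt_of_lt hκ.le hdown
  refine (mk_union_le _ _).trans_lt (add_lt_of_lt hκ.le (hdeg o ho) ?_)
  exact mk_iUnion_nat_lt hκ hcof fun i => hint o ho (a i) (ha i)

/-- The case where the upper part is large. -/
theorem big_up (hP : PO r H) {n : ℕ} {c : α → Fin n} (hc : Col r c) {κ : Cardinal.{u}}
    (hκ : ℵ₀ < κ) (hlim : ∀ μ < κ, Order.succ μ < κ) (hcof : ℵ₀ < κ.ord.cof)
    (IH : ∀ S : Set α, #S < κ → ∃ B, GB H S B) {E : Set α}
    (hE : HConn H E) (hdeg : ∀ m ∈ E, #(nb H m E) < κ)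
    {o : α} (ho : o ∈ E) (hup : κ ≤ #{x | x ∈ E ∧ r o x}) : ∃ B, GB H E B := by
  have hint : ∀ x ∈ E, ∀ y ∈ E, #{w | w ∈ E ∧ r x w ∧ r w y} < κ :=
    fun x hx y hy => mk_interval_lt hP hE hκ.le hdeg hx hy
  apply lemma_up hP hc hκ hlim hcof IH hdeg hint ho hup
  intro a ha
  set D' : Set α := {x | x ∈ E ∧ ∃ i, r x (a i)} with hD'
  have hD'E : D' ⊆ E := fun x hx => hx.1
  apply GB_of_comps hP
  intro o' ho'
  set E' := Comp H D' o' with hE'
  have hE'D : E' ⊆ D' := comp_subset D' o'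
  have ho'E : o' ∈ E' := mem_comp_self ho'
  rcases lt_or_ge #E' κ with hlt | hge
  · exact IH E' hlt
  have hconn : HConn H E' := comp_conn hP D' o'
  have hdeg' : ∀ m ∈ E', #(nb H m E') < κ := fun m hm =>
    (Cardinal.mk_le_mk_of_subset (nb_mono (hE'D.trans hD'E))).trans_lt (hdeg m (hD'E (hE'D hm)))
  have hint' : ∀ x ∈ E', ∀ y ∈ E', #{w | w ∈ E' ∧ r x w ∧ r w y} < κ :=
    fun x hx y hy => mk_interval_lt hP hconn hκ.le hdeg' hx hy
  have hupsmall : #{x | x ∈ E' ∧ r o' x} < κ := by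
    have hsub : {x | x ∈ E' ∧ r o' x} ⊆ ⋃ i, {w | w ∈ E ∧ r o' w ∧ r w (a i)} := by
      rintro x ⟨hx, hox⟩
      obtain ⟨hxE, i, hi⟩ := hE'D hx
      exact mem_iUnion.2 ⟨i, hxE, hox, hi⟩
    refine (Cardinal.mk_le_mk_of_subset hsub).trans_lt (mk_iUnion_nat_lt hκ hcof fun i => ?_)
    exact hint o' (hD'E ho') (a i) (ha i)
  have hdownbig : κ ≤ #{x | x ∈ E' ∧ r x o'} := by
    by_contra hcon
    push Not at hcon
    have hsub : E' ⊆ {x | x ∈ E' ∧ r x o'} ∪ (nb H o' E' ∪ {x | x ∈ E' ∧ r o' x}) := by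
      intro x hx
      rcases hP.cases o' x with h | h | h
      · exact Or.inr (Or.inr ⟨hx, h⟩)
      · exact Or.inl ⟨hx, h⟩
      · exact Or.inr (Or.inl ⟨hx, h⟩)
    have := (Cardinal.mk_le_mk_of_subset hsub).trans_lt ((mk_union_le _ _).trans_lt
      (add_lt_of_lt hκ.le hcon ((mk_union_le _ _).trans_lt
        (add_lt_of_lt hκ.le (hdeg' o' ho'E) hupsmall))))
    exact absurd hge (not_le.2 this)
  refine one_sided (r := fun x y => r y x) hP.dual hc.dual hκ hlim hcof IH hdeg' ?_ ho'E hdownbig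
    hupsmall
  intro x hx y hy
  have := hint' y hy x hx
  refine (Cardinal.mk_le_mk_of_subset ?_).trans_lt this
  rintro w ⟨h1, h2, h3⟩
  exact ⟨h1, h3, h2⟩

/-- M6 -/
theorem GB_cof_big (hP : PO r H) {n : ℕ} {c : α → Fin n} (hc : Col r c) {κ : Cardinal.{u}}
    (hκ : ℵ₀ < κ) (hlim : ∀ μ < κ, Order.succ μ < κ) (hcof : ℵ₀ < κ.ord.cof)
    (IH : ∀ S : Set α, #S < κ → ∃ B, GB H S B) {E : Set α}
    (hE : HConn H E) (hdeg : ∀ m ∈ E, #(nb H m E) < κ) (hcard : #E = κ) : ∃ B, GB H E B := by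
  have hne : E.Nonempty := by
    rw [nonempty_iff_ne_empty]
    rintro rfl
    rw [Cardinal.mk_eq_zero] at hcard
    exact absurd (aleph0_pos.trans hκ) (by rw [← hcard]; exact lt_irrefl _)
  obtain ⟨o, ho⟩ := hne
  by_cases hup : κ ≤ #{x | x ∈ E ∧ r o x}
  · exact big_up hP hc hκ hlim hcof IH hE hdeg ho hup
  · push Not at hup
    have hdown : κ ≤ #{x | x ∈ E ∧ r x o} := by
      by_contra hcon
      push Not at hcon
      have hsub : E ⊆ {x | x ∈ E ∧ r x o} ∪ (nb H o E ∪ {x | x ∈ E ∧ r o x}) := by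
        intro x hx
        rcases hP.cases o x with h | h | h
        · exact Or.inr (Or.inr ⟨hx, h⟩)
        · exact Or.inl ⟨hx, h⟩
        · exact Or.inr (Or.inl ⟨hx, h⟩)
      have := (Cardinal.mk_le_mk_of_subset hsub).trans_lt ((mk_union_le _ _).trans_lt
        (add_lt_of_lt hκ.le hcon ((mk_union_le _ _).trans_lt
          (add_lt_of_lt hκ.le (hdeg o ho) hup))))
      exact absurd hcard.ge (not_le.2 this)
    exact big_up (r := fun x y => r y x) hP.dual hc.dual hκ hlim hcof IH hE hdeg ho hdown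

end Pool.Agent.Work.MP_288596_co.CofBig
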