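import Pool.Agent.Work.MP_288596_co.Core3

/-! The core lemma, infinite descent case, and Theorem A. -/

set_option autoImplicit false

namespace Pool.Agent.Work.MP_288596_co

open Set Filter Cardinal

universe u

variable {α : Type u} {r H : α → α → Prop} {I : Sml α}

variable {S : Set α} {n : ℕ} {c : α → Fin n}

/-- One step down the ladder. -/
theorem ladder_step (hP : PO r H) (hc : Col r c) {z z' τ' : Set α} {x : α} (hz : IsId I r S z)
    (hx : x ∈ z) (hb : ∀ y ∈ z', r y x)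
    (hmeet : ∀ u, IsId I (fun x y => r y x) S u → (u ∩ z).Nonempty → u = S)
    (hτ' : IsId I r S τ') (hτz : τ' ⊆ z') :
    ∃ B, B.Nonempty ∧ (∀ b ∈ B, ∀ y ∈ τ', r y b) ∧
      CC I H {w | w ∈ z ∧ ∀ y ∈ τ', r y w} B ∧
      IsId I r S (dn r S B) ∧ dn r S B ⊆ z ∧ ¬ ∃ x ∈ z, ∀ y ∈ dn r S B, r y x := by
  set Q := {w | w ∈ z ∧ ∀ y ∈ τ', r y w} with hQdef
  have hQz : Q ⊆ z := fun w hw => hw.1
  have hxQ : x ∈ Q := ⟨hx, fun y hy => hb y (hτz hy)⟩
  have hnof : ∀ u, ¬ IsId I (fun x y => r y x) Q u := by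
    intro u hu
    have h1 : IsId I (fun x y => r y x) S (dn (fun x y => r y x) S u) :=
      isId_dn hP.dual (hu.1.trans (hQz.trans hz.1)) hu.2.1 hu.2.2.2.1 hu.2.2.2.2
    have h2 : dn (fun x y => r y x) S u = S := by
      apply hmeet _ h1
      obtain ⟨a, ha⟩ := hu.2.1
      exact ⟨a, ⟨hz.1 (hQz (hu.1 ha)), a, ha, hP.refl a⟩, hQz (hu.1 ha)⟩
    obtain ⟨y, hy⟩ := hτ'.2.1
    have hyS : y ∈ dn (fun x y => r y x) S u := by rw [h2]; exact hτ'.1 hy
    obtain ⟨_, a, ha, hay⟩ := hyS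
    have hya : ∀ w ∈ u, r y w := fun w hw => (hu.1 hw).2 y hy
    refine hu.not_max hP.dual ha ?_
    intro w hw
    exact hP.trans _ _ _ hay (hya w hw)
  obtain ⟨B, hB⟩ := exists_CC_of_no_filter hP hc hnof
  have hBne : B.Nonempty := hB.nonempty ⟨x, hxQ⟩
  have hBS : B ⊆ S := hB.1.trans (hQz.trans hz.1)
  have htail : ∀ b ∈ B, ¬ I.sm {w | w ∈ B ∧ r b w} := by
    intro b hb'
    apply hB.tail hP hb'
    intro hsm
    apply hz.2.2.2.2 b (hQz (hB.1 hb'))
    refine I.mono ?_ hsm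
    rintro w ⟨hw, hbw⟩
    exact ⟨⟨hw, fun y hy => hP.trans _ _ _ ((hB.1 hb').2 y hy) hbw⟩, hbw⟩
  have hdir : ∀ b ∈ B, ∀ b' ∈ B, ∃ w ∈ B, r b w ∧ r b' w := by
    intro b hb1 b' hb2
    have h1 : ¬ ({w | w ∈ B ∧ r b' w} ⊆ nb H b B) := by
      intro h1
      exact htail b' hb2 (I.mono h1 (hB.2.1 b hb1))
    rw [not_subset] at h1
    obtain ⟨w, ⟨hw, hbw⟩, hn⟩ := h1
    rcases hP.cases b w with h2 | h2 | h2
    · exact ⟨w, hw, h2, hbw⟩
    · exact ⟨b, hb1, hP.refl b, hP.trans _ _ _ hbw h2⟩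
    · exact absurd ⟨hw, h2⟩ hn
  refine ⟨B, hBne, fun b hb' => (hB.1 hb').2, hB, isId_dn hP hBS hBne hdir htail, ?_, ?_⟩
  · rintro w ⟨hw, b, hb', hwb⟩
    exact hz.2.2.1 w hw b (hQz (hB.1 hb')) hwb
  · rintro ⟨v, hv, hvb⟩
    have hBv : ∀ b ∈ B, r b v := fun b hb' => hvb b (subset_dn hP hBS hb')
    have hvQ : v ∈ Q := by
      refine ⟨hv, ?_⟩
      obtain ⟨b, hb'⟩ := hBne
      intro y hy
      exact hP.trans _ _ _ ((hB.1 hb').2 y hy) (hBv b hb')
    by_cases hvB : v ∈ B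
    · apply htail v hvB
      apply I.fin
      apply (finite_singleton v).subset
      rintro w ⟨hw, hvw⟩
      exact hP.antisymm _ _ (hBv w hw) hvw
    · apply hB.2.2 v hvQ hvB
      have : nb H v B = ∅ := by
        ext w
        simp only [mem_nb, mem_empty_iff_false, iff_false, not_and]
        intro hw hvw
        exact hP.not_ge hvw (hBv w hw)
      rw [this]; exact I.empty

/-- The infinite descent case yields a core. -/
theorem core_of_desc (hP : PO r H) (hc : Col r c) {z : ℕ → Set α} {x : ℕ → α}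
    (hz : ∀ i, IsId I r S (z i)) (hx : ∀ i, x i ∈ z i) (hb : ∀ i, ∀ y ∈ z (i + 1), r y (x i))
    (hmeet : ∀ u, IsId I (fun x y => r y x) S u → (u ∩ z 0).Nonempty → u = S) :
    ∃ B, B.Nonempty ∧ Core I H S B := by
  have hzanti : ∀ i, z i ⊆ z 0 := by
    intro i
    induction i with
    | zero => exact Subset.rfl
    | succ i ih =>
      intro y hy
      exact ih ((hz i).2.2.1 y ((hz (i + 1)).1 hy) (x i) (hx i) (hb i y hy))
  -- the finite sets of candidates
  let T : ℕ → Set (Set α) := fun i => {τ | IsId I r S τ ∧ τ ⊆ z i ∧ ¬ ∃ x ∈ z i, ∀ y ∈ τ, r y x}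
  have hTfin : ∀ i, (T i).Finite := fun i => finite_unbounded hP hc (hz i)
  have hzT : ∀ i, z i ∈ T i := by
    intro i
    refine ⟨hz i, Subset.rfl, ?_⟩
    rintro ⟨v, hv, hvb⟩
    exact (hz i).not_max hP hv hvb
  have hstep : ∀ i, ∀ τ' ∈ T (i + 1), ∃ B, B.Nonempty ∧ (∀ b ∈ B, ∀ y ∈ τ', r y b) ∧
      CC I H {w | w ∈ z i ∧ ∀ y ∈ τ', r y w} B ∧ dn r S B ∈ T i := by
    intro i τ' hτ'
    obtain ⟨B, h1, h2, h3, h4⟩ := ladder_step hP hc (hz i) (hx i) (hb i)
      (fun u hu hne => hmeet u hu (hne.mono (inter_subset_inter_right _ (hzanti i)))) hτ'.1 hτ'.2.1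
    exact ⟨B, h1, h2, h3, h4⟩
  choose! F hF1 hF2 hF3 hF4 using hstep
  -- finite approximations
  let g : ℕ → ℕ → Set α := fun k => Nat.rec z (fun _ gk i => dn r S (F i (gk (i + 1)))) k
  have hg : ∀ k i, g k i ∈ T i := by
    intro k
    induction k with
    | zero => intro i; exact hzT i
    | succ k ih => intro i; exact hF4 i _ (ih (i + 1))
  have hlim : ∀ i, ∃ τ ∈ T i, ∀ᶠ N in (hyperfilter ℕ : Filter ℕ), g (N - i) i = τ := by
    intro i
    rw [← Ultrafilter.eventually_exists_mem_iff (hTfin i)]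
    exact Eventually.of_forall fun N => ⟨_, hg _ _, rfl⟩
  choose τ hτT hτ using hlim
  have hrec : ∀ i, τ i = dn r S (F i (τ (i + 1))) := by
    intro i
    have h1 : ∀ᶠ N in (hyperfilter ℕ : Filter ℕ), i + 1 ≤ N :=
      (Nat.hyperfilter_le_atTop) (eventually_ge_atTop (i + 1))
    obtain ⟨N, h2, h3, h4⟩ := (h1.and ((hτ i).and (hτ (i + 1)))).exists
    rw [← h3, ← h4]
    have h5 : N - i = (N - (i + 1)) + 1 := by omega
    rw [h5]
  let B : ℕ → Set α := fun i => F i (τ (i + 1))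
  have hBne : ∀ i, (B i).Nonempty := fun i => hF1 i _ (hτT _)
  have hBdn : ∀ i, dn r S (B i) = τ i := fun i => (hrec i).symm
  have hCC : ∀ i, CC I H {w | w ∈ z i ∧ ∀ y ∈ τ (i + 1), r y w} (B i) := fun i => hF3 i _ (hτT _)
  have hBS : ∀ i, B i ⊆ S := fun i y hy => (hz i).1 ((hCC i).1 hy).1
  have hBτ : ∀ i, B i ⊆ τ i := fun i => by rw [← hBdn i]; exact subset_dn hP (hBS i)
  have hlt1 : ∀ i, ∀ b ∈ B i, ∀ y ∈ τ (i + 1), r y b := fun i => hF2 i _ (hτT _)
  have hlt : ∀ i j, i < j → ∀ b ∈ B i, ∀ b' ∈ B j, r b' b := by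
    intro i j hij
    induction j, hij using Nat.le_induction with
    | base => intro b hb b' hb'; exact hlt1 i b hb b' (hBτ _ hb')
    | succ k _ ih =>
      intro b hb b' hb'
      obtain ⟨w, hw⟩ := hBne k
      exact hP.trans _ _ _ (hlt1 k w hw b' (hBτ _ hb')) (ih b hb w hw)
  have htail : ∀ i, ∀ b ∈ B i, ¬ I.sm {w | w ∈ B i ∧ r b w} := by
    intro i b hb'
    apply (hCC i).tail hP hb'
    intro hsm
    apply (hz i).2.2.2.2 b ((hCC i).1 hb').1
    refine I.mono ?_ hsm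
    rintro w ⟨hw, hbw⟩
    exact ⟨⟨hw, fun y hy => hP.trans _ _ _ (((hCC i).1 hb').2 y hy) hbw⟩, hbw⟩
  -- elements outside `τ i` adjacent to `B i`
  have hout : ∀ i, ∀ b ∈ B i, ∀ v ∈ S, v ∉ τ i → H v b → ¬ I.sm (nb H v (⋃ i, B i)) := by
    intro i b hb' v hv hvτ hvb hsm
    apply htail i b hb'
    refine I.mono ?_ hsm
    rintro w ⟨hw, hbw⟩
    refine ⟨mem_iUnion.2 ⟨i, hw⟩, ?_⟩
    rcases hP.cases v w with h1 | h1 | h1
    · exact absurd (by rw [← hBdn i]; exact ⟨hv, w, hw, h1⟩) hvτ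
    · exact absurd (hP.trans _ _ _ hbw h1) (hP.not_ge hvb)
    · exact h1
  refine ⟨⋃ i, B i, ?_, iUnion_subset hBS, ?_, ?_⟩
  · obtain ⟨b, hb'⟩ := hBne 0
    exact ⟨b, mem_iUnion.2 ⟨0, hb'⟩⟩
  · intro m hm
    obtain ⟨i, hm⟩ := mem_iUnion.1 hm
    refine I.mono ?_ ((hCC i).2.1 m hm)
    rintro w ⟨hw, hmw⟩
    obtain ⟨j, hw⟩ := mem_iUnion.1 hw
    rcases lt_trichotomy i j with h1 | h1 | h1
    · exact absurd (hlt i j h1 m hm w hw) (hP.not_ge hmw)
    · subst h1; exact ⟨hw, hmw⟩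
    · exact absurd (hlt j i h1 w hw m hm) (hP.not_le hmw)
  · rintro v hv hvB ⟨b, hb', hvb⟩
    obtain ⟨i, hb'⟩ := mem_iUnion.1 hb'
    have hvi : v ∉ B i := fun h => hvB (mem_iUnion.2 ⟨i, h⟩)
    by_cases h1 : v ∈ τ i
    · by_cases h2 : ∀ y ∈ τ (i + 1), r y v
      · have h3 := (hCC i).2.2 v ⟨(hτT i).2.1 h1, h2⟩ hvi
        exact fun hsm => h3 (I.mono (nb_mono (subset_iUnion B i)) hsm)
      · push Not at h2
        obtain ⟨y, hy, hyv⟩ := h2
        have hvτ : v ∉ τ (i + 1) := by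
          intro h3
          exact hP.not_le hvb (hlt1 i b hb' v h3)
        rw [← hBdn (i + 1)] at hy
        obtain ⟨_, b1, hb1, hyb1⟩ := hy
        refine hout (i + 1) b1 hb1 v hv hvτ ?_
        rw [hP.inc]
        refine ⟨fun h3 => hvτ ?_, fun h3 => hyv (hP.trans _ _ _ hyb1 h3)⟩
        rw [← hBdn (i + 1)]; exact ⟨hv, b1, hb1, h3⟩
    · exact hout i b hb' v hv h1 hvb

theorem Bad.no_ideal (h : Bad I r H S c) {t : Set α} (ht : IsId I r S t) : t = S := by
  by_contra htS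
  have hmeet : ∀ u, IsId I (fun x y => r y x) S u → (u ∩ t).Nonempty → u = S := by
    intro u hu hne
    by_contra huS
    exact h.disjoint hu huS ht htS hne
  rcases exists_min_or_desc (P := fun t' => t' ⊆ t) ht Subset.rfl with
    ⟨t0, ht0, ht0t, hmin⟩ | ⟨z, x, hz0, hzx⟩
  · obtain ⟨B, hB, hB'⟩ := core_of_min h.po h.col ht0 (by
      rintro t' ht' ⟨x, hx, hxb⟩
      refine hmin t' ht' (fun y hy => ht0t ?_) ⟨x, hx, hxb⟩
      exact ht0.2.2.1 y (ht'.1 hy) x hx (hxb y hy))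
      (fun u hu hne => hmeet u hu (hne.mono (inter_subset_inter_right _ ht0t)))
    exact h.nocore B hB hB'
  · obtain ⟨B, hB, hB'⟩ := core_of_desc h.po h.col (fun i => (hzx i).1) (fun i => (hzx i).2.2.1)
      (fun i => (hzx i).2.2.2) (by rw [hz0]; exact hmeet)
    exact h.nocore B hB hB'

theorem Bad.false (h : Bad I r H S c) : False := by
  refine h.nocore S h.ne ⟨Subset.rfl, ?_, fun z hz hz' => absurd hz hz'⟩
  intro m hm
  by_contra hlarge
  obtain ⟨A', hA', _, h1 | h1⟩ := exists_id_or_fi h.po h.col (S := S) nb_subset hlarge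
  · have h2 : m ∈ dn r S A' := by rw [h.no_ideal h1]; exact hm
    obtain ⟨_, a, ha, hma⟩ := h2
    exact h.po.not_le (hA' ha).2 hma
  · have h2 : m ∈ dn (fun x y => r y x) S A' := by rw [h.dual.no_ideal h1]; exact hm
    obtain ⟨_, a, ha, hma⟩ := h2
    exact h.po.not_ge (hA' ha).2 hma

theorem reach_closed {K T : Set α} {x : α} (hx : x ∈ T)
    (hT : ∀ a ∈ T, ∀ b ∈ K, H a b → b ∈ T) {y : α} (hy : Reach H K x y) : y ∈ T := by
  induction hy with
  | refl => exact hx
  | tail _ h1 ih => exact hT _ ih _ h1.2.1 h1.2.2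

/-- Theorem A, abstract form. -/
theorem exists_CC (hP : PO r H) (hc : Col r c) (k : ℕ) : ∀ S : Set α,
    (∀ s : Finset α, (∀ x ∈ s, x ∈ S) → (∀ x ∈ s, ∀ y ∈ s, x ≠ y → H x y) → s.card ≤ k) →
      ∃ B, CC I H S B := by
  classical
  induction k with
  | zero =>
    intro S hS
    refine ⟨∅, empty_subset _, by simp, ?_⟩
    intro z hz
    have := hS {z} (by simpa using hz) (by simp)
    simp at this
  | succ k ih =>
    intro S hS
    apply exists_CC_of_cores (fun x y => hP.symm)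
    rintro Q hQS ⟨x0, hx0⟩
    set E := {y | y ∈ Q ∧ Reach H Q x0 y} with hE
    have hEQ : E ⊆ Q := fun y hy => hy.1
    have hEcl : ∀ a ∈ E, ∀ b ∈ Q, H a b → b ∈ E := by
      intro a ha b hb hab
      exact ⟨hb, ha.2.tail ⟨ha.1, hb, hab⟩⟩
    by_contra hcon
    push Not at hcon
    have hbad : Bad I r H E c := by
      refine ⟨hP, hc, ⟨x0, hx0, Relation.ReflTransGen.refl⟩, ?_, ?_, ?_⟩
      · intro x hx Q' hQ' hQx
        apply ih
        intro s hs hanti
        have hxs : x ∉ s := fun h1 => hP.irrefl x (hQx x (hs x h1))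
        have h1 := hS (insert x s) (by
          intro y hy
          rcases Finset.mem_insert.1 hy with h2 | h2
          · rw [h2]; exact hQS (hEQ hx)
          · exact hQS (hEQ (hQ' (hs y h2)))) (by
          intro a ha b hb hab
          rcases Finset.mem_insert.1 ha with h2 | h2 <;> rcases Finset.mem_insert.1 hb with h3 | h3
          · exact absurd (h2.trans h3.symm) hab
          · rw [h2]; exact hQx b (hs b h3)
          · rw [h3]; exact hP.symm (hQx a (hs a h2))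
          · exact hanti a h2 b h3 hab)
        rw [Finset.card_insert_of_notMem hxs] at h1
        omega
      · intro T hTE hTne hTE'
        by_contra hno
        push Not at hno
        -- `T` is closed under neighbours
        have hTcl : ∀ a ∈ T, ∀ b ∈ E, H a b → b ∈ T := by
          intro a ha b hb hab
          by_contra hbT
          exact hno b hb hbT a ha (hP.symm hab)
        apply hTE'
        apply Subset.antisymm hTE
        -- the root is in `T`
        have hx0T : x0 ∈ T := by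
          by_contra hx0T
          obtain ⟨y, hy⟩ := hTne
          have h1 : y ∈ E \ T := reach_closed (H := H) (K := Q) (T := E \ T) (x := x0)
            ⟨⟨hx0, Relation.ReflTransGen.refl⟩, hx0T⟩ (by
              rintro a ⟨ha, haT⟩ b hb hab
              refine ⟨hEcl a ha b hb hab, fun hbT => haT ?_⟩
              exact hTcl b hbT a ha (hP.symm hab)) (hTE hy).2
          exact h1.2 hy
        intro y hy
        have h1 : y ∈ E ∩ T := reach_closed (H := H) (K := Q) (T := E ∩ T) (x := x0)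
            ⟨⟨hx0, Relation.ReflTransGen.refl⟩, hx0T⟩ (by
              rintro a ⟨ha, haT⟩ b hb hab
              exact ⟨hEcl a ha b hb hab, hTcl a haT b (hEcl a ha b hb hab) hab⟩) hy.2
        exact h1.2
      · intro B hBne hB
        refine hcon B hBne ⟨hB.1.trans hEQ, hB.2.1, ?_⟩
        rintro z hz hzB ⟨b, hb, hzb⟩
        exact hB.2.2 z (hEcl b (hB.1 hb) z hz (hP.symm hzb)) hzB ⟨b, hb, hzb⟩
    exact hbad.false

/-- Smallness given by a cardinal. -/
def cardSml (α : Type u) (κ : Cardinal.{u}) (hκ : ℵ₀ ≤ κ) : Sml α where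
  sm A := #A < κ
  mono h h1 := (mk_le_mk_of_subset h).trans_lt h1
  union h1 h2 := (mk_union_le _ _).trans_lt (add_lt_of_lt hκ h1 h2)
  fin h := (lt_aleph0_iff_set_finite.2 h).trans_le hκ

/-- Theorem A: complete `κ`-cores exist. -/
theorem exists_ccore (hP : PO r H) {n : ℕ} {c : α → Fin n} (hc : Col r c) {κ : Cardinal.{u}}
    (hκ : ℵ₀ ≤ κ) (S : Set α) : ∃ B, CCore H κ S B := by
  obtain ⟨B, h1, h2, h3⟩ := exists_CC (I := cardSml α κ hκ) hP hc n S (by
    intro s _ hs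
    have hinj : Set.InjOn c (s : Set α) := by
      intro x hx y hy hxy
      by_contra hne
      have := hs x hx y hy hne
      rcases hc x y hxy with h1 | h1
      · exact hP.not_le this h1
      · exact hP.not_ge this h1
    calc s.card = (s.image c).card := (Finset.card_image_of_injOn hinj).symm
      _ ≤ Fintype.card (Fin n) := Finset.card_le_univ _
      _ = n := Fintype.card_fin n)
  exact ⟨B, h1, h2, fun z hz hzB => not_lt.1 (h3 z hz hzB)⟩

end Pool.Agent.Work.MP_288596_co
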