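import Pool.Agent.Work.MP_288596_co.Base
import Pool.Agent.Work.MP_288596_co.Core4

/-! Lemma R and the lifting lemmas for good bases. -/

set_option autoImplicit false

namespace Pool.Agent.Work.MP_288596_co

open Cardinal Set

universe u

variable {α : Type u} {r H : α → α → Prop}

theorem GB.deg_le {S B : Set α} (hB : GB H S B) {μ : Cardinal.{u}} (hμ : ℵ₀ ≤ μ) {m : α}
    (hm : m ∈ S) (hmd : #(nb H m B) ≤ μ) : #{y | y ∈ S ∧ H m y ∧ #(nb H y B) ≤ μ} ≤ μ := by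
  have h := hB.2.2 (Order.succ μ) (hμ.trans (Order.le_succ μ)) m hm (Order.lt_succ_of_le hmd)
  have h' := Order.lt_succ_iff.1 h
  refine (mk_le_mk_of_subset ?_).trans h'
  rintro y ⟨h1, h2, h3⟩
  exact ⟨h1, h2, Order.lt_succ_of_le h3⟩

theorem side1 (hP : PO r H) {S B : Set α} (hB : GB H S B) {μ : Cardinal.{u}} (hμ : ℵ₀ ≤ μ) {z : α}
    {A : Set α} (hA : ∀ y ∈ A, y ∈ S ∧ #(nb H y B) ≤ μ) (hz : ∀ y ∈ A, H z y)
    (hch : ∀ x ∈ A, ∀ y ∈ A, r x y ∨ r y x) (hb : ∀ y ∈ A, ∃ b ∈ B, H y b ∧ r b z) : #A ≤ μ := by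
  rcases A.eq_empty_or_nonempty with h0 | ⟨y0, hy0⟩
  · rw [h0, mk_eq_zero]; exact zero_le
  · choose! b hbB hyb hbz using hb
    have hBdeg : ∀ b ∈ B, #{y | y ∈ S ∧ H b y ∧ #(nb H y B) ≤ μ} ≤ μ := by
      intro b hb
      exact hB.deg_le hμ (hB.1 hb) ((((hB.2.1 b (hB.1 hb)).1 hb).le).trans hμ)
    have h1 : A ⊆ {y | y ∈ S ∧ H (b y0) y ∧ #(nb H y B) ≤ μ} ∪
        ⋃ w ∈ nb H y0 B, {y | y ∈ S ∧ H w y ∧ #(nb H y B) ≤ μ} := by
      intro y hy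
      rcases hch y hy y0 hy0 with h2 | h2
      · left
        refine ⟨(hA y hy).1, ?_, (hA y hy).2⟩
        rw [hP.inc]
        refine ⟨fun h3 => ?_, fun h3 => ?_⟩
        · exact hP.not_ge (hyb y0 hy0) (hP.trans _ _ _ h3 h2)
        · exact hP.not_ge (hz y hy) (hP.trans _ _ _ h3 (hbz y0 hy0))
      · right
        refine mem_biUnion (x := b y) ⟨hbB y hy, ?_⟩ ⟨(hA y hy).1, hP.symm (hyb y hy), (hA y hy).2⟩
        rw [hP.inc]
        refine ⟨fun h3 => ?_, fun h3 => ?_⟩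
        · exact hP.not_ge (hz y0 hy0) (hP.trans _ _ _ h3 (hbz y hy))
        · exact hP.not_ge (hyb y hy) (hP.trans _ _ _ h3 h2)
    refine (mk_le_mk_of_subset h1).trans ((mk_union_le _ _).trans ?_)
    have h2 : #(⋃ w ∈ nb H y0 B, {y | y ∈ S ∧ H w y ∧ #(nb H y B) ≤ μ}) ≤ μ := by
      refine (mk_biUnion_le _ _).trans ?_
      have h3 : (⨆ w : nb H y0 B, #{y | y ∈ S ∧ H w.1 y ∧ #(nb H y B) ≤ μ}) ≤ μ :=
        ciSup_le' (fun w => hBdeg w.1 w.2.1)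
      exact (mul_le_mul' (hA y0 hy0).2 h3).trans (mul_eq_self hμ).le
    exact (add_le_add (hBdeg _ (hbB y0 hy0)) h2).trans (add_eq_self hμ).le

/-- Lemma R for successor cardinals. -/
theorem GB.ext_le (hP : PO r H) {n : ℕ} {c : α → Fin n} (hc : Col r c) {S B : Set α}
    (hB : GB H S B) {μ : Cardinal.{u}} (hμ : ℵ₀ ≤ μ) {z : α} (hz : #(nb H z B) ≤ μ) :
    #{y | y ∈ S ∧ H z y ∧ #(nb H y B) ≤ μ} ≤ μ := by
  by_cases hzS : z ∈ S
  · exact hB.deg_le hμ hzS hz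
  · have hBdeg : ∀ b ∈ B, #{y | y ∈ S ∧ H b y ∧ #(nb H y B) ≤ μ} ≤ μ := by
      intro b hb
      exact hB.deg_le hμ (hB.1 hb) ((((hB.2.1 b (hB.1 hb)).1 hb).le).trans hμ)
    have hsucc : ℵ₀ ≤ Order.succ μ := hμ.trans (Order.le_succ μ)
    -- the two sides
    have hm : #{y | y ∈ S ∧ H z y ∧ #(nb H y B) ≤ μ ∧ ∃ b ∈ B, H y b ∧ r b z} ≤ μ := by
      rw [← Order.lt_succ_iff]
      apply Spinal.mk_lt_of_colors c hsucc
      intro j
      rw [Order.lt_succ_iff]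
      apply side1 hP hB hμ (z := z)
      · exact fun y hy => ⟨hy.1.1, hy.1.2.2.1⟩
      · exact fun y hy => hy.1.2.1
      · exact fun x hx y hy => hc x y (hx.2.trans hy.2.symm)
      · exact fun y hy => hy.1.2.2.2
    have hp : #{y | y ∈ S ∧ H z y ∧ #(nb H y B) ≤ μ ∧ ∃ b ∈ B, H y b ∧ r z b} ≤ μ := by
      rw [← Order.lt_succ_iff]
      apply Spinal.mk_lt_of_colors c hsucc
      intro j
      rw [Order.lt_succ_iff]
      apply side1 hP.dual hB hμ (z := z)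
      · exact fun y hy => ⟨hy.1.1, hy.1.2.2.1⟩
      · exact fun y hy => hy.1.2.1
      · exact fun x hx y hy => (hc x y (hx.2.trans hy.2.symm)).symm
      · exact fun y hy => hy.1.2.2.2
    have hN : #(⋃ w ∈ nb H z B, {y | y ∈ S ∧ H w y ∧ #(nb H y B) ≤ μ}) ≤ μ := by
      refine (mk_biUnion_le _ _).trans ?_
      have h3 : (⨆ w : nb H z B, #{y | y ∈ S ∧ H w.1 y ∧ #(nb H y B) ≤ μ}) ≤ μ :=
        ciSup_le' (fun w => hBdeg w.1 w.2.1)
      exact (mul_le_mul' hz h3).trans (mul_eq_self hμ).le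
    have hsub : {y | y ∈ S ∧ H z y ∧ #(nb H y B) ≤ μ} ⊆
        (nb H z B ∪ (⋃ w ∈ nb H z B, {y | y ∈ S ∧ H w y ∧ #(nb H y B) ≤ μ})) ∪
        ({y | y ∈ S ∧ H z y ∧ #(nb H y B) ≤ μ ∧ ∃ b ∈ B, H y b ∧ r b z} ∪
          {y | y ∈ S ∧ H z y ∧ #(nb H y B) ≤ μ ∧ ∃ b ∈ B, H y b ∧ r z b}) := by
      rintro y ⟨hyS, hzy, hyd⟩
      by_cases hyB : y ∈ B
      · exact Or.inl (Or.inl ⟨hyB, hzy⟩)
      · have h1 : ¬ #(nb H y B) < ℵ₀ := fun h => hyB ((hB.2.1 y hyS).2 h)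
        have h2 : (nb H y B).Nonempty := by
          by_contra h3
          rw [not_nonempty_iff_eq_empty] at h3
          rw [h3, mk_eq_zero] at h1
          exact h1 aleph0_pos
        obtain ⟨b, hb, hyb⟩ := h2
        rcases hP.cases z b with h3 | h3 | h3
        · exact Or.inr (Or.inr ⟨hyS, hzy, hyd, b, hb, hyb, h3⟩)
        · exact Or.inr (Or.inl ⟨hyS, hzy, hyd, b, hb, hyb, h3⟩)
        · exact Or.inl (Or.inr (mem_biUnion (x := b) ⟨hb, h3⟩ ⟨hyS, hP.symm hyb, hyd⟩))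
    refine (mk_le_mk_of_subset hsub).trans ((mk_union_le _ _).trans ?_)
    refine (add_le_add ((mk_union_le _ _).trans (add_le_add hz hN))
      ((mk_union_le _ _).trans (add_le_add hm hp))).trans ?_
    rw [add_eq_self hμ, add_eq_self hμ]

theorem side2 (hP : PO r H) {n : ℕ} {c : α → Fin n} (hc : Col r c) {S B : Set α}
    (hB : GB H S B) {κ : Cardinal.{u}} (hκ : ℵ₀ < κ) {z : α} (hz : #(nb H z B) < κ)
    {A : Set α} (hA : ∀ y ∈ A, y ∈ S ∧ H z y ∧ #(nb H y B) < κ) (hne : A.Nonempty)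
    (htail : ∀ a ∈ A, κ ≤ #{w | w ∈ A ∧ r a w}) : False := by
  obtain ⟨y0, hy0⟩ := hne
  have hBdeg : ∀ b ∈ B, #{y | y ∈ S ∧ H b y ∧ #(nb H y B) < κ} < κ := by
    intro b hb
    exact hB.2.2 κ hκ.le b (hB.1 hb) (((hB.2.1 b (hB.1 hb)).1 hb).trans hκ)
  have hy0d := hB.2.2 κ hκ.le y0 (hA y0 hy0).1 (hA y0 hy0).2.2
  set μ := max ℵ₀ (max (#(nb H z B)) (#{y | y ∈ S ∧ H y0 y ∧ #(nb H y B) < κ})) with hμdef
  have hμκ : μ < κ := max_lt hκ (max_lt hz hy0d)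
  have hμ : ℵ₀ ≤ μ := le_max_left _ _
  have hzμ : #(nb H z B) ≤ μ := (le_max_left _ _).trans (le_max_right _ _)
  have hy0μ : #(nb H y0 B) ≤ μ := by
    refine le_trans (mk_le_mk_of_subset ?_) ((le_max_right _ _).trans (le_max_right _ _))
    rintro b ⟨hb, hyb⟩
    exact ⟨hB.1 hb, hyb, ((hB.2.1 b (hB.1 hb)).1 hb).trans hκ⟩
  have hdy : ∀ y ∈ A, r y0 y → #(nb H y B) ≤ μ := by
    intro y hy h0y
    have hsub : nb H y B ⊆ nb H z B ∪ nb H y0 B := by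
      rintro b ⟨hb, hyb⟩
      rcases hP.cases z b with h1 | h1 | h1
      · exfalso
        have h2 := htail y hy
        refine absurd h2 (not_le.2 ((mk_le_mk_of_subset ?_).trans_lt (hBdeg b hb)))
        rintro w ⟨hw, hyw⟩
        refine ⟨(hA w hw).1, ?_, (hA w hw).2.2⟩
        rw [hP.inc]
        refine ⟨fun h3 => ?_, fun h3 => ?_⟩
        · exact hP.not_le (hA w hw).2.1 (hP.trans _ _ _ h1 h3)
        · exact hP.not_le hyb (hP.trans _ _ _ hyw h3)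
      · right
        refine ⟨hb, ?_⟩
        rw [hP.inc]
        refine ⟨fun h3 => ?_, fun h3 => ?_⟩
        · exact hP.not_ge (hA y0 hy0).2.1 (hP.trans _ _ _ h3 h1)
        · exact hP.not_ge hyb (hP.trans _ _ _ h3 h0y)
      · exact Or.inl ⟨hb, h1⟩
    refine (mk_le_mk_of_subset hsub).trans ((mk_union_le _ _).trans ?_)
    exact (add_le_add hzμ hy0μ).trans (add_eq_self hμ).le
  have h1 := hB.ext_le hP hc hμ hzμ
  have h2 : #{w | w ∈ A ∧ r y0 w} ≤ #{y | y ∈ S ∧ H z y ∧ #(nb H y B) ≤ μ} := by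
    apply mk_le_mk_of_subset
    rintro w ⟨hw, h0w⟩
    exact ⟨(hA w hw).1, (hA w hw).2.1, hdy w hw h0w⟩
  exact absurd ((htail y0 hy0).trans (h2.trans h1)) (not_le.2 hμκ)

/-- M4: Lemma R -/
theorem GB.ext (hP : PO r H) {n : ℕ} {c : α → Fin n} (hc : Col r c) {S B : Set α}
    (hB : GB H S B) {κ : Cardinal.{u}} (hκ : ℵ₀ ≤ κ) {z : α} (hz : #(nb H z B) < κ) :
    #{y | y ∈ S ∧ H z y ∧ #(nb H y B) < κ} < κ := by
  by_contra hcon
  rcases hκ.eq_or_lt with h0 | h0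
  · subst h0
    apply hcon
    refine (mk_le_mk_of_subset ?_).trans_lt hz
    rintro y ⟨h1, h2, h3⟩
    exact ⟨(hB.2.1 y h1).2 h3, h2⟩
  · obtain ⟨A', hA', hne, _, h1 | h1⟩ := exists_large_chain (I := cardSml α κ hκ) hc hcon
    · exact side2 hP hc hB h0 hz (fun y hy => hA' hy) hne (fun a ha => not_lt.1 (h1 a ha))
    · exact side2 hP.dual hc.dual hB h0 hz (fun y hy => hA' hy) hne
        (fun a ha => not_lt.1 (h1 a ha))

theorem le_deg_of_ccore (hP : PO r H) {n : ℕ} {c : α → Fin n} (hc : Col r c) {S K B : Set α}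
    {κ : Cardinal.{u}} (hκ : ℵ₀ ≤ κ) (hK : CCore H κ S K) (hB : GB H K B) {z : α} (hz : z ∈ S)
    (hzK : z ∉ K) : κ ≤ #(nb H z B) := by
  by_contra hcon
  rw [not_le] at hcon
  have h1 := hB.ext hP hc hκ hcon
  refine absurd (hK.2.2 z hz hzK) (not_le.2 ((mk_le_mk_of_subset ?_).trans_lt h1))
  rintro y ⟨hy, hzy⟩
  exact ⟨hy, hzy, (mk_le_mk_of_subset (nb_mono hB.1)).trans_lt (hK.2.1 y hy)⟩

/-- M4: Lemma Y' -/
theorem GBU_of_ccore (hP : PO r H) {n : ℕ} {c : α → Fin n} (hc : Col r c) {S K B : Set α}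
    {κ : Cardinal.{u}} (hκ : ℵ₀ ≤ κ) (hK : CCore H κ S K) (hB : GB H K B) : GBU H κ S B := by
  have key := fun z hz hzK => le_deg_of_ccore hP hc hκ hK hB (z := z) hz hzK
  refine ⟨hB.1.trans hK.1, ?_, ?_⟩
  · intro y hy
    by_cases hyK : y ∈ K
    · exact hB.2.1 y hyK
    · refine ⟨fun h => absurd (hB.1 h) hyK, fun h => ?_⟩
      exact absurd (hκ.trans (key y hy hyK)) (not_le.2 h)
  · intro κ' h1 h2 m hm hmd
    have hmK : m ∈ K := by
      by_contra hmK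
      exact absurd (h2.trans (key m hm hmK)) (not_le.2 hmd)
    refine (mk_le_mk_of_subset ?_).trans_lt (hB.2.2 κ' h1 m hmK hmd)
    rintro y ⟨hy, hmy, hyd⟩
    refine ⟨?_, hmy, hyd⟩
    by_contra hyK
    exact absurd (h2.trans (key y hy hyK)) (not_le.2 hyd)

/-- M4: Lemma Y -/
theorem GB_of_ccore (hP : PO r H) {n : ℕ} {c : α → Fin n} (hc : Col r c) {S K B : Set α}
    {κ : Cardinal.{u}} (hκ : ℵ₀ ≤ κ) (hS : #S ≤ κ) (hK : CCore H κ S K) (hB : GB H K B) :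
    GB H S B := by
  have h := GBU_of_ccore hP hc hκ hK hB
  refine ⟨h.1, h.2.1, ?_⟩
  intro κ' h1 m hm hmd
  rcases le_or_gt κ' κ with h2 | h2
  · exact h.2.2 κ' h1 h2 m hm hmd
  · exact ((mk_le_mk_of_subset (fun y hy => hy.1)).trans hS).trans_lt h2

/-- M4: Lemma X -/
theorem GB_of_comps (hP : PO r H) {K : Set α} (h : ∀ x ∈ K, ∃ b, GB H (Comp H K x) b) :
    ∃ b, GB H K b := by
  have h' : ∀ E : Set α, (∃ x ∈ K, E = Comp H K x) → ∃ b, GB H E b := by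
    rintro E ⟨x, hx, rfl⟩
    exact h x hx
  choose! β hβ using h'
  have hβ' : ∀ x ∈ K, GB H (Comp H K x) (β (Comp H K x)) := fun x hx => hβ _ ⟨x, hx, rfl⟩
  have hcomp : ∀ x y, y ∈ Comp H K x → Comp H K y = Comp H K x :=
    fun x y hy => (Spinal.comp_eq hP hy.2).symm
  set B : Set α := {y | y ∈ K ∧ y ∈ β (Comp H K y)} with hBdef
  have hnb : ∀ m ∈ K, nb H m B = nb H m (β (Comp H K m)) := by
    intro m hm
    ext y
    constructor
    · rintro ⟨⟨hyK, hyβ⟩, hmy⟩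
      have h1 : y ∈ Comp H K m := comp_closed (mem_comp_self hm) hyK hmy
      rw [hcomp m y h1] at hyβ
      exact ⟨hyβ, hmy⟩
    · rintro ⟨hyβ, hmy⟩
      have h1 : y ∈ Comp H K m := (hβ' m hm).1 hyβ
      refine ⟨⟨h1.1, ?_⟩, hmy⟩
      rw [hcomp m y h1]; exact hyβ
  refine ⟨B, fun y hy => hy.1, ?_, ?_⟩
  · intro y hy
    rw [hnb y hy, ← (hβ' y hy).2.1 y (mem_comp_self hy)]
    exact ⟨fun h1 => h1.2, fun h1 => ⟨hy, h1⟩⟩
  · intro κ hκ m hm hmd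
    rw [hnb m hm] at hmd
    refine (mk_le_mk_of_subset ?_).trans_lt ((hβ' m hm).2.2 κ hκ m (mem_comp_self hm) hmd)
    rintro y ⟨hy, hmy, hyd⟩
    have h1 : y ∈ Comp H K m := comp_closed (mem_comp_self hm) hy hmy
    rw [hnb y hy, hcomp m y h1] at hyd
    exact ⟨h1, hmy, hyd⟩

end Pool.Agent.Work.MP_288596_co
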