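import Pool.Agent.Work.MP_288596_co.M5b
import Pool.Agent.Work.MP_288596_co.Base2

/-! Module M5: connected sets of size `κ`, where `κ` has countable cofinality. -/

set_option autoImplicit false

namespace Pool.Agent.Work.MP_288596_co

open Cardinal Set

universe u

variable {α : Type u} {r H : α → α → Prop}

/-- a connected set whose size is a cardinal of countable cofinality has a good base -/
theorem GB_cof_omega (hP : PO r H) {n : ℕ} {c : α → Fin n} (hc : Col r c) {κ : Cardinal.{u}}
    (hκ : ℵ₀ < κ) (hcof : κ.ord.cof = ℵ₀) (IH : ∀ S : Set α, #S < κ → ∃ B, GB H S B) {E : Set α}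
    (hE : HConn H E) (hdeg : ∀ m ∈ E, #(nb H m E) < κ) (hcard : #E = κ) : ∃ B, GB H E B := by
  refine M5.glue hP hc hκ hcof hdeg hcard
    (fun x hx y hy => mk_interval_lt hP hE hκ.le hdeg hx hy) ?_
  intro lam hreg hunc hlt
  obtain ⟨K, hK⟩ := exists_ccore hP hc hunc.le E
  obtain ⟨b, hb⟩ := GB_of_comps hP (K := K) (fun x _ =>
    IH _ ((mk_comp_lt hreg hunc hK.2.1 x).trans hlt))
  exact ⟨b, GBU_of_ccore hP hc hunc.le hK hb⟩

end Pool.Agent.Work.MP_288596_co
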