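import Pool.Agent.Work.MP_288596_co.Defs

/-! Dilworth's theorem (infinite version). -/

set_option autoImplicit false

namespace Pool.Agent.Work.MP_288596_co

open Set Filter

universe u

theorem dilworth_finite {α : Type u} [PartialOrder α] (k : ℕ)
    (h : ∀ s : Finset α, IsAntichain (· ≤ ·) (s : Set α) → s.card ≤ k) (s : Finset α) :
    ∃ c : α → Fin k, ∀ x ∈ s, ∀ y ∈ s, c x = c y → x ≤ y ∨ y ≤ x := by
  classical
  rcases isEmpty_or_nonempty α with hα | ⟨⟨a0⟩⟩
  · exact ⟨fun x => (hα.false x).elim, fun x => (hα.false x).elim⟩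
  have hk : 0 < k := by
    have h1 := h {a0} (by simp)
    rw [Finset.card_singleton] at h1
    omega
  -- Hall's theorem
  let t : s → Finset (α ⊕ Fin k) := fun x =>
    ((s.filter (fun y => x.1 < y)).map Function.Embedding.inl) ∪
      (Finset.univ.map Function.Embedding.inr)
  have hall : ∀ A : Finset s, A.card ≤ (A.biUnion t).card := by
    intro A
    rcases A.eq_empty_or_nonempty with rfl | hA
    · simp
    set A' : Finset α := A.map (Function.Embedding.subtype _) with hA'
    set N : Finset α := s.filter (fun y => ∃ x ∈ A', x < y) with hN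
    have h1 : (N.map (Function.Embedding.inl : α ↪ α ⊕ Fin k)) ∪
        (Finset.univ.map (Function.Embedding.inr : Fin k ↪ α ⊕ Fin k)) ⊆ A.biUnion t := by
      intro z hz
      rw [Finset.mem_biUnion]
      rcases Finset.mem_union.1 hz with hz | hz
      · obtain ⟨y, hy, rfl⟩ := Finset.mem_map.1 hz
        obtain ⟨hys, x, hx, hxy⟩ := Finset.mem_filter.1 hy
        obtain ⟨x', hx', rfl⟩ := Finset.mem_map.1 hx
        exact ⟨x', hx', Finset.mem_union_left _ (Finset.mem_map_of_mem _
          (Finset.mem_filter.2 ⟨hys, hxy⟩))⟩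
      · obtain ⟨x', hx'⟩ := hA
        exact ⟨x', hx', Finset.mem_union_right _ hz⟩
    have h2 : ((N.map (Function.Embedding.inl : α ↪ α ⊕ Fin k)) ∪
        (Finset.univ.map (Function.Embedding.inr : Fin k ↪ α ⊕ Fin k))).card = N.card + k := by
      rw [Finset.card_union_of_disjoint]
      · simp
      · rw [Finset.disjoint_left]
        intro z hz hz'
        obtain ⟨y, _, rfl⟩ := Finset.mem_map.1 hz
        obtain ⟨i, _, hi⟩ := Finset.mem_map.1 hz'
        simp at hi
    have h3 : (A' \ N).card ≤ k := by
      apply h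
      intro x hx y hy hxy hle
      rw [Finset.mem_coe, Finset.mem_sdiff] at hx hy
      apply hy.2
      obtain ⟨y', _, hy''⟩ := Finset.mem_map.1 hy.1
      refine Finset.mem_filter.2 ⟨?_, x, hx.1, lt_of_le_of_ne hle hxy⟩
      rw [← hy'']; exact y'.2
    have h4 : A'.card ≤ (A' \ N).card + N.card := by
      have := Finset.card_le_card (show A' ⊆ (A' \ N) ∪ N by
        intro x hx
        by_cases hxN : x ∈ N
        · exact Finset.mem_union_right _ hxN
        · exact Finset.mem_union_left _ (Finset.mem_sdiff.2 ⟨hx, hxN⟩))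
      exact this.trans (Finset.card_union_le _ _)
    have h5 : A.card = A'.card := (Finset.card_map _).symm
    have h6 := Finset.card_le_card h1
    omega
  obtain ⟨f, hfinj, hft⟩ := (Finset.all_card_le_biUnion_card_iff_exists_injective t).1 hall
  let step : s → s → Prop := fun a b => f a = Sum.inl b.1
  have hstep : ∀ a b : s, step a b → a.1 < b.1 := by
    intro a b hab
    have h1 := hft a
    rw [show f a = Sum.inl b.1 from hab] at h1
    rcases Finset.mem_union.1 h1 with h2 | h2
    · obtain ⟨y, hy, hy'⟩ := Finset.mem_map.1 h2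
      have : y = b.1 := by simpa using hy'
      rw [this] at hy
      exact (Finset.mem_filter.1 hy).2
    · obtain ⟨i, _, hi⟩ := Finset.mem_map.1 h2
      simp at hi
  have hpath : ∀ a b : s, Relation.ReflTransGen step a b → a.1 ≤ b.1 := by
    intro a b hab
    induction hab with
    | refl => exact le_rfl
    | tail _ hbc ih => exact ih.trans (hstep _ _ hbc).le
  -- every path ends
  have hend : ∀ x : s, ∃ i : Fin k, ∃ z : s, Relation.ReflTransGen step x z ∧ f z = Sum.inr i := by
    intro x
    have hwf : WellFounded (fun a b : s => b < a) := wellFounded_gt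
    induction x using hwf.induction with
    | _ x ih =>
      rcases hfx : f x with y | i
      · have hys : y ∈ s := by
          have h1 := hft x
          rw [hfx] at h1
          rcases Finset.mem_union.1 h1 with h2 | h2
          · obtain ⟨y', hy, hy'⟩ := Finset.mem_map.1 h2
            have : y' = y := by simpa using hy'
            rw [this] at hy
            exact (Finset.mem_filter.1 hy).1
          · obtain ⟨i, _, hi⟩ := Finset.mem_map.1 h2
            simp at hi
        have hxy : step x ⟨y, hys⟩ := hfx
        obtain ⟨i, z, hz, hzi⟩ := ih ⟨y, hys⟩ (hstep _ _ hxy)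
        exact ⟨i, z, Relation.ReflTransGen.head hxy hz, hzi⟩
      · exact ⟨i, x, Relation.ReflTransGen.refl, hfx⟩
  choose col endp hendp hcol using hend
  -- two paths with the same end are comparable
  have hcomp : ∀ x z : s, Relation.ReflTransGen step x z → ∀ y, Relation.ReflTransGen step y z →
      Relation.ReflTransGen step x y ∨ Relation.ReflTransGen step y x := by
    intro x z hxz
    induction hxz with
    | refl => intro y hy; exact Or.inr hy
    | @tail w z hxw hwz ih =>
      intro y hy
      rcases Relation.ReflTransGen.cases_tail hy with h1 | ⟨w', hyw', hw'z⟩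
      · left; rw [← h1]; exact hxw.tail hwz
      · have : w' = w := hfinj (hw'z.trans hwz.symm)
        rw [this] at hyw'
        exact ih y hyw'
  refine ⟨fun x => if hx : x ∈ s then col ⟨x, hx⟩ else ⟨0, hk⟩, ?_⟩
  intro x hx y hy hxy
  simp only [hx, hy, dif_pos] at hxy
  have h1 : endp ⟨x, hx⟩ = endp ⟨y, hy⟩ := by
    apply hfinj
    rw [hcol, hcol, hxy]
  have h2 := hendp ⟨x, hx⟩
  rw [h1] at h2
  rcases hcomp _ _ h2 _ (hendp ⟨y, hy⟩) with h3 | h3
  · exact Or.inl (hpath _ _ h3)
  · exact Or.inr (hpath _ _ h3)

/-- Infinite Dilworth theorem. -/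
theorem exists_col {α : Type u} [PartialOrder α] (k : ℕ)
    (h : ∀ s : Finset α, IsAntichain (· ≤ ·) (s : Set α) → s.card ≤ k) :
    ∃ c : α → Fin k, Col (· ≤ ·) c := by
  classical
  choose C hC using dilworth_finite k h
  let U : Ultrafilter (Finset α) := Ultrafilter.of atTop
  have hU : (U : Filter (Finset α)) ≤ atTop := Ultrafilter.of_le _
  have h1 : ∀ x, ∃ i, ∀ᶠ s in (U : Filter (Finset α)), C s x = i := by
    intro x
    rw [← Ultrafilter.eventually_exists_iff]
    exact Eventually.of_forall fun s => ⟨_, rfl⟩
  choose c hc using h1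
  refine ⟨c, ?_⟩
  intro x y hxy
  have h2 : ∀ᶠ s : Finset α in (U : Filter (Finset α)), {x, y} ≤ s := hU (eventually_ge_atTop _)
  obtain ⟨s, h3, h4, h5⟩ := ((hc x).and ((hc y).and h2)).exists
  refine hC s x (h5 (by simp)) y (h5 (by simp)) ?_
  rw [h3, h4, hxy]

end Pool.Agent.Work.MP_288596_co
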