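import Pool.Agent.Work.MP_288596_co.Base2
import Pool.Agent.Work.MP_288596_co.CofBig
import Pool.Agent.Work.MP_288596_co.CofOmega
import Pool.Agent.Work.MP_288596_co.Dilworth

/-! Existence of good bases and the final theorem. -/

set_option autoImplicit false

namespace Pool.Agent.Work.MP_288596_co

open Cardinal Set

universe u

variable {α : Type u} {r H : α → α → Prop}

/-- M7 -/
theorem exists_GB (hP : PO r H) {n : ℕ} {c : α → Fin n} (hc : Col r c) (S : Set α) :
    ∃ B, GB H S B := by
  have key : ∀ κ : Cardinal.{u}, ∀ S : Set α, #S = κ → ∃ B, GB H S B := by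
    intro κ
    induction κ using Cardinal.lt_wf.induction with
    | _ κ ih =>
      intro S hS
      rcases le_or_gt κ ℵ₀ with hκ | hκ
      · obtain ⟨K, hK⟩ := exists_ccore (κ := ℵ₀) hP hc le_rfl S
        refine ⟨K, hK.1, ?_, ?_⟩
        · intro y hy
          refine ⟨fun h => hK.2.1 y h, fun h => ?_⟩
          by_contra hyK
          exact absurd (hK.2.2 y hy hyK) (not_le.2 h)
        · intro κ' h1 m hm hmd
          rcases h1.eq_or_lt with h2 | h2
          · subst h2
            refine (mk_le_mk_of_subset ?_).trans_lt hmd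
            rintro y ⟨hy, hmy, hyd⟩
            refine ⟨?_, hmy⟩
            by_contra hyK
            exact absurd (hK.2.2 y hy hyK) (not_le.2 hyd)
          · refine ((mk_le_mk_of_subset (fun y hy => hy.1)).trans ?_).trans_lt h2
            rw [hS]; exact hκ
      · obtain ⟨K, hK⟩ := exists_ccore (κ := κ) hP hc hκ.le S
        have IH : ∀ T : Set α, #T < κ → ∃ B, GB H T B := fun T hT => ih _ hT T rfl
        have hGBK : ∃ b, GB H K b := by
          apply GB_of_comps hP
          intro x hx
          have hdeg : ∀ m ∈ Comp H K x, #(nb H m (Comp H K x)) < κ := by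
            intro m hm
            rw [nb_comp hm]
            exact hK.2.1 m hm.1
          have hcard : #(Comp H K x) ≤ κ := by
            rw [← hS]
            exact mk_le_mk_of_subset ((comp_subset K x).trans hK.1)
          rcases hcard.lt_or_eq with h1 | h1
          · exact IH _ h1
          · rcases isRegular_or_isSingular hκ.le with h2 | h2
            · exact absurd h1 (mk_comp_lt h2 hκ hK.2.1 x).ne
            · have h3 : ℵ₀ ≤ κ.ord.cof :=
                (Cardinal.isRegular_cof (isSuccLimit_ord hκ.le)).aleph0_le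
              rcases h3.eq_or_lt with h4 | h4
              · exact GB_cof_omega hP hc hκ h4.symm IH (comp_conn hP K x) hdeg h1
              · exact CofBig.GB_cof_big hP hc hκ (fun μ hμ => h2.isSuccLimit.succ_lt hμ) h4 IH
                  (comp_conn hP K x) hdeg h1
        obtain ⟨b, hb⟩ := hGBK
        exact ⟨b, GB_of_ccore hP hc hκ.le hS.le hK hb⟩
  exact key _ S rfl

/-- The fishbone theorem for posets of bounded width. -/
theorem fishbone (α : Type u) [PartialOrder α]
    (h : ∃ k : ℕ, ∀ A : Set α, IsAntichain (· ≤ ·) A → A.encard ≤ (k : ℕ∞)) :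
      ∃ C : Set α, IsChain (· ≤ ·) C ∧
        ∃ D : Set (Set α), Setoid.IsPartition D ∧
          (∀ A ∈ D, IsAntichain (· ≤ ·) A) ∧
          (∀ A ∈ D, (A ∩ C).Nonempty) := by
  obtain ⟨k, hk⟩ := h
  obtain ⟨c, hc⟩ := exists_col (α := α) k (fun s hs => by
    have := hk s hs
    rw [Set.encard_coe_eq_coe_finsetCard] at this
    exact_mod_cast this)
  have hP : PO (α := α) (· ≤ ·) (fun x y => ¬ x ≤ y ∧ ¬ y ≤ x) :=
    ⟨fun x => le_rfl, fun x y z => le_trans, fun x y => le_antisymm, fun x y => Iff.rfl⟩
  obtain ⟨B, hB⟩ := exists_GB hP hc (univ : Set α)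
  obtain ⟨f, hf1, hf2, hf3, hf4⟩ := exists_spinal hP hc hB
  refine ⟨range f, ?_, (Setoid.ker f).classes, Setoid.isPartition_classes _, ?_, ?_⟩
  · rintro _ ⟨x, rfl⟩ _ ⟨y, rfl⟩ _
    exact hf3 x trivial y trivial
  · rintro _ ⟨y, rfl⟩ a ha b hb hab hle
    refine hf4 a trivial b trivial hle hab ?_
    exact (show f a = f y from ha).trans (show f b = f y from hb).symm
  · rintro _ ⟨y, rfl⟩
    exact ⟨f y, show f (f y) = f y from hf2 y trivial, y, rfl⟩

end Pool.Agent.Work.MP_288596_co
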