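import Pool.Agent.Work.MP_288596_co.Spinal

/-! Components, Lemma R and the lifting lemmas for good bases. -/

set_option autoImplicit false

namespace Pool.Agent.Work.MP_288596_co

open Cardinal Set

universe u

variable {α : Type u} {r H : α → α → Prop}

theorem comp_subset (K : Set α) (x : α) : Comp H K x ⊆ K := fun _ hy => hy.1

theorem mem_comp_self {K : Set α} {x : α} (hx : x ∈ K) : x ∈ Comp H K x :=
  ⟨hx, Relation.ReflTransGen.refl⟩

/-- components are closed under neighbours -/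
theorem comp_closed {K : Set α} {x y z : α} (hy : y ∈ Comp H K x) (hz : z ∈ K) (hyz : H y z) :
    z ∈ Comp H K x := ⟨hz, Relation.ReflTransGen.tail hy.2 ⟨hy.1, hz, hyz⟩⟩

theorem nb_comp {K : Set α} {x m : α} (hm : m ∈ Comp H K x) :
    nb H m (Comp H K x) = nb H m K := by
  apply Subset.antisymm (nb_mono (comp_subset K x))
  rintro y ⟨hy, hmy⟩
  exact ⟨comp_closed hm hy hmy, hmy⟩

theorem comp_conn (hP : PO r H) (K : Set α) (x : α) : HConn H (Comp H K x) := by
  have h1 : ∀ y, x ∈ K → Reach H K x y → Reach H (Comp H K x) x y := by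
    intro y hx hy
    induction hy with
    | refl => exact Relation.ReflTransGen.refl
    | tail hab hbc ih =>
      exact ih.tail ⟨⟨hbc.1, hab⟩, ⟨hbc.2.1, hab.tail hbc⟩, hbc.2.2⟩
  intro y hy z hz
  have hx : x ∈ K := by
    rcases Relation.ReflTransGen.cases_head hy.2 with h | ⟨w, hw, _⟩
    · rw [h]; exact hy.1
    · exact hw.1
  exact (Spinal.reach_symm hP (h1 y hx hy.2)).trans (h1 z hx hz.2)

theorem mk_comp_le {K : Set α} {μ : Cardinal.{u}} (hμ : ℵ₀ ≤ μ) (h : ∀ m ∈ K, #(nb H m K) ≤ μ)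
    (x : α) : #(Comp H K x) ≤ μ := Spinal.mk_comp_le' hμ h x

theorem mk_comp_lt {K : Set α} {κ : Cardinal.{u}} (hκ : κ.IsRegular) (hκ' : ℵ₀ < κ)
    (h : ∀ m ∈ K, #(nb H m K) < κ) (x : α) : #(Comp H K x) < κ := by
  have h1 : ∀ k, #(Spinal.ball H K x k) < κ := by
    intro k
    induction k with
    | zero =>
      simp only [Spinal.ball, mk_singleton]
      exact one_lt_aleph0.trans hκ'
    | succ k ih =>
      simp only [Spinal.ball]
      rw [card_biUnion_lt_iff_forall_of_isRegular hκ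
        ((mk_le_mk_of_subset inter_subset_left).trans_lt ih)]
      exact fun a ha => h a ha.2
  have h2 : Comp H K x ⊆ ⋃ k : ULift.{u} ℕ, Spinal.ball H K x k.down := by
    rintro y ⟨-, hy⟩
    have : ∃ k, y ∈ Spinal.ball H K x k := by
      unfold Reach at hy
      induction hy with
      | refl => exact ⟨0, rfl⟩
      | tail _ hbc ih =>
        obtain ⟨k, hk⟩ := ih
        exact ⟨k + 1, mem_biUnion (⟨hk, hbc.1⟩ : _ ∈ Spinal.ball H K x k ∩ K) ⟨hbc.2.1, hbc.2.2⟩⟩
    obtain ⟨k, hk⟩ := this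
    exact mem_iUnion.2 ⟨⟨k⟩, hk⟩
  refine (mk_le_mk_of_subset h2).trans_lt ?_
  rw [card_iUnion_lt_iff_forall_of_isRegular hκ (by simpa using hκ')]
  exact fun k => h1 _

theorem mk_interval_lt (hP : PO r H) {E : Set α} (hE : HConn H E) {κ : Cardinal.{u}} (hκ : ℵ₀ ≤ κ)
    (h : ∀ m ∈ E, #(nb H m E) < κ) {x y : α} (hx : x ∈ E) (hy : y ∈ E) :
    #{w | w ∈ E ∧ r x w ∧ r w y} < κ := by
  have key : ∀ y, Reach H E x y → ∃ A : Set α, #A < κ ∧ ∀ w ∈ E, r x w → w ∉ A → y ∈ E ∧ r y w ∨ False := by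
    intro y hxy
    induction hxy with
    | refl => exact ⟨∅, by simpa using (aleph0_pos.trans_le hκ), fun w _ hxw _ => Or.inl ⟨hx, hxw⟩⟩
    | @tail b d hab hbc ih =>
      obtain ⟨A, hA, hA'⟩ := ih
      refine ⟨A ∪ (nb H b E ∪ (nb H d E ∪ {b, d})), ?_, ?_⟩
      · apply (mk_union_le _ _).trans_lt
        apply add_lt_of_lt hκ hA
        apply (mk_union_le _ _).trans_lt
        apply add_lt_of_lt hκ (h b hbc.1)
        apply (mk_union_le _ _).trans_lt
        apply add_lt_of_lt hκ (h d hbc.2.1)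
        exact (lt_aleph0_iff_set_finite.2 (by simp)).trans_le hκ
      · intro w hw hxw hwA
        left
        refine ⟨hbc.2.1, ?_⟩
        simp only [mem_union, not_or, mem_nb, mem_insert_iff, mem_singleton_iff] at hwA
        obtain ⟨h1, h2, h3, h4, h5⟩ := hwA
        rcases hA' w hw hxw h1 with ⟨_, hbw⟩ | h6
        · rcases hP.cases d w with h7 | h7 | h7
          · exact h7
          · exact absurd (hP.trans _ _ _ hbw h7) (hP.not_le hbc.2.2)
          · exact absurd ⟨hw, h7⟩ h3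
        · exact h6.elim
  obtain ⟨A, hA, hA'⟩ := key y (hE x hx y hy)
  refine (mk_le_mk_of_subset (t := A ∪ {y}) ?_).trans_lt ?_
  · rintro w ⟨hw, hxw, hwy⟩
    by_cases hwA : w ∈ A
    · exact Or.inl hwA
    · rcases hA' w hw hxw hwA with ⟨_, h1⟩ | h1
      · exact Or.inr (hP.antisymm _ _ hwy h1)
      · exact h1.elim
  · apply (mk_union_le _ _).trans_lt
    apply add_lt_of_lt hκ hA
    exact (lt_aleph0_iff_set_finite.2 (by simp)).trans_le hκ

end Pool.Agent.Work.MP_288596_co
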