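import Pool.Agent.Work.MP_288596_co.Defs

/-! Cores: Zorn's lemma, tails, large chains. -/

set_option autoImplicit false

namespace Pool.Agent.Work.MP_288596_co

open Set

universe u

/-- A notion of smallness for subsets of `α`. -/
structure Sml (α : Type u) where
  sm : Set α → Prop
  mono : ∀ {A B : Set α}, A ⊆ B → sm B → sm A
  union : ∀ {A B : Set α}, sm A → sm B → sm (A ∪ B)
  fin : ∀ {A : Set α}, A.Finite → sm A

variable {α : Type u} {r H : α → α → Prop} (I : Sml α)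

theorem Sml.empty : I.sm ∅ := I.fin finite_empty

theorem Sml.iUnion {n : ℕ} {A : Fin n → Set α} (h : ∀ j, I.sm (A j)) : I.sm (⋃ j, A j) := by
  have : ∀ s : Finset (Fin n), I.sm (⋃ j ∈ s, A j) := by
    classical
    intro s
    induction s using Finset.induction_on with
    | empty => simpa using I.empty
    | insert a s _ ih =>
      rw [Finset.set_biUnion_insert]
      exact I.union (h a) ih
  simpa using this Finset.univ

theorem Sml.nonempty_of_not {A : Set α} (h : ¬ I.sm A) : A.Nonempty := by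
  by_contra hA
  rw [not_nonempty_iff_eq_empty] at hA
  exact h (hA ▸ I.empty)

/-- `B` is a core of `S`. -/
def Core (I : Sml α) (H : α → α → Prop) (S B : Set α) : Prop :=
  B ⊆ S ∧ (∀ m ∈ B, I.sm (nb H m B)) ∧
    ∀ z ∈ S, z ∉ B → (nb H z B).Nonempty → ¬ I.sm (nb H z B)

/-- `B` is a complete core of `S`. -/
def CC (I : Sml α) (H : α → α → Prop) (S B : Set α) : Prop :=
  B ⊆ S ∧ (∀ m ∈ B, I.sm (nb H m B)) ∧ ∀ z ∈ S, z ∉ B → ¬ I.sm (nb H z B)

variable {I}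

theorem CC.nonempty {S B : Set α} (h : CC I H S B) (hS : S.Nonempty) : B.Nonempty := by
  by_contra hB
  rw [not_nonempty_iff_eq_empty] at hB
  subst hB
  obtain ⟨z, hz⟩ := hS
  refine h.2.2 z hz (by simp) ?_
  have : nb H z (∅ : Set α) = ∅ := by ext; simp
  rw [this]; exact I.empty

theorem CC.not_sm {S B : Set α} (h : CC I H S B) (hS : ¬ I.sm S) : ¬ I.sm B := by
  intro hB
  have h1 : ¬ (S ⊆ B) := fun h1 => hS (I.mono h1 hB)
  rw [not_subset] at h1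
  obtain ⟨z, hz, hzB⟩ := h1
  exact h.2.2 z hz hzB (I.mono nb_subset hB)

/-- Zorn: if every nonempty subset has a nonempty core, there is a complete core. -/
theorem exists_CC_of_cores (hsymm : ∀ x y, H x y → H y x) {S : Set α}
    (h : ∀ Q ⊆ S, Q.Nonempty → ∃ B, B.Nonempty ∧ Core I H Q B) : ∃ B, CC I H S B := by
  obtain ⟨B, hB⟩ := zorn_subset {B | Core I H S B} (by
    intro C hC hchain
    refine ⟨⋃₀ C, ?_, fun s hs => subset_sUnion_of_mem hs⟩
    have key : ∀ B0 ∈ C, ∀ m ∈ B0, nb H m (⋃₀ C) = nb H m B0 := by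
      intro B0 hB0 m hm
      apply Subset.antisymm _ (nb_mono (subset_sUnion_of_mem hB0))
      rintro b ⟨⟨B1, hB1, hb1⟩, hmb⟩
      refine ⟨?_, hmb⟩
      by_contra hb0
      have hsub : B0 ⊆ B1 := by
        rcases hchain.total hB0 hB1 with h1 | h1
        · exact h1
        · exact absurd (h1 hb1) hb0
      have h2 := (hC hB0).2.2 b ((hC hB1).1 hb1) hb0 ⟨m, hm, hsymm _ _ hmb⟩
      exact h2 (I.mono (nb_mono hsub) ((hC hB1).2.1 b hb1))
    refine ⟨sUnion_subset fun B0 hB0 => (hC hB0).1, ?_, ?_⟩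
    · rintro m ⟨B0, hB0, hm⟩
      rw [key B0 hB0 m hm]
      exact (hC hB0).2.1 m hm
    · rintro z hz hzC ⟨b, ⟨B0, hB0, hb⟩, hzb⟩ hsm
      exact (hC hB0).2.2 z hz (fun hz0 => hzC ⟨B0, hB0, hz0⟩) ⟨b, hb, hzb⟩
        (I.mono (nb_mono (subset_sUnion_of_mem hB0)) hsm))
  have hBc : Core I H S B := hB.1
  refine ⟨B, hBc.1, hBc.2.1, ?_⟩
  intro z hz hzB hsm
  have hemp : ¬ (nb H z B).Nonempty := fun hne => hBc.2.2 z hz hzB hne hsm
  obtain ⟨B', hB'ne, hB'⟩ := h {w | w ∈ S ∧ w ∉ B ∧ ∀ b ∈ B, ¬ H w b} (fun w hw => hw.1)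
    ⟨z, hz, hzB, fun b hb hzb => hemp ⟨b, hb, hzb⟩⟩
  have hno : ∀ b ∈ B, ∀ b' ∈ B', ¬ H b' b := fun b hb b' hb' => (hB'.1 hb').2.2 b hb
  have hcore : Core I H S (B ∪ B') := by
    refine ⟨union_subset hBc.1 (fun w hw => (hB'.1 hw).1), ?_, ?_⟩
    · rintro m (hm | hm)
      · refine I.mono ?_ (hBc.2.1 m hm)
        rintro y ⟨hy | hy, hmy⟩
        · exact ⟨hy, hmy⟩
        · exact absurd (hsymm _ _ hmy) (hno m hm y hy)
      · refine I.mono ?_ (hB'.2.1 m hm)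
        rintro y ⟨hy | hy, hmy⟩
        · exact absurd hmy (hno y hy m hm)
        · exact ⟨hy, hmy⟩
    · intro w hw hwn hne hsmw
      have hwB : w ∉ B := fun h1 => hwn (Or.inl h1)
      have hwB' : w ∉ B' := fun h1 => hwn (Or.inr h1)
      by_cases h1 : (nb H w B).Nonempty
      · exact hBc.2.2 w hw hwB h1 (I.mono (nb_mono subset_union_left) hsmw)
      · obtain ⟨y, hy | hy, hwy⟩ := hne
        · exact h1 ⟨y, hy, hwy⟩
        · exact hB'.2.2 w ⟨hw, hwB, fun b hb hwb => h1 ⟨b, hb, hwb⟩⟩ hwB' ⟨y, hy, hwy⟩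
            (I.mono (nb_mono subset_union_right) hsmw)
  have hle : B ⊆ B ∪ B' := subset_union_left
  have := hB.2 hcore hle
  obtain ⟨b', hb'⟩ := hB'ne
  exact (hB'.1 hb').2.1 (this (Or.inr hb'))

/-- Tails of complete cores are large. -/
theorem CC.tail (hP : PO r H) {Q B : Set α} (h : CC I H Q B) {b : α} (hb : b ∈ B)
    (hQ : ¬ I.sm {w | w ∈ Q ∧ r b w}) : ¬ I.sm {w | w ∈ B ∧ r b w} := by
  intro hsm
  have h1 : ¬ ({w | w ∈ Q ∧ r b w} ⊆ {w | w ∈ B ∧ r b w}) := fun h1 => hQ (I.mono h1 hsm)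
  rw [not_subset] at h1
  obtain ⟨x, ⟨hxQ, hbx⟩, hxn⟩ := h1
  have hxB : x ∉ B := fun h2 => hxn ⟨h2, hbx⟩
  refine h.2.2 x hxQ hxB (I.mono ?_ (I.union (h.2.1 b hb) hsm))
  rintro b' ⟨hb', hxb'⟩
  rcases hP.cases b b' with h2 | h2 | h2
  · exact Or.inr ⟨hb', h2⟩
  · exact absurd (hP.trans _ _ _ h2 hbx) (hP.not_ge hxb')
  · exact Or.inl ⟨hb', h2⟩

/-- A large set contains a large chain all of whose upper (or lower) tails are large. -/
theorem exists_large_chain {n : ℕ} {c : α → Fin n} (hc : Col r c) {A : Set α} (hA : ¬ I.sm A) :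
    ∃ A' ⊆ A, A'.Nonempty ∧ (∀ x ∈ A', ∀ y ∈ A', r x y ∨ r y x) ∧
      ((∀ a ∈ A', ¬ I.sm {w | w ∈ A' ∧ r a w}) ∨ ∀ a ∈ A', ¬ I.sm {w | w ∈ A' ∧ r w a}) := by
  obtain ⟨j, hj⟩ : ∃ j, ¬ I.sm (A ∩ c ⁻¹' {j}) := by
    by_contra hcon
    push Not at hcon
    apply hA
    have := I.iUnion hcon
    refine I.mono ?_ this
    intro x hx
    exact mem_iUnion.2 ⟨c x, hx, rfl⟩
  set Y := A ∩ c ⁻¹' {j} with hY
  have hYc : ∀ x ∈ Y, ∀ y ∈ Y, r x y ∨ r y x := by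
    rintro x ⟨_, hx⟩ y ⟨_, hy⟩
    exact hc x y (by rw [mem_preimage, mem_singleton_iff] at hx hy; rw [hx, hy])
  by_cases h1 : I.sm {y | y ∈ Y ∧ I.sm {w | w ∈ Y ∧ r w y}}
  · refine ⟨{y | y ∈ Y ∧ ¬ I.sm {w | w ∈ Y ∧ r w y}}, fun y hy => hy.1.1, ?_,
      fun x hx y hy => hYc x hx.1 y hy.1, Or.inr ?_⟩
    · apply I.nonempty_of_not
      intro h2
      apply hj
      refine I.mono ?_ (I.union h1 h2)
      intro y hy
      by_cases h3 : I.sm {w | w ∈ Y ∧ r w y}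
      · exact Or.inl ⟨hy, h3⟩
      · exact Or.inr ⟨hy, h3⟩
    · intro a ha h2
      apply ha.2
      refine I.mono ?_ (I.union h1 h2)
      intro y hy
      by_cases h3 : I.sm {w | w ∈ Y ∧ r w y}
      · exact Or.inl ⟨hy.1, h3⟩
      · exact Or.inr ⟨⟨hy.1, h3⟩, hy.2⟩
  · refine ⟨{y | y ∈ Y ∧ I.sm {w | w ∈ Y ∧ r w y}}, fun y hy => hy.1.1, I.nonempty_of_not h1,
      fun x hx y hy => hYc x hx.1 y hy.1, Or.inl ?_⟩
    intro a ha h2
    apply h1
    refine I.mono ?_ (I.union ha.2 h2)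
    intro y hy
    rcases hYc a ha.1 y hy.1 with h3 | h3
    · exact Or.inr ⟨hy, h3⟩
    · exact Or.inl ⟨hy.1, h3⟩

end Pool.Agent.Work.MP_288596_co
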