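import Pool.Agent.Work.MP_288596_co.Core1

/-! Ideals and filters with large tails. -/

set_option autoImplicit false

namespace Pool.Agent.Work.MP_288596_co

open Set

universe u

variable {α : Type u} {r H : α → α → Prop} {I : Sml α}

/-- `t` is an ideal of `S` with large tails.  Filters are ideals for the flipped order. -/
def IsId (I : Sml α) (r : α → α → Prop) (S t : Set α) : Prop :=
  t ⊆ S ∧ t.Nonempty ∧ (∀ x ∈ S, ∀ y ∈ t, r x y → x ∈ t) ∧
    (∀ x ∈ t, ∀ y ∈ t, ∃ z ∈ t, r x z ∧ r y z) ∧ ∀ y ∈ t, ¬ I.sm {w | w ∈ t ∧ r y w}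

/-- Down closure in `S`. -/
def dn (r : α → α → Prop) (S A : Set α) : Set α := {w | w ∈ S ∧ ∃ a ∈ A, r w a}

theorem subset_dn (hP : PO r H) {S A : Set α} (hA : A ⊆ S) : A ⊆ dn r S A :=
  fun a ha => ⟨hA ha, a, ha, hP.refl a⟩

theorem isId_dn (hP : PO r H) {S A : Set α} (hA : A ⊆ S) (hne : A.Nonempty)
    (hdir : ∀ x ∈ A, ∀ y ∈ A, ∃ z ∈ A, r x z ∧ r y z) (htail : ∀ a ∈ A, ¬ I.sm {w | w ∈ A ∧ r a w}) :
    IsId I r S (dn r S A) := by
  refine ⟨fun x hx => hx.1, hne.mono (subset_dn hP hA), ?_, ?_, ?_⟩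
  · rintro x hx y ⟨_, a, ha, hya⟩ hxy
    exact ⟨hx, a, ha, hP.trans _ _ _ hxy hya⟩
  · rintro x ⟨_, a, ha, hxa⟩ y ⟨_, b, hb, hyb⟩
    obtain ⟨z, hz, haz, hbz⟩ := hdir a ha b hb
    exact ⟨z, subset_dn hP hA hz, hP.trans _ _ _ hxa haz, hP.trans _ _ _ hyb hbz⟩
  · rintro y ⟨_, a, ha, hya⟩ hsm
    apply htail a ha
    refine I.mono ?_ hsm
    rintro w ⟨hw, haw⟩
    exact ⟨subset_dn hP hA hw, hP.trans _ _ _ hya haw⟩

theorem isId_dn_chain (hP : PO r H) {S A : Set α} (hA : A ⊆ S) (hne : A.Nonempty)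
    (hch : ∀ x ∈ A, ∀ y ∈ A, r x y ∨ r y x) (htail : ∀ a ∈ A, ¬ I.sm {w | w ∈ A ∧ r a w}) :
    IsId I r S (dn r S A) := by
  refine isId_dn hP hA hne ?_ htail
  intro x hx y hy
  rcases hch x hx y hy with h | h
  · exact ⟨y, hy, h, hP.refl y⟩
  · exact ⟨x, hx, hP.refl x, h⟩

/-- A large subset of `S` generates an ideal or a filter. -/
theorem exists_id_or_fi (hP : PO r H) {n : ℕ} {c : α → Fin n} (hc : Col r c) {S A : Set α}
    (hAS : A ⊆ S) (hA : ¬ I.sm A) :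
    ∃ A' ⊆ A, A'.Nonempty ∧
      (IsId I r S (dn r S A') ∨ IsId I (fun x y => r y x) S (dn (fun x y => r y x) S A')) := by
  obtain ⟨A', hA', hne, hch, h | h⟩ := exists_large_chain hc hA
  · exact ⟨A', hA', hne, Or.inl (isId_dn_chain hP (hA'.trans hAS) hne hch h)⟩
  · exact ⟨A', hA', hne, Or.inr (isId_dn_chain hP.dual (hA'.trans hAS) hne
      (fun x hx y hy => (hch x hx y hy).symm) h)⟩

theorem IsId.not_max (hP : PO r H) {S t : Set α} (ht : IsId I r S t) {x : α} (hx : x ∈ t)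
    (h : ∀ y ∈ t, r y x) : False := by
  apply ht.2.2.2.2 x hx
  apply I.fin
  apply (finite_singleton x).subset
  rintro w ⟨hw, hxw⟩
  exact hP.antisymm _ _ (h w hw) hxw

theorem half (hP : PO r H) {S u t B : Set α} (hup : ∀ x ∈ S, ∀ y ∈ u, r y x → x ∈ u)
    (ht : IsId I r S t) (hB : CC I H (u ∩ t) B) {z b : α} (hz : z ∈ S) (hzt : z ∉ t) (hb : b ∈ B)
    (hzb : H z b) : ¬ I.sm (nb H z B) := by
  intro hsm
  have hbu : b ∈ u ∩ t := hB.1 hb
  have h1 : ¬ I.sm {w | w ∈ u ∩ t ∧ r b w} := by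
    intro h1
    apply ht.2.2.2.2 b hbu.2
    refine I.mono ?_ h1
    rintro w ⟨hw, hbw⟩
    exact ⟨⟨hup w (ht.1 hw) b hbu.1 hbw, hw⟩, hbw⟩
  apply hB.tail hP hb h1
  refine I.mono ?_ hsm
  rintro w ⟨hw, hbw⟩
  refine ⟨hw, ?_⟩
  rcases hP.cases z w with h2 | h2 | h2
  · exact absurd (ht.2.2.1 z hz w (hB.1 hw).2 h2) hzt
  · exact absurd (hP.trans _ _ _ hbw h2) (hP.not_ge hzb)
  · exact h2

/-- Lemma G: a complete core of `u ∩ t` is a core of `S`. -/
theorem core_of_inter (hP : PO r H) {S u t B : Set α}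
    (hu : u = S ∨ IsId I (fun x y => r y x) S u) (ht : t = S ∨ IsId I r S t)
    (hB : CC I H (u ∩ t) B) : Core I H S B := by
  have huS : u ⊆ S := by rcases hu with h | h; exacts [h.le, h.1]
  have htS : t ⊆ S := by rcases ht with h | h; exacts [h.le, h.1]
  have hup : ∀ x ∈ S, ∀ y ∈ u, r y x → x ∈ u := by
    rcases hu with h | h
    · intro x hx _ _ _; rw [h]; exact hx
    · intro x hx y hy hyx; exact h.2.2.1 x hx y hy hyx
  have htd : ∀ x ∈ S, ∀ y ∈ t, r x y → x ∈ t := by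
    rcases ht with h | h
    · intro x hx _ _ _; rw [h]; exact hx
    · intro x hx y hy hyx; exact h.2.2.1 x hx y hy hyx
  refine ⟨fun x hx => huS (hB.1 hx).1, hB.2.1, ?_⟩
  rintro z hz hzB ⟨b, hb, hzb⟩
  by_cases hzt : z ∈ t
  · by_cases hzu : z ∈ u
    · exact hB.2.2 z ⟨hzu, hzt⟩ hzB
    · rcases hu with h | h
      · exact absurd (h ▸ hz) hzu
      · have hB' : CC I H (t ∩ u) B := by rw [inter_comm]; exact hB
        exact half hP.dual (fun x hx y hy hxy => htd x hx y hy hxy) h hB' hz hzu hb hzb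
  · rcases ht with h | h
    · exact absurd (h ▸ hz) hzt
    · exact half hP hup h hB hz hzt hb hzb

/-- Unbounded ideals inside an ideal form a finite set. -/
theorem finite_unbounded (hP : PO r H) {n : ℕ} {c : α → Fin n} (hc : Col r c) {S t : Set α}
    (ht : IsId I r S t) :
    {τ | IsId I r S τ ∧ τ ⊆ t ∧ ¬ ∃ x ∈ t, ∀ y ∈ τ, r y x}.Finite := by
  classical
  -- a colour which is cofinal in `τ`
  have key : ∀ τ, IsId I r S τ → ∃ j : Fin n, ∀ x ∈ τ, ∃ y ∈ τ, c y = j ∧ r x y := by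
    intro τ hτ
    by_contra hcon
    push Not at hcon
    choose g hg hg' using hcon
    -- an upper bound of finitely many elements
    have hub : ∀ s : Finset (Fin n), ∃ z ∈ τ, ∀ j ∈ s, r (g j) z := by
      intro s
      induction s using Finset.induction_on with
      | empty => obtain ⟨z, hz⟩ := hτ.2.1; exact ⟨z, hz, by simp⟩
      | insert a s _ ih =>
        obtain ⟨z, hz, h⟩ := ih
        obtain ⟨w, hw, h1, h2⟩ := hτ.2.2.2.1 z hz (g a) (hg a)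
        refine ⟨w, hw, ?_⟩
        intro j hj
        rcases Finset.mem_insert.1 hj with h3 | h3
        · rw [h3]; exact h2
        · exact hP.trans _ _ _ (h j h3) h1
    obtain ⟨z, hz, h⟩ := hub Finset.univ
    exact hg' (c z) z hz rfl (h (c z) (Finset.mem_univ _))
  obtain ⟨x0, _⟩ := ht.2.1
  have : Nonempty (Fin n) := ⟨c x0⟩
  choose! j hj using key
  refine Set.Finite.of_injOn (f := j) (t := univ) (fun _ _ => mem_univ _) ?_ finite_univ
  -- injectivity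
  have hmain : ∀ τ τ', IsId I r S τ → τ ⊆ t → (¬ ∃ x ∈ t, ∀ y ∈ τ, r y x) →
      IsId I r S τ' → τ' ⊆ t → j τ = j τ' → τ' ⊆ τ := by
    intro τ τ' hτ _ hunb hτ' hτ't hjj x hx
    obtain ⟨y, hy, hyj, hxy⟩ := hj τ' hτ' x hx
    by_contra hxn
    have hyn : y ∉ τ := fun h => hxn (hτ.2.2.1 x (hτ'.1 hx) y h hxy)
    apply hunb
    refine ⟨y, hτ't hy, ?_⟩
    intro w hw
    obtain ⟨v, hv, hvj, hwv⟩ := hj τ hτ w hw
    rcases hc v y (by rw [hvj, hyj, hjj]) with h | h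
    · exact hP.trans _ _ _ hwv h
    · exact absurd (hτ.2.2.1 y (hτ'.1 hy) v hv h) hyn
  intro τ hτ τ' hτ' hjj
  exact Subset.antisymm (hmain τ' τ hτ'.1 hτ'.2.1 hτ'.2.2 hτ.1 hτ.2.1 hjj.symm)
    (hmain τ τ' hτ.1 hτ.2.1 hτ.2.2 hτ'.1 hτ'.2.1 hjj)

/-- The filter generated by a descending sequence of ideals. -/
theorem isFi_limit (hP : PO r H) {S : Set α} {z : ℕ → Set α} {x : ℕ → α}
    (hz : ∀ i, IsId I r S (z i)) (hx : ∀ i, x i ∈ z i) (hb : ∀ i, ∀ y ∈ z (i + 1), r y (x i)) :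
    IsId I (fun a b => r b a) S {w | w ∈ S ∧ ∃ i, r (x i) w} := by
  have hanti : ∀ i j, i ≤ j → r (x j) (x i) := by
    intro i j hij
    induction j, hij using Nat.le_induction with
    | base => exact hP.refl _
    | succ k _ ih => exact hP.trans _ _ _ (hb k _ (hx (k + 1))) ih
  have hxS : ∀ i, x i ∈ S := fun i => (hz i).1 (hx i)
  refine ⟨fun w hw => hw.1, ⟨x 0, hxS 0, 0, hP.refl _⟩, ?_, ?_, ?_⟩
  · rintro a ha b ⟨_, i, hi⟩ hba
    exact ⟨ha, i, hP.trans _ _ _ hi hba⟩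
  · rintro a ⟨_, i, hi⟩ b ⟨_, j, hj⟩
    refine ⟨x (max i j), ⟨hxS _, _, hP.refl _⟩, ?_, ?_⟩
    · exact hP.trans _ _ _ (hanti _ _ (le_max_left i j)) hi
    · exact hP.trans _ _ _ (hanti _ _ (le_max_right i j)) hj
  · rintro a ⟨_, i, hi⟩ hsm
    apply (hz (i + 1)).2.2.2.2 (x (i + 1)) (hx (i + 1))
    refine I.mono ?_ hsm
    rintro w ⟨hw, hxw⟩
    exact ⟨⟨(hz (i + 1)).1 hw, i + 1, hxw⟩, hP.trans _ _ _ (hb i w hw) hi⟩

/-- Either there is a minimal ideal with property `P`, or an infinite descending sequence. -/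
theorem exists_min_or_desc {S : Set α} {P : Set α → Prop} {t0 : Set α} (h0 : IsId I r S t0)
    (hP0 : P t0) :
    (∃ t, IsId I r S t ∧ P t ∧ ∀ t', IsId I r S t' → P t' → ¬ ∃ x ∈ t, ∀ y ∈ t', r y x) ∨
      ∃ (z : ℕ → Set α) (x : ℕ → α), z 0 = t0 ∧ ∀ i, IsId I r S (z i) ∧ P (z i) ∧ x i ∈ z i ∧
        ∀ y ∈ z (i + 1), r y (x i) := by
  by_cases h : ∃ t, IsId I r S t ∧ P t ∧ ∀ t', IsId I r S t' → P t' → ¬ ∃ x ∈ t, ∀ y ∈ t', r y x
  · exact Or.inl h
  · right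
    push Not at h
    have : Nonempty α := ⟨h0.2.1.some⟩
    choose! nx hnx1 hnx2 w hw hwb using h
    let z : ℕ → Set α := fun i => Nat.rec t0 (fun _ t => nx t) i
    have hz : ∀ i, IsId I r S (z i) ∧ P (z i) := by
      intro i
      induction i with
      | zero => exact ⟨h0, hP0⟩
      | succ i ih => exact ⟨hnx1 _ ih.1 ih.2, hnx2 _ ih.1 ih.2⟩
    exact ⟨z, fun i => w (z i), rfl, fun i => ⟨(hz i).1, (hz i).2, hw _ (hz i).1 (hz i).2,
      hwb _ (hz i).1 (hz i).2⟩⟩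

/-- A minimal element of a finite nonempty family of sets. -/
theorem exists_subset_min {F : Set (Set α)} (hF : F.Finite) (hne : F.Nonempty) :
    ∃ t ∈ F, ∀ t' ∈ F, t' ⊆ t → t' = t := by
  obtain ⟨t, ht⟩ := hF.exists_minimal hne
  exact ⟨t, ht.1, fun t' ht' h => Subset.antisymm h (ht.2 ht' h)⟩

end Pool.Agent.Work.MP_288596_co
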