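import Pool.Agent.Work.MP_288596_co.Core2

/-! The core lemma. -/

set_option autoImplicit false

namespace Pool.Agent.Work.MP_288596_co

open Set Filter

universe u

variable {α : Type u} {r H : α → α → Prop} {I : Sml α}

/-- A hypothetical connected counterexample. -/
structure Bad (I : Sml α) (r H : α → α → Prop) (S : Set α) {n : ℕ} (c : α → Fin n) : Prop where
  po : PO r H
  col : Col r c
  ne : S.Nonempty
  ih : ∀ x ∈ S, ∀ Q ⊆ S, (∀ y ∈ Q, H x y) → ∃ B, CC I H Q B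
  conn : ∀ T ⊆ S, T.Nonempty → T ≠ S → ∃ x ∈ S, x ∉ T ∧ ∃ y ∈ T, H x y
  nocore : ∀ B : Set α, B.Nonempty → ¬ Core I H S B

variable {S : Set α} {n : ℕ} {c : α → Fin n}

theorem Bad.dual (h : Bad I r H S c) : Bad I (fun x y => r y x) H S c :=
  ⟨h.po.dual, h.col.dual, h.ne, h.ih, h.conn, h.nocore⟩

theorem Bad.step2 (h : Bad I r H S c) {u t : Set α}
    (hu : u = S ∨ IsId I (fun x y => r y x) S u) (ht : t = S ∨ IsId I r S t)
    (hne : (u ∩ t).Nonempty) {x : α} (hx : x ∈ S) (hall : ∀ y ∈ u ∩ t, H x y) : False := by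
  have htS : t ⊆ S := by rcases ht with h | h; exacts [h.le, h.1]
  obtain ⟨B, hB⟩ := h.ih x hx (u ∩ t) (fun y hy => htS hy.2) hall
  exact h.nocore B (hB.nonempty hne) (core_of_inter h.po hu ht hB)

theorem Bad.exists_sep (h : Bad I r H S c) {t : Set α} (ht : IsId I r S t) (hts : t ≠ S) :
    ∃ y ∈ t, ∀ u, IsId I (fun x y => r y x) S u → (∀ w ∈ u, r y w) → ¬ (u ∩ t).Nonempty := by
  obtain ⟨x, hx, hxt, y, hy, hxy⟩ := h.conn t ht.1 ht.2.1 hts
  refine ⟨y, hy, ?_⟩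
  intro u hu hyu hne
  refine h.step2 (Or.inr hu) (Or.inr ht) hne hx ?_
  rintro w ⟨hwu, hwt⟩
  rcases h.po.cases x w with h1 | h1 | h1
  · exact absurd (ht.2.2.1 x hx w hwt h1) hxt
  · exact absurd (h.po.trans _ _ _ (hyu w hwu) h1) (h.po.not_ge hxy)
  · exact h1

/-- The limit of an ascending sequence of filters is improper. -/
theorem Bad.limit_eq (h : Bad I r H S c) {u : ℕ → Set α} {x : ℕ → α}
    (hu : ∀ i, IsId I (fun x y => r y x) S (u i)) (hx : ∀ i, x i ∈ u i)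
    (hb : ∀ i, ∀ w ∈ u (i + 1), r (x i) w) : {w | w ∈ S ∧ ∃ i, r w (x i)} = S := by
  have hT : IsId I r S {w | w ∈ S ∧ ∃ i, r w (x i)} := isFi_limit h.po.dual hu hx hb
  by_contra hne
  obtain ⟨y, ⟨_, i, hyi⟩, hyR⟩ := h.exists_sep hT hne
  refine hyR (u (i + 1)) (hu _) (fun w hw => h.po.trans _ _ _ hyi (hb i w hw)) ⟨x (i + 1), hx _, ?_⟩
  exact ⟨(hu _).1 (hx _), i + 1, h.po.refl _⟩

theorem Bad.exists_min_meeting (h : Bad I r H S c) {u t : Set α}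
    (hu : IsId I (fun x y => r y x) S u) (huS : u ≠ S) (ht : IsId I r S t)
    (hne : (u ∩ t).Nonempty) :
    ∃ t0, IsId I r S t0 ∧ t0 ⊆ t ∧ (u ∩ t0).Nonempty ∧
      ∀ t', IsId I r S t' → (u ∩ t').Nonempty → ¬ ∃ x ∈ t0, ∀ y ∈ t', r y x := by
  rcases exists_min_or_desc (P := fun t' => t' ⊆ t ∧ (u ∩ t').Nonempty) ht ⟨Subset.rfl, hne⟩ with
    ⟨t0, ht0, ⟨ht0t, ht0u⟩, hmin⟩ | ⟨z, x, _, hzx⟩
  · refine ⟨t0, ht0, ht0t, ht0u, ?_⟩
    rintro t' ht' ht'u ⟨x, hx, hxb⟩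
    refine hmin t' ht' ⟨fun y hy => ht0t ?_, ht'u⟩ ⟨x, hx, hxb⟩
    exact ht0.2.2.1 y (ht'.1 hy) x hx (hxb y hy)
  · exfalso
    have h1 : {w | w ∈ S ∧ ∃ i, r (x i) w} = S :=
      h.dual.limit_eq (fun i => (hzx i).1) (fun i => (hzx i).2.2.1) (fun i => (hzx i).2.2.2)
    apply huS
    apply Subset.antisymm hu.1
    intro w hw
    rw [← h1] at hw
    obtain ⟨hwS, i, hi⟩ := hw
    obtain ⟨v, hvu, hvz⟩ := (hzx (i + 1)).2.1.2
    have hxu : x i ∈ u := hu.2.2.1 (x i) ((hzx i).1.1 (hzx i).2.2.1) v hvu ((hzx i).2.2.2 v hvz)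
    exact hu.2.2.1 w hwS (x i) hxu hi

/-- Proper ideals and proper filters are disjoint. -/
theorem Bad.disjoint (h : Bad I r H S c) {u t : Set α}
    (hu : IsId I (fun x y => r y x) S u) (huS : u ≠ S) (ht : IsId I r S t) (htS : t ≠ S) :
    ¬ (u ∩ t).Nonempty := by
  intro hne
  have hP := h.po
  obtain ⟨t0, ht0, ht0t, ht0u, hmin0⟩ := h.exists_min_meeting hu huS ht hne
  have ht0S : t0 ≠ S := by
    intro h1; apply htS; apply Subset.antisymm ht.1; rw [← h1]; exact ht0t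
  have hne0 : (t0 ∩ u).Nonempty := by rw [inter_comm]; exact ht0u
  obtain ⟨u1, hu1, hu1u, hu1t, hmin1⟩ := h.dual.exists_min_meeting (u := t0) (t := u) ht0 ht0S hu hne0
  -- minimal ideal inside `t0` meeting `u1`
  obtain ⟨t1, ⟨ht1, ht1t0, ht1u⟩, hmt1⟩ := exists_subset_min
    (F := {τ | IsId I r S τ ∧ τ ⊆ t0 ∧ (u1 ∩ τ).Nonempty})
    ((finite_unbounded hP h.col ht0).subset (by
      rintro τ ⟨h1, h2, h3⟩
      exact ⟨h1, h2, hmin0 τ h1 (h3.mono (inter_subset_inter_left _ hu1u))⟩))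
    ⟨t0, ht0, Subset.rfl, by rw [inter_comm]; exact hu1t⟩
  obtain ⟨u2, ⟨hu2, hu2u1, hu2t⟩, hmu2⟩ := exists_subset_min
    (F := {υ | IsId I (fun x y => r y x) S υ ∧ υ ⊆ u1 ∧ (t1 ∩ υ).Nonempty})
    ((finite_unbounded hP.dual h.col.dual hu1).subset (by
      rintro τ ⟨h1, h2, h3⟩
      exact ⟨h1, h2, hmin1 τ h1 (h3.mono (inter_subset_inter_left _ ht1t0))⟩))
    ⟨u1, hu1, Subset.rfl, by rw [inter_comm]; exact ht1u⟩
  have hBne : (u2 ∩ t1).Nonempty := by rw [inter_comm]; exact hu2t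
  have hBS : u2 ∩ t1 ⊆ S := fun x hx => ht1.1 hx.2
  have hdeg : ∀ m ∈ u2 ∩ t1, I.sm (nb H m (u2 ∩ t1)) := by
    intro m hm
    by_contra hlarge
    obtain ⟨A', hA', hA'ne, hid | hfi⟩ :=
      exists_id_or_fi hP h.col (S := S) (nb_subset.trans hBS) hlarge
    · have h1 : dn r S A' = t1 := by
        apply hmt1 _ ⟨hid, ?_, ?_⟩
        · rintro w ⟨hw, a, ha, hwa⟩
          exact ht1.2.2.1 w hw a (hA' ha).1.2 hwa
        · rintro w ⟨hw, a, ha, hwa⟩
          exact ht1t0 (ht1.2.2.1 w hw a (hA' ha).1.2 hwa)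
        · obtain ⟨a, ha⟩ := hA'ne
          exact ⟨a, hu2u1 (hA' ha).1.1, hBS (hA' ha).1, a, ha, hP.refl a⟩
      have h2 : m ∈ dn r S A' := by rw [h1]; exact hm.2
      obtain ⟨_, a, ha, hma⟩ := h2
      exact hP.not_le (hA' ha).2 hma
    · have h1 : dn (fun x y => r y x) S A' = u2 := by
        apply hmu2 _ ⟨hfi, ?_, ?_⟩
        · rintro w ⟨hw, a, ha, hwa⟩
          exact hu2.2.2.1 w hw a (hA' ha).1.1 hwa
        · rintro w ⟨hw, a, ha, hwa⟩
          exact hu2u1 (hu2.2.2.1 w hw a (hA' ha).1.1 hwa)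
        · obtain ⟨a, ha⟩ := hA'ne
          exact ⟨a, (hA' ha).1.2, hBS (hA' ha).1, a, ha, hP.refl a⟩
      have h2 : m ∈ dn (fun x y => r y x) S A' := by rw [h1]; exact hm.1
      obtain ⟨_, a, ha, hma⟩ := h2
      exact hP.not_ge (hA' ha).2 hma
  exact h.nocore _ hBne (core_of_inter hP (Or.inr hu2) (Or.inr ht1)
    ⟨Subset.rfl, hdeg, fun z hz hz' => absurd hz hz'⟩)

/-- A minimal ideal which only meets improper filters gives a core. -/
theorem core_of_min (hP : PO r H) (hc : Col r c) {t0 : Set α} (ht0 : IsId I r S t0)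
    (hmin : ∀ t', IsId I r S t' → ¬ ∃ x ∈ t0, ∀ y ∈ t', r y x)
    (hmeet : ∀ u, IsId I (fun x y => r y x) S u → (u ∩ t0).Nonempty → u = S) :
    ∃ B, B.Nonempty ∧ Core I H S B := by
  obtain ⟨t1, ⟨ht1, ht1t0⟩, hmt1⟩ := exists_subset_min
    (F := {τ | IsId I r S τ ∧ τ ⊆ t0})
    ((finite_unbounded hP hc ht0).subset (by
      rintro τ ⟨h1, h2⟩
      exact ⟨h1, h2, hmin τ h1⟩))
    ⟨t0, ht0, Subset.rfl⟩
  have hdeg : ∀ m ∈ t1, I.sm (nb H m t1) := by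
    intro m hm
    by_contra hlarge
    obtain ⟨A', hA', hA'ne, hid | hfi⟩ :=
      exists_id_or_fi hP hc (S := S) (nb_subset.trans ht1.1) hlarge
    · have h1 : dn r S A' = t1 := by
        apply hmt1 _ ⟨hid, ?_⟩
        · rintro w ⟨hw, a, ha, hwa⟩
          exact ht1.2.2.1 w hw a (hA' ha).1 hwa
        · rintro w ⟨hw, a, ha, hwa⟩
          exact ht1t0 (ht1.2.2.1 w hw a (hA' ha).1 hwa)
      have h2 : m ∈ dn r S A' := by rw [h1]; exact hm
      obtain ⟨_, a, ha, hma⟩ := h2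
      exact hP.not_le (hA' ha).2 hma
    · have h1 : dn (fun x y => r y x) S A' = S := by
        apply hmeet _ hfi
        obtain ⟨a, ha⟩ := hA'ne
        exact ⟨a, ⟨ht1.1 (hA' ha).1, a, ha, hP.refl a⟩, ht1t0 (hA' ha).1⟩
      have h2 : m ∈ dn (fun x y => r y x) S A' := by rw [h1]; exact ht1.1 hm
      obtain ⟨_, a, ha, hma⟩ := h2
      exact hP.not_ge (hA' ha).2 hma
  have hcc : CC I H (S ∩ t1) t1 := by
    rw [inter_eq_self_of_subset_right ht1.1]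
    exact ⟨Subset.rfl, hdeg, fun z hz hz' => absurd hz hz'⟩
  exact ⟨t1, ht1.2.1, core_of_inter hP (Or.inl rfl) (Or.inr ht1) hcc⟩

/-- Sets without filters have complete cores. -/
theorem exists_CC_of_no_filter (hP : PO r H) (hc : Col r c) {Q : Set α}
    (hQ : ∀ u, ¬ IsId I (fun x y => r y x) Q u) : ∃ B, CC I H Q B := by
  apply exists_CC_of_cores (fun x y => hP.symm)
  intro Q' hQ' hne
  have hno : ∀ u, ¬ IsId I (fun x y => r y x) Q' u := by
    intro u hu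
    exact hQ _ (isId_dn hP.dual (hu.1.trans hQ') hu.2.1 hu.2.2.2.1 hu.2.2.2.2)
  by_cases hid : ∃ t, IsId I r Q' t
  · obtain ⟨t, ht⟩ := hid
    rcases exists_min_or_desc (P := fun _ => True) ht trivial with
      ⟨t0, ht0, _, hmin⟩ | ⟨z, x, _, hzx⟩
    · exact core_of_min hP hc ht0 (fun t' ht' => hmin t' ht' trivial)
        (fun u hu _ => absurd hu (hno u))
    · exact absurd (isFi_limit hP (fun i => (hzx i).1) (fun i => (hzx i).2.2.1)
        (fun i => (hzx i).2.2.2)) (hno _)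
  · refine ⟨Q', hne, Subset.rfl, ?_, fun z hz hz' => absurd hz hz'⟩
    intro m _
    by_contra hlarge
    obtain ⟨A', _, _, h1 | h1⟩ := exists_id_or_fi hP hc (S := Q') nb_subset hlarge
    · exact hid ⟨_, h1⟩
    · exact hno _ h1

end Pool.Agent.Work.MP_288596_co
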