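import Mathlib

/-!
Basic definitions for the bounded width case of the Aharoni-Korman conjecture.

`r` is a partial order on `α`, `H` its incomparability relation and `c` a
colouring of `α` with finitely many colours whose classes are chains.
-/

set_option autoImplicit false

namespace Pool.Agent.Work.MP_288596_co

open Cardinal Set

universe u

/-- `r` is a partial order and `H` is its incomparability relation. -/
structure PO {α : Type u} (r H : α → α → Prop) : Prop where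
  refl : ∀ x, r x x
  trans : ∀ x y z, r x y → r y z → r x z
  antisymm : ∀ x y, r x y → r y x → x = y
  inc : ∀ x y, H x y ↔ ¬ r x y ∧ ¬ r y x

/-- The colour classes of `c` are chains. -/
def Col {α : Type u} (r : α → α → Prop) {n : ℕ} (c : α → Fin n) : Prop :=
  ∀ x y, c x = c y → r x y ∨ r y x

/-- The `H`-neighbours of `x` in `A`. -/
def nb {α : Type u} (H : α → α → Prop) (x : α) (A : Set α) : Set α := {y | y ∈ A ∧ H x y}

/-- `B` is a complete `κ`-core of `S`. -/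
def CCore {α : Type u} (H : α → α → Prop) (κ : Cardinal.{u}) (S B : Set α) : Prop :=
  B ⊆ S ∧ (∀ m ∈ B, #(nb H m B) < κ) ∧ ∀ z ∈ S, z ∉ B → κ ≤ #(nb H z B)

/-- `B` is a good base of `S` up to `lam`. -/
def GBU {α : Type u} (H : α → α → Prop) (lam : Cardinal.{u}) (S B : Set α) : Prop :=
  B ⊆ S ∧ (∀ y ∈ S, y ∈ B ↔ #(nb H y B) < ℵ₀) ∧
    ∀ κ, ℵ₀ ≤ κ → κ ≤ lam → ∀ m ∈ S, #(nb H m B) < κ →
      #{y | y ∈ S ∧ H m y ∧ #(nb H y B) < κ} < κ

/-- `B` is a good base of `S`. -/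
def GB {α : Type u} (H : α → α → Prop) (S B : Set α) : Prop :=
  B ⊆ S ∧ (∀ y ∈ S, y ∈ B ↔ #(nb H y B) < ℵ₀) ∧
    ∀ κ, ℵ₀ ≤ κ → ∀ m ∈ S, #(nb H m B) < κ →
      #{y | y ∈ S ∧ H m y ∧ #(nb H y B) < κ} < κ

/-- `f` is a spinal map on `T`. -/
def Sp {α : Type u} (r : α → α → Prop) (T : Set α) (f : α → α) : Prop :=
  (∀ x ∈ T, f x ∈ T) ∧ (∀ x ∈ T, f (f x) = f x) ∧
    (∀ x ∈ T, ∀ y ∈ T, r (f x) (f y) ∨ r (f y) (f x)) ∧
      ∀ x ∈ T, ∀ y ∈ T, r x y → x ≠ y → f x ≠ f y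

/-- Reachability by `H`-paths inside `K`. -/
def Reach {α : Type u} (H : α → α → Prop) (K : Set α) : α → α → Prop :=
  Relation.ReflTransGen (fun a b => a ∈ K ∧ b ∈ K ∧ H a b)

/-- The `H`-component of `x` in `K`. -/
def Comp {α : Type u} (H : α → α → Prop) (K : Set α) (x : α) : Set α :=
  {y | y ∈ K ∧ Reach H K x y}

/-- `E` is `H`-connected. -/
def HConn {α : Type u} (H : α → α → Prop) (E : Set α) : Prop :=
  ∀ x ∈ E, ∀ y ∈ E, Reach H E x y

variable {α : Type u} {r H : α → α → Prop}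

theorem PO.dual (h : PO r H) : PO (fun x y => r y x) H where
  refl x := h.refl x
  trans x y z hxy hyz := h.trans z y x hyz hxy
  antisymm x y hxy hyx := h.antisymm x y hyx hxy
  inc x y := by rw [h.inc x y]; exact and_comm

theorem Col.dual {n : ℕ} {c : α → Fin n} (h : Col r c) : Col (fun x y => r y x) c :=
  fun x y hxy => (h x y hxy).symm

theorem PO.symm (h : PO r H) {x y : α} (hxy : H x y) : H y x := by
  rw [h.inc] at hxy ⊢; exact ⟨hxy.2, hxy.1⟩

theorem PO.irrefl (h : PO r H) (x : α) : ¬ H x x := by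
  rw [h.inc]; exact fun hx => hx.1 (h.refl x)

theorem PO.not_le (h : PO r H) {x y : α} (hxy : H x y) : ¬ r x y := ((h.inc x y).1 hxy).1

theorem PO.not_ge (h : PO r H) {x y : α} (hxy : H x y) : ¬ r y x := ((h.inc x y).1 hxy).2

theorem PO.cases (h : PO r H) (x y : α) : r x y ∨ r y x ∨ H x y := by
  by_cases h1 : r x y
  · exact Or.inl h1
  by_cases h2 : r y x
  · exact Or.inr (Or.inl h2)
  · exact Or.inr (Or.inr ((h.inc x y).2 ⟨h1, h2⟩))

@[simp] theorem mem_nb {x y : α} {A : Set α} : y ∈ nb H x A ↔ y ∈ A ∧ H x y := Iff.rfl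

theorem nb_mono {x : α} {A B : Set α} (h : A ⊆ B) : nb H x A ⊆ nb H x B :=
  fun _ hy => ⟨h hy.1, hy.2⟩

theorem nb_subset {x : α} {A : Set α} : nb H x A ⊆ A := fun _ hy => hy.1

theorem GB.up {S B : Set α} (h : GB H S B) (lam : Cardinal.{u}) : GBU H lam S B :=
  ⟨h.1, h.2.1, fun κ h1 _ => h.2.2 κ h1⟩

theorem GBU.mono {S B : Set α} {lam mu : Cardinal.{u}} (h : GBU H lam S B) (hmu : mu ≤ lam) :
    GBU H mu S B :=
  ⟨h.1, h.2.1, fun κ h1 h2 => h.2.2 κ h1 (h2.trans hmu)⟩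

end Pool.Agent.Work.MP_288596_co
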