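import Pool.Agent.Work.MP_288596_co.Defs

/-! Module M5, part a: the finite family of convex closed sets (Lemma O). -/

set_option autoImplicit false

namespace Pool.Agent.Work.MP_288596_co

namespace M5

open Cardinal Set

universe u

variable {α : Type u} {r H : α → α → Prop}

theorem mk_union_lt {κ : Cardinal.{u}} (hκ : ℵ₀ ≤ κ) {A B : Set α} (hA : #A < κ) (hB : #B < κ) :
    #(A ∪ B : Set α) < κ :=
  (mk_union_le A B).trans_lt (add_lt_of_lt hκ hA hB)

theorem mk_subset_lt {κ : Cardinal.{u}} {A B : Set α} (h : A ⊆ B) (hB : #B < κ) : #A < κ :=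
  (mk_le_mk_of_subset h).trans_lt hB

theorem mk_iUnion_nat_lt {κ : Cardinal.{u}} (hreg : κ.IsRegular) (hunc : ℵ₀ < κ)
    {A : ℕ → Set α} (h : ∀ i, #(A i) < κ) : #(⋃ i, A i : Set α) < κ := by
  have h1 : (⋃ i, A i) = ⋃ i : ULift.{u} ℕ, A i.down := by
    ext x
    simp only [mem_iUnion]
    constructor
    · rintro ⟨i, hi⟩
      exact ⟨⟨i⟩, hi⟩
    · rintro ⟨⟨i⟩, hi⟩
      exact ⟨i, hi⟩
  rw [h1, card_iUnion_lt_iff_forall_of_isRegular hreg]
  · rintro ⟨i⟩
    exact h i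
  · simpa using hunc

theorem mk_lt_of_colors' {n : ℕ} (c : α → Fin n) {κ : Cardinal.{u}} (hκ : ℵ₀ ≤ κ) {A : Set α}
    (h : ∀ j, #{x | x ∈ A ∧ c x = j} < κ) : #A < κ := by
  have key : ∀ s : Finset (Fin n), #{x | x ∈ A ∧ c x ∈ s} < κ := by
    intro s
    induction s using Finset.induction with
    | empty =>
      have : {x | x ∈ A ∧ c x ∈ (∅ : Finset (Fin n))} = ∅ := by
        ext x
        simp
      rw [this, mk_eq_zero]
      exact lt_of_lt_of_le aleph0_pos hκ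
    | insert a s _ ih =>
      refine mk_subset_lt ?_ (mk_union_lt hκ (h a) ih)
      rintro x ⟨hx, hxs⟩
      rw [Finset.mem_insert] at hxs
      rcases hxs with h1 | h1
      · exact Or.inl ⟨hx, h1⟩
      · exact Or.inr ⟨hx, h1⟩
  refine mk_subset_lt ?_ (key Finset.univ)
  intro x hx
  exact ⟨hx, Finset.mem_univ _⟩

theorem exists_color {n : ℕ} (c : α → Fin n) {κ : Cardinal.{u}} (hκ : ℵ₀ ≤ κ) {A : Set α}
    (hA : κ ≤ #A) : ∃ j, κ ≤ #{x | x ∈ A ∧ c x = j} := by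
  by_contra hcon
  push Not at hcon
  exact absurd (mk_lt_of_colors' c hκ hcon) (not_lt.2 hA)

/-- a small subset lying below elements of a long chain is bounded in the chain -/
theorem bound_chain (hP : PO r H) {A : Set α} (hchain : ∀ x ∈ A, ∀ y ∈ A, r x y ∨ r y x)
    {lam : Cardinal.{u}} (hreg : lam.IsRegular) (hA : lam ≤ #A)
    (hinit : ∀ a ∈ A, #{x | x ∈ A ∧ r x a} < lam) (T : Set α) (hT : #T < lam)
    (hTA : ∀ t ∈ T, ∃ a ∈ A, r t a) : ∃ y ∈ A, ∀ t ∈ T, r t y := by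
  choose a ha hta using hTA
  have h1 : #(⋃ t, ⋃ ht : t ∈ T, {x | x ∈ A ∧ r x (a t ht)} : Set α) < lam := by
    rw [card_biUnion_lt_iff_forall_of_isRegular hreg hT]
    intro t ht
    exact hinit _ (ha t ht)
  have h2 : ¬ A ⊆ ⋃ t, ⋃ ht : t ∈ T, {x | x ∈ A ∧ r x (a t ht)} := by
    intro hsub
    exact absurd (mk_subset_lt hsub h1) (not_lt.2 hA)
  rw [not_subset] at h2
  obtain ⟨y, hyA, hy⟩ := h2
  refine ⟨y, hyA, fun t ht => ?_⟩
  have h3 : ¬ r y (a t ht) := by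
    intro h
    apply hy
    rw [mem_iUnion₂]
    exact ⟨t, ht, hyA, h⟩
  rcases hchain y hyA (a t ht) (ha t ht) with h | h
  · exact absurd h h3
  · exact hP.trans _ _ _ (hta t ht) h

/-- an element between two elements of a complete core with few core elements in between is in
the core -/
theorem between_mem (hP : PO r H) {lam : Cardinal.{u}} (hlam : ℵ₀ ≤ lam) {E K : Set α}
    (hK : CCore H lam E K) {a b w : α} (ha : a ∈ K) (hb : b ∈ K) (hw : w ∈ E) (haw : r a w)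
    (hwb : r w b) (hfew : #{v | v ∈ K ∧ r a v ∧ r v b} < lam) : w ∈ K := by
  by_contra hwK
  have h1 := hK.2.2 w hw hwK
  refine absurd (mk_subset_lt ?_ (mk_union_lt hlam (mk_union_lt hlam (hK.2.1 a ha) (hK.2.1 b hb))
    hfew)) (not_lt.2 h1)
  rintro v ⟨hvK, hwv⟩
  rcases hP.cases a v with h | h | h
  · rcases hP.cases b v with h' | h' | h'
    · exact absurd (hP.trans _ _ _ hwb h') (hP.not_le hwv)
    · exact Or.inr ⟨hvK, h, h'⟩
    · exact Or.inl (Or.inr ⟨hvK, h'⟩)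
  · exact absurd (hP.trans _ _ _ h haw) (hP.not_ge hwv)
  · exact Or.inl (Or.inl ⟨hvK, h⟩)

/-- the properties required of the lower set `L` -/
def GoodL (r H : α → α → Prop) (lam : Cardinal.{u}) (E F K : Set α) (o : α) (L : Set α) : Prop :=
  L ⊆ E ∧ (∀ x ∈ L, ∀ y ∈ E, r y x → y ∈ L) ∧ F ⊆ L ∧ (∀ g ∈ L, ∀ y ∈ K, H g y → y ∈ L) ∧
    (∀ x ∈ L, #{b | b ∈ K ∧ H x b ∧ r o b} < lam) ∧ #{x | x ∈ L ∧ x ∈ K ∧ r o x} < lam

theorem upperO (hP : PO r H) {n : ℕ} {c : α → Fin n} (hc : Col r c) {lam : Cardinal.{u}}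
    (hreg : lam.IsRegular) (hunc : ℵ₀ < lam) {E F : Set α} {o : α} (_hoE : o ∈ E)
    (hdeg : #(nb H o E) < lam) (hFE : F ⊆ E)
    (hFconv : ∀ x ∈ F, ∀ z ∈ F, ∀ y ∈ E, r x y → r y z → y ∈ F) (hoF : o ∈ F) (hF : #F < lam) :
    ∃ LL : Set (Set α), LL.Finite ∧ ∀ K, CCore H lam E K → F ⊆ K →
      ∃ L ∈ LL, GoodL r H lam E F K o L := by
  classical
  have hlam : ℵ₀ ≤ lam := hunc.le
  set N : Set α := {x | x ∈ E ∧ r o x ∧ #{w | w ∈ E ∧ r o w ∧ r w x} < lam} with hN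
  set U : Set α := {x | x ∈ E ∧ r o x ∧ lam ≤ #{w | w ∈ E ∧ r o w ∧ r w x}} with hU
  have hNU : ∀ x ∈ E, r o x → x ∈ N ∨ x ∈ U := by
    intro x hx hox
    rcases lt_or_ge (#{w | w ∈ E ∧ r o w ∧ r w x}) lam with h | h
    · exact Or.inl ⟨hx, hox, h⟩
    · exact Or.inr ⟨hx, hox, h⟩
  set A : Fin n → Set α := fun j => {x | x ∈ N ∧ c x = j} with hA
  set IA : Fin n → Set α := fun j => {x | x ∈ E ∧ r o x ∧ ∃ a ∈ A j, r x a} with hIA
  have hAchain : ∀ j, ∀ x ∈ A j, ∀ y ∈ A j, r x y ∨ r y x := by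
    intro j x hx y hy
    exact hc x y (hx.2.trans hy.2.symm)
  have hAinit : ∀ j, ∀ a ∈ A j, #{x | x ∈ A j ∧ r x a} < lam := by
    intro j a ha
    refine mk_subset_lt ?_ ha.1.2.2
    rintro x ⟨hx, hxa⟩
    exact ⟨hx.1.1, hx.1.2.1, hxa⟩
  -- the sequences
  have hseq : ∀ j, lam ≤ #(A j) → (∀ a ∈ IA j, #(nb H a (IA j)) < lam) →
      ∃ y : ℕ → α, (∀ i, y i ∈ A j) ∧ (∀ e, e ∈ F ∪ nb H o E ∪ {o} → (∃ a ∈ A j, r e a) →
        r e (y 0)) ∧ ∀ i, ∀ b ∈ nb H (y i) (IA j) ∪ {y i}, r b (y (i + 1)) := by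
    intro j hj hdegj
    have hstep : ∀ y : A j, ∃ y' : A j, ∀ b ∈ nb H y.1 (IA j) ∪ {y.1}, r b y'.1 := by
      rintro ⟨y, hy⟩
      have hyI : y ∈ IA j := ⟨hy.1.1, hy.1.2.1, y, hy, hP.refl y⟩
      obtain ⟨y', hy', hb⟩ := bound_chain hP (hAchain j) hreg hj (hAinit j)
        (nb H y (IA j) ∪ {y}) (mk_union_lt hlam (hdegj y hyI) (by
          rw [mk_singleton]
          exact lt_of_lt_of_le one_lt_aleph0 hlam)) (by
          rintro t (⟨⟨_, _, a, ha, hta⟩, _⟩ | ht)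
          · exact ⟨a, ha, hta⟩
          · rw [mem_singleton_iff] at ht
            rw [ht]
            exact ⟨y, hy, hP.refl y⟩)
      exact ⟨⟨y', hy'⟩, hb⟩
    choose step hstep using hstep
    obtain ⟨y0, hy0, hy0'⟩ := bound_chain hP (hAchain j) hreg hj (hAinit j)
      {e | e ∈ F ∪ nb H o E ∪ {o} ∧ ∃ a ∈ A j, r e a}
      (mk_subset_lt (fun e he => he.1) (mk_union_lt hlam (mk_union_lt hlam hF hdeg) (by
          rw [mk_singleton]
          exact lt_of_lt_of_le one_lt_aleph0 hlam))) (fun t ht => ht.2)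
    refine ⟨fun i => (Nat.rec (⟨y0, hy0⟩ : A j) (fun _ y => step y) i : A j).1, ?_, ?_, ?_⟩
    · intro i
      exact (Nat.rec (⟨y0, hy0⟩ : A j) (fun _ y => step y) i : A j).2
    · intro e he ha
      exact hy0' e ⟨he, ha⟩
    · intro i b hb
      exact hstep _ b hb
  -- the options
  set L1 : Fin n → Set α := fun j =>
    if h : lam ≤ #(A j) ∧ ∀ a ∈ IA j, #(nb H a (IA j)) < lam then
      {x | x ∈ E ∧ ∃ i, r x ((hseq j h.1 h.2).choose i)} else ∅ with hL1
  set L2 : Fin n → Set α := fun j => {x | x ∈ E ∧ ∀ w ∈ U, c w = j → r x w} with hL2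
  refine ⟨({E} ∪ range L1) ∪ range L2, ((finite_singleton E).union (finite_range L1)).union
    (finite_range L2), ?_⟩
  intro K hK hFK
  have hKE := hK.1
  have hoK : o ∈ K := hFK hoF
  have hbtw : ∀ a b w, a ∈ K → b ∈ K → w ∈ E → r a w → r w b →
      #{v | v ∈ K ∧ r a v ∧ r v b} < lam → w ∈ K :=
    fun a b w ha hb hw h1 h2 h3 => between_mem hP hlam hK ha hb hw h1 h2 h3
  by_cases hcase : lam ≤ #{x | x ∈ N ∧ x ∈ K}
  · -- Case 1
    obtain ⟨j, hj⟩ := exists_color c hlam hcase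
    have hAK : A j ⊆ K := by
      intro w hw
      by_contra hwK
      have hall : ∀ a, a ∈ N → a ∈ K → c a = j → r a w := by
        intro a haN haK hca
        rcases hc a w (hca.trans hw.2.symm) with h | h
        · exact h
        · exfalso
          apply hwK
          apply hbtw o a w hoK haK hw.1.1 hw.1.2.1 h
          refine mk_subset_lt ?_ haN.2.2
          intro v hv
          exact ⟨hKE hv.1, hv.2.1, hv.2.2⟩
      refine absurd (mk_subset_lt ?_ hw.1.2.2) (not_lt.2 hj)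
      rintro a ⟨⟨haN, haK⟩, hca⟩
      exact ⟨haN.1, haN.2.1, hall a haN haK hca⟩
    have hj1 : lam ≤ #(A j) := by
      refine hj.trans (mk_le_mk_of_subset ?_)
      rintro a ⟨⟨haN, _⟩, hca⟩
      exact ⟨haN, hca⟩
    have hIAK : IA j ⊆ K := by
      rintro x ⟨hx, hox, a, ha, hxa⟩
      apply hbtw o a x hoK (hAK ha) hx hox hxa
      refine mk_subset_lt ?_ ha.1.2.2
      intro v hv
      exact ⟨hKE hv.1, hv.2.1, hv.2.2⟩
    have hj2 : ∀ a ∈ IA j, #(nb H a (IA j)) < lam := by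
      intro a ha
      exact mk_subset_lt (nb_mono hIAK) (hK.2.1 a (hIAK ha))
    refine ⟨L1 j, Or.inl (Or.inr ⟨j, rfl⟩), ?_⟩
    have hL1j : L1 j = {x | x ∈ E ∧ ∃ i, r x ((hseq j hj1 hj2).choose i)} := by
      simp only [hL1]
      rw [dif_pos (⟨hj1, hj2⟩ : lam ≤ #(A j) ∧ ∀ a ∈ IA j, #(nb H a (IA j)) < lam)]
    obtain ⟨hyA, hy0, hys⟩ := (hseq j hj1 hj2).choose_spec
    set y := (hseq j hj1 hj2).choose with hy
    rw [hL1j]
    -- dichotomy for elements of K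
    have hdich : ∀ x ∈ K, (∃ a ∈ A j, r x a) ∨ ∀ a ∈ A j, r a x := by
      intro x hx
      by_cases hex : ∃ a ∈ A j, r x a
      · exact Or.inl hex
      · right
        intro a ha
        push Not at hex
        -- there is a' in A j above a comparable with x
        by_contra hax
        have hsub : A j ⊆ {z | z ∈ A j ∧ r z a} ∪ nb H x K := by
          intro a' ha'
          rcases hP.cases a' x with h | h | h
          · -- a' ≤ x
            rcases hAchain j a ha a' ha' with h' | h'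
            · exact absurd (hP.trans _ _ _ h' h) hax
            · exact Or.inl ⟨ha', h'⟩
          · exact absurd h (hex a' ha')
          · exact Or.inr ⟨hAK ha', hP.symm h⟩
        exact absurd (mk_subset_lt hsub (mk_union_lt hlam (hAinit j a ha) (hK.2.1 x hx)))
          (not_lt.2 hj1)
    have hoy : r o (y 0) := by
      apply hy0 o (Or.inr rfl)
      exact ⟨y 0, hyA 0, (hyA 0).1.2.1⟩
    refine ⟨fun x hx => hx.1, ?_, ?_, ?_, ?_, ?_⟩
    · rintro x ⟨_, i, hi⟩ z hz hzx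
      exact ⟨hz, i, hP.trans _ _ _ hzx hi⟩
    · intro f hf
      refine ⟨hFE hf, 0, ?_⟩
      rcases hdich f (hFK hf) with h | h
      · exact hy0 f (Or.inl (Or.inl hf)) h
      · exfalso
        refine absurd (mk_subset_lt (fun a ha => ?_) hF) (not_lt.2 hj1)
        exact hFconv o hoF f hf a ha.1.1 ha.1.2.1 (h a ha)
    · rintro g ⟨hgE, i, hgi⟩ z hz hgz
      refine ⟨hKE hz, ?_⟩
      rcases hdich z hz with ⟨a, ha, hza⟩ | h
      · rcases hP.cases o z with h1 | h1 | h1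
        · -- z ≥ o
          have hzI : z ∈ IA j := ⟨hKE hz, h1, a, ha, hza⟩
          rcases hP.cases z (y i) with h2 | h2 | h2
          · exact ⟨i, h2⟩
          · exact absurd (hP.trans _ _ _ hgi h2) (hP.not_le hgz)
          · exact ⟨i + 1, hys i z (Or.inl ⟨hzI, hP.symm h2⟩)⟩
        · exact ⟨0, hP.trans _ _ _ h1 hoy⟩
        · exact ⟨0, hy0 z (Or.inl (Or.inr ⟨hKE hz, h1⟩)) ⟨a, ha, hza⟩⟩
      · exact absurd (hP.trans _ _ _ hgi (h (y i) (hyA i))) (hP.not_le hgz)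
    · rintro x ⟨hxE, i, hxi⟩
      have hyI : y i ∈ IA j := ⟨(hyA i).1.1, (hyA i).1.2.1, y i, hyA i, hP.refl _⟩
      refine mk_subset_lt ?_ (mk_union_lt hlam (hyA i).1.2.2 (hj2 (y i) hyI))
      rintro b ⟨hbK, hxb, hob⟩
      rcases hdich b hbK with ⟨a, ha, hba⟩ | h
      · rcases hP.cases b (y i) with h2 | h2 | h2
        · exact Or.inl ⟨hKE hbK, hob, h2⟩
        · exact absurd (hP.trans _ _ _ hxi h2) (hP.not_le hxb)
        · exact Or.inr ⟨⟨hKE hbK, hob, a, ha, hba⟩, hP.symm h2⟩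
      · exact absurd (hP.trans _ _ _ hxi (h (y i) (hyA i))) (hP.not_le hxb)
    · refine mk_subset_lt ?_ (mk_iUnion_nat_lt hreg hunc
        (A := fun i => {w | w ∈ E ∧ r o w ∧ r w (y i)}) (fun i => (hyA i).1.2.2))
      rintro x ⟨⟨hxE, i, hxi⟩, _, hox⟩
      rw [mem_iUnion]
      exact ⟨i, hxE, hox, hxi⟩
  · have hNK : #{x | x ∈ N ∧ x ∈ K} < lam := not_le.1 hcase
    by_cases hQ : ∃ q, q ∈ U ∧ q ∈ K
    · -- Case 2
      obtain ⟨q0, hq0U, hq0K⟩ := hQ
      have hbig : ∀ y, y ∈ U → y ∈ K → lam ≤ #{q | (q ∈ U ∧ q ∈ K) ∧ r q y} := by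
        intro y hyU hyK
        by_contra hcon
        rw [not_le] at hcon
        have hsub : {v | v ∈ K ∧ r o v ∧ r v y} ⊆
            {x | x ∈ N ∧ x ∈ K} ∪ {q | (q ∈ U ∧ q ∈ K) ∧ r q y} := by
          rintro v ⟨hvK, hov, hvy⟩
          rcases hNU v (hKE hvK) hov with h | h
          · exact Or.inl ⟨h, hvK⟩
          · exact Or.inr ⟨⟨h, hvK⟩, hvy⟩
        have hfew := mk_subset_lt hsub (mk_union_lt hlam hNK hcon)
        refine absurd (mk_subset_lt ?_ hfew) (not_lt.2 hyU.2.2)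
        rintro w ⟨hwE, how, hwy⟩
        exact ⟨hbtw o y w hoK hyK hwE how hwy hfew, how, hwy⟩
      have hcomp : ∀ x ∈ K, ∀ q, q ∈ U → q ∈ K →
          (∃ q', (q' ∈ U ∧ q' ∈ K) ∧ r q' q ∧ r q' x) ∨ r x q := by
        intro x hx q hqU hqK
        have h1 := hbig q hqU hqK
        have h2 : ¬ {q' | (q' ∈ U ∧ q' ∈ K) ∧ r q' q} ⊆ nb H x K := by
          intro hsub
          exact absurd (mk_subset_lt hsub (hK.2.1 x hx)) (not_lt.2 h1)
        rw [not_subset] at h2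
        obtain ⟨q', ⟨hq', hq'q⟩, hnot⟩ := h2
        rcases hP.cases q' x with h | h | h
        · exact Or.inl ⟨q', hq', hq'q, h⟩
        · exact Or.inr (hP.trans _ _ _ h hq'q)
        · exact absurd ⟨hq'.2, hP.symm h⟩ hnot
      have hdir : ∀ q, q ∈ U → q ∈ K → ∀ q', q' ∈ U → q' ∈ K →
          ∃ q'', (q'' ∈ U ∧ q'' ∈ K) ∧ r q'' q ∧ r q'' q' := by
        intro q hqU hqK q' hq'U hq'K
        rcases hcomp q' hq'K q hqU hqK with ⟨q'', h1, h2, h3⟩ | h
        · exact ⟨q'', h1, h2, h3⟩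
        · exact ⟨q', ⟨hq'U, hq'K⟩, h, hP.refl q'⟩
      -- a coinitial colour
      obtain ⟨j, hj⟩ : ∃ j, ∀ q, q ∈ U → q ∈ K → ∃ a, (a ∈ U ∧ a ∈ K) ∧ c a = j ∧ r a q := by
        by_contra hcon
        push Not at hcon
        choose g hgU hgK hg using hcon
        have hlow : ∀ s : Finset (Fin n), ∃ q, (q ∈ U ∧ q ∈ K) ∧ ∀ j ∈ s, r q (g j) := by
          intro s
          induction s using Finset.induction with
          | empty => exact ⟨q0, ⟨hq0U, hq0K⟩, by simp⟩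
          | insert a s _ ih =>
            obtain ⟨q, ⟨hqU, hqK⟩, hq⟩ := ih
            obtain ⟨q'', h1, h2, h3⟩ := hdir q hqU hqK (g a) (hgU a) (hgK a)
            refine ⟨q'', h1, fun j hj => ?_⟩
            rw [Finset.mem_insert] at hj
            rcases hj with rfl | hj
            · exact h3
            · exact hP.trans _ _ _ h2 (hq j hj)
        obtain ⟨q, hq, hqall⟩ := hlow Finset.univ
        exact hg (c q) q hq rfl (hqall _ (Finset.mem_univ _))
      -- coinitial in U of that colour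
      have hcoin : ∀ w, w ∈ U → c w = j → ∃ a, (a ∈ U ∧ a ∈ K) ∧ r a w := by
        intro w hwU hcw
        by_contra hcon
        push Not at hcon
        have hwall : ∀ a, a ∈ U → a ∈ K → c a = j → r w a := by
          intro a haU haK hca
          rcases hc a w (hca.trans hcw.symm) with h | h
          · exact absurd h (hcon a ⟨haU, haK⟩)
          · exact h
        have hwK : w ∉ K := fun hwK => hcon w ⟨hwU, hwK⟩ (hP.refl w)
        have h1 := hK.2.2 w hwU.1 hwK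
        refine absurd (mk_subset_lt ?_ (mk_union_lt hlam (mk_subset_lt (nb_mono hKE) hdeg) hNK))
          (not_lt.2 h1)
        rintro b ⟨hbK, hwb⟩
        rcases hP.cases o b with h2 | h2 | h2
        · rcases hNU b (hKE hbK) h2 with h3 | h3
          · exact Or.inr ⟨h3, hbK⟩
          · exfalso
            obtain ⟨a, ⟨haU, haK⟩, hca, hab⟩ := hj b h3 hbK
            exact hP.not_le hwb (hP.trans _ _ _ (hwall a haU haK hca) hab)
        · exact absurd (hP.trans _ _ _ h2 hwU.2.1) (hP.not_ge hwb)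
        · exact Or.inl ⟨hbK, h2⟩
      have hL2mem : ∀ x ∈ E, (x ∈ L2 j ↔ ∀ q, q ∈ U → q ∈ K → r x q) := by
        intro x hx
        constructor
        · rintro ⟨_, h⟩ q hqU hqK
          obtain ⟨a, ⟨haU, _⟩, hca, haq⟩ := hj q hqU hqK
          exact hP.trans _ _ _ (h a haU hca) haq
        · intro h
          refine ⟨hx, fun w hwU hcw => ?_⟩
          obtain ⟨a, ⟨haU, haK⟩, haw⟩ := hcoin w hwU hcw
          exact hP.trans _ _ _ (h a haU haK) haw
      -- dichotomy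
      have hdich : ∀ x ∈ K, (∃ q, (q ∈ U ∧ q ∈ K) ∧ r q x) ∨ ∀ q, q ∈ U → q ∈ K → r x q := by
        intro x hx
        by_cases hex : ∃ q, (q ∈ U ∧ q ∈ K) ∧ r q x
        · exact Or.inl hex
        · right
          intro q hqU hqK
          rcases hcomp x hx q hqU hqK with ⟨q', h1, _, h3⟩ | h
          · exact absurd ⟨q', h1, h3⟩ hex
          · exact h
      refine ⟨L2 j, Or.inr ⟨j, rfl⟩, fun x hx => hx.1, ?_, ?_, ?_, ?_, ?_⟩
      · rintro x ⟨_, h⟩ z hz hzx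
        exact ⟨hz, fun w hwU hcw => hP.trans _ _ _ hzx (h w hwU hcw)⟩
      · intro f hf
        rw [hL2mem f (hFE hf)]
        rcases hdich f (hFK hf) with ⟨q, ⟨hqU, hqK⟩, hqf⟩ | h
        · exfalso
          refine absurd (mk_subset_lt (fun w hw => ?_) hF) (not_lt.2 hqU.2.2)
          exact hFconv o hoF f hf w hw.1 hw.2.1 (hP.trans _ _ _ hw.2.2 hqf)
        · exact h
      · intro g hg z hz hgz
        rw [hL2mem g hg.1] at hg
        rw [hL2mem z (hKE hz)]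
        rcases hdich z hz with ⟨q, ⟨hqU, hqK⟩, hqz⟩ | h
        · exact absurd (hP.trans _ _ _ (hg q hqU hqK) hqz) (hP.not_le hgz)
        · exact h
      · intro x hx
        rw [hL2mem x hx.1] at hx
        refine mk_subset_lt ?_ hNK
        rintro b ⟨hbK, hxb, hob⟩
        rcases hNU b (hKE hbK) hob with h | h
        · exact ⟨h, hbK⟩
        · exact absurd (hx b h hbK) (hP.not_le hxb)
      · refine mk_subset_lt ?_ hNK
        rintro x ⟨hxL, hxK, hox⟩
        rw [hL2mem x (hKE hxK)] at hxL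
        rcases hNU x (hKE hxK) hox with h | h
        · exact ⟨h, hxK⟩
        · exfalso
          have h1 := hbig x h hxK
          have h2 : {q | (q ∈ U ∧ q ∈ K) ∧ r q x} ⊆ {x} := by
            rintro q ⟨⟨hqU, hqK⟩, hqx⟩
            exact hP.antisymm _ _ hqx (hxL q hqU hqK)
          refine absurd (mk_subset_lt h2 ?_) (not_lt.2 h1)
          rw [mk_singleton]
          exact lt_of_lt_of_le one_lt_aleph0 hlam
    · -- Case 3
      push Not at hQ
      refine ⟨E, Or.inl (Or.inl rfl), Subset.rfl, fun x _ y hy _ => hy, hFE,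
        fun g _ y hy _ => hKE hy, ?_, ?_⟩
      · intro x _
        refine mk_subset_lt ?_ hNK
        rintro b ⟨hbK, _, hob⟩
        rcases hNU b (hKE hbK) hob with h | h
        · exact ⟨h, hbK⟩
        · exact absurd hbK (hQ b h)
      · refine mk_subset_lt ?_ hNK
        rintro x ⟨_, hxK, hox⟩
        rcases hNU x (hKE hxK) hox with h | h
        · exact ⟨h, hxK⟩
        · exact absurd hxK (hQ x h)

/-- Lemma O. -/
theorem lemmaO (hP : PO r H) {n : ℕ} {c : α → Fin n} (hc : Col r c) {lam : Cardinal.{u}}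
    (hreg : lam.IsRegular) (hunc : ℵ₀ < lam) {E F : Set α} {o : α} (hoE : o ∈ E)
    (hdeg : #(nb H o E) < lam) (hFE : F ⊆ E)
    (hFconv : ∀ x ∈ F, ∀ z ∈ F, ∀ y ∈ E, r x y → r y z → y ∈ F) (hoF : o ∈ F) (hF : #F < lam) :
    ∃ OO : Set (Set α), OO.Finite ∧ ∀ K, CCore H lam E K → F ⊆ K →
      ∃ G ∈ OO, F ⊆ G ∧ G ⊆ K ∧ #G < lam ∧
        (∀ x ∈ G, ∀ z ∈ G, ∀ y ∈ E, r x y → r y z → y ∈ G) ∧ ∀ g ∈ G, ∀ y ∈ K, H g y → y ∈ G := by
  have hlam : ℵ₀ ≤ lam := hunc.le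
  obtain ⟨LL, hLL, h1⟩ := upperO hP hc hreg hunc hoE hdeg hFE hFconv hoF hF
  obtain ⟨MM, hMM, h2⟩ := upperO hP.dual hc.dual hreg hunc hoE hdeg hFE
    (fun x hx z hz y hy h3 h4 => hFconv z hz x hx y hy h4 h3) hoF hF
  refine ⟨image2 (fun L M => L ∩ M) LL MM, hLL.image2 _ hMM, fun K hK hFK => ?_⟩
  obtain ⟨L, hL, hLE, hLlow, hFL, hLcl, hLfew, hLsize⟩ := h1 K hK hFK
  obtain ⟨M, hM, hME, hMup, hFM, hMcl, hMfew, hMsize⟩ := h2 K hK hFK
  have hGK : L ∩ M ⊆ K := by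
    rintro x ⟨hxL, hxM⟩
    by_contra hxK
    have h3 := hK.2.2 x (hLE hxL) hxK
    refine absurd (mk_subset_lt ?_ (mk_union_lt hlam (mk_union_lt hlam
      (mk_subset_lt (nb_mono hK.1) hdeg) (hLfew x hxL)) (hMfew x hxM))) (not_lt.2 h3)
    rintro b ⟨hbK, hxb⟩
    rcases hP.cases o b with h4 | h4 | h4
    · exact Or.inl (Or.inr ⟨hbK, hxb, h4⟩)
    · exact Or.inr ⟨hbK, hxb, h4⟩
    · exact Or.inl (Or.inl ⟨hbK, h4⟩)
  refine ⟨L ∩ M, ⟨L, hL, M, hM, rfl⟩, subset_inter hFL hFM, hGK, ?_, ?_, ?_⟩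
  · refine mk_subset_lt ?_ (mk_union_lt hlam (mk_union_lt hlam hdeg hLsize) hMsize)
    rintro x ⟨hxL, hxM⟩
    rcases hP.cases o x with h4 | h4 | h4
    · exact Or.inl (Or.inr ⟨hxL, hGK ⟨hxL, hxM⟩, h4⟩)
    · exact Or.inr ⟨hxM, hGK ⟨hxL, hxM⟩, h4⟩
    · exact Or.inl (Or.inl ⟨hLE hxL, h4⟩)
  · rintro x ⟨hxL, hxM⟩ z ⟨hzL, hzM⟩ y hy hxy hyz
    exact ⟨hLlow z hzL y hy hyz, hMup x hxM y hy hxy⟩
  · rintro g ⟨hgL, hgM⟩ y hy hgy
    exact ⟨hLcl g hgL y hy hgy, hMcl g hgM y hy hgy⟩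

end M5

end Pool.Agent.Work.MP_288596_co
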