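import Pool.Agent.Work.MP_288596_co.M5a

/-! Module M5, part b: cofinal sequences and the gluing argument. -/

set_option autoImplicit false

namespace Pool.Agent.Work.MP_288596_co

namespace M5

open Cardinal Set Filter

universe u

variable {α : Type u} {r H : α → α → Prop}

theorem succ_lt_of_cof {κ : Cardinal.{u}} (hκ : ℵ₀ < κ) (hcof : κ.ord.cof = ℵ₀) {μ : Cardinal.{u}}
    (hμ : μ < κ) : Order.succ μ < κ := by
  have h0 : max ℵ₀ μ < κ := max_lt hκ hμ
  rcases (Order.succ_le_of_lt h0).lt_or_eq with h | h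
  · exact (Order.succ_le_succ (le_max_right _ _)).trans_lt h
  · exfalso
    have h1 := (isRegular_succ (le_max_left ℵ₀ μ)).cof_ord
    rw [h, hcof] at h1
    exact absurd h1 hκ.ne

/-- a cofinal sequence of initial segments of a set of size `κ` -/
theorem exists_segments {κ : Cardinal.{u}} (hκ : ℵ₀ < κ) (hcof : κ.ord.cof = ℵ₀) {E : Set α}
    (hcard : #E = κ) : ∃ Em : ℕ → Set α, (∀ m, Em m ⊆ E) ∧ (∀ m, Em m ⊆ Em (m + 1)) ∧
      (∀ m, #(Em m) < κ) ∧ ∀ x ∈ E, ∃ m, x ∈ Em m := by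
  obtain ⟨s, hs, hsc⟩ := Order.exists_cof_eq (α := κ.ord.ToType)
  have hs0 : #s = ℵ₀ := by
    rw [hsc, Ordinal.cof_toType, hcof]
  obtain ⟨e⟩ : Nonempty (ℕ ≃ s) := by
    have h1 : #(ULift.{u} ℕ) = #s := by
      rw [hs0]
      simp
    obtain ⟨e⟩ := Cardinal.eq.1 h1
    exact ⟨Equiv.ulift.symm.trans e⟩
  obtain ⟨φ⟩ : Nonempty (E ≃ κ.ord.ToType) := by
    apply Cardinal.eq.1
    rw [hcard, mk_ord_toType]
  have hcofinal : ∀ t : κ.ord.ToType, ∃ m, t ≤ (e m).1 := by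
    intro t
    obtain ⟨y, hy, hty⟩ := hs t
    exact ⟨e.symm ⟨y, hy⟩, by rw [Equiv.apply_symm_apply]; exact hty⟩
  let g : ℕ → κ.ord.ToType := fun m => Nat.rec (e 0).1 (fun k y => max y (e (k + 1)).1) m
  have hg0 : ∀ m, (e m).1 ≤ g m := by
    intro m
    cases m with
    | zero => exact le_rfl
    | succ m => exact le_max_right _ _
  have hgs : ∀ m, g m ≤ g (m + 1) := fun m => le_max_left _ _
  refine ⟨fun m => {x | ∃ hx : x ∈ E, φ ⟨x, hx⟩ ≤ g m}, ?_, ?_, ?_, ?_⟩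
  · rintro m x ⟨hx, _⟩
    exact hx
  · rintro m x ⟨hx, h⟩
    exact ⟨hx, h.trans (hgs m)⟩
  · intro m
    have h1 : #(Iic (g m)) < κ := by
      have h2 := Cardinal.mk_Iic_lt (g m) (by simp) (by rw [mk_ord_toType]; exact hκ.le)
      rwa [mk_ord_toType] at h2
    refine lt_of_le_of_lt ?_ h1
    refine mk_le_of_injective (f := fun x : {x | ∃ hx : x ∈ E, φ ⟨x, hx⟩ ≤ g m} =>
      (⟨φ ⟨x.1, x.2.1⟩, x.2.2⟩ : Iic (g m))) ?_
    rintro ⟨x, hx, hx'⟩ ⟨y, hy, hy'⟩ h
    have h3 := congrArg Subtype.val h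
    have h4 := φ.injective h3
    have h5 : x = y := congrArg Subtype.val h4
    exact Subtype.ext h5
  · intro x hx
    obtain ⟨m, hm⟩ := hcofinal (φ ⟨x, hx⟩)
    exact ⟨m, hx, hm.trans (hg0 m)⟩

/-- the sequence of regular cardinals -/
noncomputable def lamSeq (δ : Cardinal.{u}) (μ : ℕ → Cardinal.{u}) : ℕ → Cardinal.{u}
  | 0 => Order.succ (max (max ℵ₀ δ) (μ 0))
  | m + 1 => Order.succ (max (lamSeq δ μ m) (μ (m + 1)))

theorem lamSeq_succ_lt (δ : Cardinal.{u}) (μ : ℕ → Cardinal.{u}) (m : ℕ) :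
    lamSeq δ μ m < lamSeq δ μ (m + 1) := by
  rw [lamSeq]
  exact (le_max_left _ _).trans_lt (Order.lt_succ _)

theorem lamSeq_mono (δ : Cardinal.{u}) (μ : ℕ → Cardinal.{u}) : Monotone (lamSeq δ μ) :=
  monotone_nat_of_le_succ (fun m => (lamSeq_succ_lt δ μ m).le)

theorem lamSeq_gt (δ : Cardinal.{u}) (μ : ℕ → Cardinal.{u}) (m : ℕ) : μ m < lamSeq δ μ m := by
  cases m with
  | zero =>
    rw [lamSeq]
    exact (le_max_right _ _).trans_lt (Order.lt_succ _)
  | succ m =>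
    rw [lamSeq]
    exact (le_max_right _ _).trans_lt (Order.lt_succ _)

theorem lamSeq_zero_gt (δ : Cardinal.{u}) (μ : ℕ → Cardinal.{u}) :
    ℵ₀ < lamSeq δ μ 0 ∧ δ < lamSeq δ μ 0 := by
  rw [lamSeq]
  exact ⟨((le_max_left _ _).trans (le_max_left _ _)).trans_lt (Order.lt_succ _),
    ((le_max_right _ _).trans (le_max_left _ _)).trans_lt (Order.lt_succ _)⟩

theorem lamSeq_unc (δ : Cardinal.{u}) (μ : ℕ → Cardinal.{u}) (m : ℕ) :
    ℵ₀ < lamSeq δ μ m ∧ δ < lamSeq δ μ m :=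
  ⟨(lamSeq_zero_gt δ μ).1.trans_le (lamSeq_mono δ μ (Nat.zero_le m)),
    (lamSeq_zero_gt δ μ).2.trans_le (lamSeq_mono δ μ (Nat.zero_le m))⟩

theorem lamSeq_regular (δ : Cardinal.{u}) (μ : ℕ → Cardinal.{u}) (m : ℕ) :
    (lamSeq δ μ m).IsRegular := by
  cases m with
  | zero =>
    rw [lamSeq]
    exact isRegular_succ ((le_max_left _ _).trans (le_max_left _ _))
  | succ m =>
    rw [lamSeq]
    exact isRegular_succ ((lamSeq_unc δ μ m).1.le.trans (le_max_left _ _))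

theorem lamSeq_lt {κ δ : Cardinal.{u}} {μ : ℕ → Cardinal.{u}} (hκ : ℵ₀ < κ)
    (hcof : κ.ord.cof = ℵ₀) (hδ : δ < κ) (hμ : ∀ m, μ m < κ) (m : ℕ) : lamSeq δ μ m < κ := by
  induction m with
  | zero =>
    rw [lamSeq]
    exact succ_lt_of_cof hκ hcof (max_lt (max_lt hκ hδ) (hμ 0))
  | succ m ih =>
    rw [lamSeq]
    exact succ_lt_of_cof hκ hcof (max_lt ih (hμ (m + 1)))

/-- the level sets of a good base up to `lam` are complete cores -/
theorem ccore_level {E b : Set α} {lam mu : Cardinal.{u}} (hb : GBU H lam E b) (hmu : ℵ₀ ≤ mu)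
    (hle : mu ≤ lam) : CCore H mu E {y | y ∈ E ∧ #(nb H y b) < mu} := by
  refine ⟨fun y hy => hy.1, ?_, ?_⟩
  · rintro m ⟨hm, hd⟩
    refine mk_subset_lt ?_ (hb.2.2 mu hmu hle m hm hd)
    rintro y ⟨⟨hy, hyd⟩, hmy⟩
    exact ⟨hy, hmy, hyd⟩
  · intro z hz hzn
    have h1 : mu ≤ #(nb H z b) := by
      by_contra hcon
      exact hzn ⟨hz, not_le.1 hcon⟩
    refine h1.trans (mk_le_mk_of_subset (nb_mono ?_))
    intro y hy
    exact ⟨hb.1 hy, lt_of_lt_of_le ((hb.2.1 y (hb.1 hy)).1 hy) hmu⟩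

/-- one extension step: a small set all of whose intervals towards `o` are small is contained in
a small convex set that is closed in the level sets for many `N` -/
theorem extend (hP : PO r H) {n : ℕ} {c : α → Fin n} (hc : Col r c) {lam : Cardinal.{u}}
    (hreg : lam.IsRegular) (hunc : ℵ₀ < lam) {E : Set α} {o : α} (hoE : o ∈ E)
    (hdeg : #(nb H o E) < lam) {b : ℕ → Set α} {U : Ultrafilter ℕ}
    (hcore : ∀ᶠ N in U, CCore H lam E {y | y ∈ E ∧ #(nb H y (b N)) < lam})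
    (hbE : ∀ N, b N ⊆ E) {G0 : Set α} (hG0E : G0 ⊆ E) (hoG0 : o ∈ G0) (hG0 : #G0 < lam)
    (hint1 : ∀ x ∈ G0, #{w | w ∈ E ∧ r o w ∧ r w x} < lam)
    (hint2 : ∀ x ∈ G0, #{w | w ∈ E ∧ r x w ∧ r w o} < lam)
    (hev : ∀ᶠ N in U, ∀ x ∈ G0, #(nb H x (b N)) < lam) :
    ∃ G : Set α, G ⊆ E ∧ G0 ⊆ G ∧ #G < lam ∧
      (∀ x ∈ G, ∀ z ∈ G, ∀ y ∈ E, r x y → r y z → y ∈ G) ∧
      ∀ᶠ N in U, (∀ x ∈ G, #(nb H x (b N)) < lam) ∧
        ∀ g ∈ G, ∀ y ∈ E, #(nb H y (b N)) < lam → H g y → y ∈ G := by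
  have hlam : ℵ₀ ≤ lam := hunc.le
  have hint : ∀ x ∈ G0, ∀ z ∈ G0, #{w | w ∈ E ∧ r x w ∧ r w z} < lam := by
    intro x hx z hz
    refine mk_subset_lt ?_ (mk_union_lt hlam (mk_union_lt hlam hdeg (hint1 z hz)) (hint2 x hx))
    rintro w ⟨hw, hxw, hwz⟩
    rcases hP.cases o w with h | h | h
    · exact Or.inl (Or.inr ⟨hw, h, hwz⟩)
    · exact Or.inr ⟨hw, hxw, h⟩
    · exact Or.inl (Or.inl ⟨hw, h⟩)
  set F : Set α := {y | y ∈ E ∧ ∃ x ∈ G0, ∃ z ∈ G0, r x y ∧ r y z} with hF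
  have hFE : F ⊆ E := fun y hy => hy.1
  have hGF : G0 ⊆ F := fun x hx => ⟨hG0E hx, x, hx, x, hx, hP.refl x, hP.refl x⟩
  have hFconv : ∀ x ∈ F, ∀ z ∈ F, ∀ y ∈ E, r x y → r y z → y ∈ F := by
    rintro x ⟨_, x1, hx1, _, _, h1, _⟩ z ⟨_, _, _, z2, hz2, _, h2⟩ y hy hxy hyz
    exact ⟨hy, x1, hx1, z2, hz2, hP.trans _ _ _ h1 hxy, hP.trans _ _ _ hyz h2⟩
  have hFlt : #F < lam := by
    have h1 : F ⊆ ⋃ x, ⋃ _ : x ∈ G0, ⋃ z, ⋃ _ : z ∈ G0, {w | w ∈ E ∧ r x w ∧ r w z} := by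
      rintro y ⟨hy, x, hx, z, hz, hxy, hyz⟩
      rw [mem_iUnion₂]
      refine ⟨x, hx, ?_⟩
      rw [mem_iUnion₂]
      exact ⟨z, hz, hy, hxy, hyz⟩
    refine mk_subset_lt h1 ?_
    rw [card_biUnion_lt_iff_forall_of_isRegular hreg hG0]
    intro x hx
    rw [card_biUnion_lt_iff_forall_of_isRegular hreg hG0]
    intro z hz
    exact hint x hx z hz
  have hFsub : ∀ N, (∀ x ∈ G0, #(nb H x (b N)) < lam) →
      F ⊆ {y | y ∈ E ∧ #(nb H y (b N)) < lam} := by
    rintro N hN y ⟨hy, x, hx, z, hz, hxy, hyz⟩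
    refine ⟨hy, ?_⟩
    refine mk_subset_lt ?_ (mk_union_lt hlam (mk_union_lt hlam (hN x hx) (hN z hz))
      (hint x hx z hz))
    rintro v ⟨hv, hyv⟩
    rcases hP.cases x v with h | h | h
    · rcases hP.cases z v with h' | h' | h'
      · exact absurd (hP.trans _ _ _ hyz h') (hP.not_le hyv)
      · exact Or.inr ⟨hbE N hv, h, h'⟩
      · exact Or.inl (Or.inr ⟨hv, h'⟩)
    · exact absurd (hP.trans _ _ _ h hxy) (hP.not_ge hyv)
    · exact Or.inl (Or.inl ⟨hv, h⟩)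
  obtain ⟨OO, hOO, hO⟩ := lemmaO hP hc hreg hunc hoE hdeg hFE hFconv (hGF hoG0) hFlt
  have hev2 : ∀ᶠ N in U, ∃ G ∈ OO, F ⊆ G ∧ G ⊆ {y | y ∈ E ∧ #(nb H y (b N)) < lam} ∧ #G < lam ∧
        (∀ x ∈ G, ∀ z ∈ G, ∀ y ∈ E, r x y → r y z → y ∈ G) ∧
        ∀ g ∈ G, ∀ y ∈ {y | y ∈ E ∧ #(nb H y (b N)) < lam}, H g y → y ∈ G := by
    filter_upwards [hcore, hev] with N h1 h2
    exact hO _ h1 (hFsub N h2)
  rw [Ultrafilter.eventually_exists_mem_iff hOO] at hev2
  obtain ⟨G, _, hG⟩ := hev2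
  obtain ⟨N0, hN0⟩ := hG.exists
  refine ⟨G, fun x hx => (hN0.2.1 hx).1, hGF.trans hN0.1, hN0.2.2.1, hN0.2.2.2.1, ?_⟩
  filter_upwards [hG] with N hN
  exact ⟨fun x hx => (hN.2.1 hx).2, fun g hg y hy hyd hgy => hN.2.2.2.2 g hg y ⟨hy, hyd⟩ hgy⟩

/-- the gluing theorem -/
theorem glue (hP : PO r H) {n : ℕ} {c : α → Fin n} (hc : Col r c) {κ : Cardinal.{u}}
    (hκ : ℵ₀ < κ) (hcof : κ.ord.cof = ℵ₀) {E : Set α} (hdeg : ∀ m ∈ E, #(nb H m E) < κ)
    (hcard : #E = κ) (hint : ∀ x ∈ E, ∀ y ∈ E, #{w | w ∈ E ∧ r x w ∧ r w y} < κ)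
    (hb : ∀ lam : Cardinal.{u}, lam.IsRegular → ℵ₀ < lam → lam < κ → ∃ b, GBU H lam E b) :
    ∃ B, GB H E B := by
  classical
  obtain ⟨o, hoE⟩ : ∃ o, o ∈ E := by
    by_contra hcon
    push Not at hcon
    have : E = ∅ := eq_empty_iff_forall_notMem.2 hcon
    rw [this, mk_eq_zero] at hcard
    rw [← hcard] at hκ
    exact absurd hκ (by simp)
  obtain ⟨Em, hEmE, hEms, hEmc, hEmall⟩ := exists_segments hκ hcof hcard
  set lam : ℕ → Cardinal.{u} := lamSeq (#(nb H o E)) (fun m => #(Em m)) with hlamdef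
  have hlreg : ∀ m, (lam m).IsRegular := lamSeq_regular _ _
  have hlunc : ∀ m, ℵ₀ < lam m := fun m => (lamSeq_unc _ _ m).1
  have hldeg : ∀ m, #(nb H o E) < lam m := fun m => (lamSeq_unc _ _ m).2
  have hlmono : Monotone lam := lamSeq_mono _ _
  have hlsucc : ∀ m, lam m < lam (m + 1) := lamSeq_succ_lt _ _
  have hlEm : ∀ m, #(Em m) < lam m := lamSeq_gt _ _
  have hlκ : ∀ m, lam m < κ := lamSeq_lt hκ hcof (hdeg o hoE) hEmc
  have hlcof : ∀ χ < κ, ∃ m, χ < lam m := by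
    intro χ hχ
    by_contra hcon
    push Not at hcon
    have h1 : ∀ m, #(Em m) < Order.succ (max ℵ₀ χ) := fun m =>
      ((hlEm m).le.trans ((hcon m).trans (le_max_right _ _))).trans_lt (Order.lt_succ _)
    have h2 := mk_iUnion_nat_lt (isRegular_succ (le_max_left ℵ₀ χ))
      ((le_max_left ℵ₀ χ).trans_lt (Order.lt_succ _)) h1
    have h3 : #E < Order.succ (max ℵ₀ χ) := by
      refine mk_subset_lt ?_ h2
      intro x hx
      rw [mem_iUnion]
      exact hEmall x hx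
    rw [hcard] at h3
    exact absurd ((succ_lt_of_cof hκ hcof (max_lt hκ hχ)).trans h3) (lt_irrefl _)
  choose b hbb using fun N => hb (lam N) (hlreg N) (hlunc N) (hlκ N)
  have hbE : ∀ N, b N ⊆ E := fun N => (hbb N).1
  -- the small sets
  set X : ℕ → Set α := fun m => {x | x ∈ Em m ∧ #(nb H x E) < lam m ∧
    #{w | w ∈ E ∧ r o w ∧ r w x} < lam m ∧ #{w | w ∈ E ∧ r x w ∧ r w o} < lam m} with hX
  have hXE : ∀ m, X m ⊆ E := fun m x hx => hEmE m hx.1
  have hXlt : ∀ m, #(X m) < lam m := fun m => mk_subset_lt (fun x hx => hx.1) (hlEm m)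
  have hEmmono : ∀ m k, m ≤ k → Em m ⊆ Em k := by
    intro m k hmk
    induction hmk with
    | refl => exact Subset.rfl
    | step _ ih => exact ih.trans (hEms _)
  have hXall : ∀ x ∈ E, ∃ m, x ∈ X m := by
    intro x hx
    obtain ⟨m0, h0⟩ := hEmall x hx
    obtain ⟨m1, h1⟩ := hlcof _ (hdeg x hx)
    obtain ⟨m2, h2⟩ := hlcof _ (hint o hoE x hx)
    obtain ⟨m3, h3⟩ := hlcof _ (hint x hx o hoE)
    refine ⟨m0 + m1 + m2 + m3, hEmmono m0 _ (by omega) h0, h1.trans_le (hlmono (by omega)),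
      h2.trans_le (hlmono (by omega)), h3.trans_le (hlmono (by omega))⟩
  set U : Ultrafilter ℕ := hyperfilter ℕ with hU
  have hUtop : ∀ m, ∀ᶠ N in U, m ≤ N := fun m =>
    (eventually_ge_atTop m).filter_mono Nat.hyperfilter_le_atTop
  have hcore : ∀ m, ∀ᶠ N in U, CCore H (lam m) E {y | y ∈ E ∧ #(nb H y (b N)) < lam m} := by
    intro m
    filter_upwards [hUtop m] with N hN
    exact ccore_level (hbb N) (hlunc m).le (hlmono hN)
  have hoo : ∀ m, #{w | w ∈ E ∧ r o w ∧ r w o} < lam m := by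
    intro m
    have h1 : {w | w ∈ E ∧ r o w ∧ r w o} ⊆ {o} := by
      rintro w ⟨_, h1, h2⟩
      exact hP.antisymm _ _ h2 h1
    refine mk_subset_lt h1 ?_
    rw [mk_singleton]
    exact one_lt_aleph0.trans (hlunc m)
  -- good sets
  let Good : ℕ → Set α → Prop := fun m G => G ⊆ E ∧ o ∈ G ∧ #G < lam m ∧
    (∀ x ∈ G, ∀ z ∈ G, ∀ y ∈ E, r x y → r y z → y ∈ G) ∧ X m ⊆ G ∧
    ∀ᶠ N in U, (∀ x ∈ G, #(nb H x (b N)) < lam m) ∧
        ∀ g ∈ G, ∀ y ∈ E, #(nb H y (b N)) < lam m → H g y → y ∈ G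
  obtain ⟨G00, hG00⟩ : ∃ G, Good 0 G := by
    obtain ⟨G, h1, h2, h3, h4, h5⟩ := extend hP hc (hlreg 0) (hlunc 0) hoE (hldeg 0) (hcore 0) hbE
      (G0 := {o} ∪ X 0) (by
        rintro x (hx | hx)
        · rw [mem_singleton_iff] at hx
          rw [hx]
          exact hoE
        · exact hXE 0 hx) (Or.inl rfl) (mk_union_lt (hlunc 0).le (by
          rw [mk_singleton]
          exact one_lt_aleph0.trans (hlunc 0)) (hXlt 0)) (by
        rintro x (hx | hx)
        · rw [mem_singleton_iff] at hx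
          rw [hx]
          exact hoo 0
        · exact hx.2.2.1) (by
        rintro x (hx | hx)
        · rw [mem_singleton_iff] at hx
          rw [hx]
          exact hoo 0
        · exact hx.2.2.2) (by
        apply Eventually.of_forall
        rintro N x (hx | hx)
        · rw [mem_singleton_iff] at hx
          rw [hx]
          exact mk_subset_lt (nb_mono (hbE N)) (hldeg 0)
        · exact mk_subset_lt (nb_mono (hbE N)) hx.2.1)
    exact ⟨G, h1, h2 (Or.inl rfl), h3, h4, fun x hx => h2 (Or.inr hx), h5⟩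
  have hstep : ∀ m G, Good m G → ∃ G', Good (m + 1) G' ∧ G ⊆ G' := by
    rintro m G ⟨g1, g2, g3, g4, g5, g6⟩
    have hGlt : #G < lam (m + 1) := g3.trans (hlsucc m)
    obtain ⟨G', h1, h2, h3, h4, h5⟩ := extend hP hc (hlreg (m + 1)) (hlunc (m + 1)) hoE
      (hldeg (m + 1)) (hcore (m + 1)) hbE (G0 := G ∪ X (m + 1)) (by
        rintro x (hx | hx)
        · exact g1 hx
        · exact hXE _ hx) (Or.inl g2) (mk_union_lt (hlunc _).le hGlt (hXlt _)) (by
        rintro x (hx | hx)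
        · refine mk_subset_lt ?_ hGlt
          rintro w ⟨hw, h1, h2⟩
          exact g4 o g2 x hx w hw h1 h2
        · exact hx.2.2.1) (by
        rintro x (hx | hx)
        · refine mk_subset_lt ?_ hGlt
          rintro w ⟨hw, h1, h2⟩
          exact g4 x hx o g2 w hw h1 h2
        · exact hx.2.2.2) (by
        filter_upwards [g6] with N hN
        rintro x (hx | hx)
        · exact (hN.1 x hx).trans (hlsucc m)
        · exact mk_subset_lt (nb_mono (hbE N)) hx.2.1)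
    exact ⟨G', ⟨h1, h2 (Or.inl g2), h3, h4, fun x hx => h2 (Or.inr hx), h5⟩,
      fun x hx => h2 (Or.inl hx)⟩
  choose! nxt hnxt using hstep
  obtain ⟨G, hG, hGs⟩ : ∃ G : ℕ → Set α, (∀ m, Good m (G m)) ∧ ∀ m, G m ⊆ G (m + 1) := by
    have hG : ∀ m, Good m (Nat.rec G00 (fun k G => nxt k G) m : Set α) := by
      intro m
      induction m with
      | zero => exact hG00
      | succ m ih => exact (hnxt m _ ih).1
    exact ⟨fun m => Nat.rec G00 (fun k G => nxt k G) m, hG, fun m => (hnxt m _ (hG m)).2⟩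
  have hGmono : ∀ m k, m ≤ k → G m ⊆ G k := by
    intro m k hmk
    induction hmk with
    | refl => exact Subset.rfl
    | step _ ih => exact ih.trans (hGs _)
  have hGE : ∀ m, G m ⊆ E := fun m => (hG m).1
  have hGlt : ∀ m : ℕ, #(↥(G m)) < lam m := by
    intro m
    obtain ⟨_, _, h, _⟩ := hG m
    exact h
  -- choose the indices
  have hN : ∀ k, ∃ N, k ≤ N ∧ (∀ j, j = k ∨ j + 1 = k → (∀ x ∈ G j, #(nb H x (b N)) < lam j) ∧
        ∀ g ∈ G j, ∀ y ∈ E, #(nb H y (b N)) < lam j → H g y → y ∈ G j) := by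
    intro k
    cases k with
    | zero =>
      obtain ⟨N, h1, h2⟩ := ((hUtop 0).and (hG 0).2.2.2.2.2).exists
      refine ⟨N, h1, ?_⟩
      rintro j (rfl | hj)
      · exact h2
      · omega
    | succ k =>
      obtain ⟨N, h1, h2, h3⟩ := ((hUtop (k + 1)).and
        ((hG (k + 1)).2.2.2.2.2.and (hG k).2.2.2.2.2)).exists
      refine ⟨N, h1, ?_⟩
      rintro j (rfl | hj)
      · exact h2
      · have : j = k := by omega
        subst this
        exact h3
  choose Nn hNn1 hNn2 using hN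
  set b' : ℕ → Set α := fun k => b (Nn k) with hb'
  have hb'U : ∀ k, GBU H (lam k) E (b' k) := fun k => (hbb (Nn k)).mono (hlmono (hNn1 k))
  have A2 : ∀ k, ∀ x ∈ G k, #(nb H x (b' k)) < lam k := fun k => (hNn2 k k (Or.inl rfl)).1
  have A3 : ∀ k, ∀ g ∈ G k, ∀ y ∈ E, #(nb H y (b' k)) < lam k → H g y → y ∈ G k :=
    fun k => (hNn2 k k (Or.inl rfl)).2
  have A2' : ∀ k, ∀ x ∈ G k, #(nb H x (b' (k + 1))) < lam k :=
    fun k => (hNn2 (k + 1) k (Or.inr rfl)).1
  have A3' : ∀ k, ∀ g ∈ G k, ∀ y ∈ E, #(nb H y (b' (k + 1))) < lam k → H g y → y ∈ G k :=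
    fun k => (hNn2 (k + 1) k (Or.inr rfl)).2
  -- levels
  have hex : ∀ y ∈ E, ∃ k, y ∈ G k := by
    intro y hy
    obtain ⟨m, hm⟩ := hXall y hy
    exact ⟨m, (hG m).2.2.2.2.1 hm⟩
  let lev : α → ℕ := fun y => sInf {k | y ∈ G k}
  have hlev : ∀ y ∈ E, ∀ k, y ∈ G k ↔ lev y ≤ k := by
    intro y hy k
    constructor
    · intro h
      exact Nat.sInf_le h
    · intro h
      exact hGmono _ _ h (Nat.sInf_mem (s := {k | y ∈ G k}) (hex y hy))
  set B : Set α := {y | y ∈ E ∧ y ∈ b' (lev y)} with hB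
  have hb'fin : ∀ k, ∀ y ∈ b' k, #(nb H y (b' k)) < ℵ₀ := by
    intro k y hy
    exact ((hb'U k).2.1 y ((hb'U k).1 hy)).1 hy
  have hi : ∀ y ∈ E, ∀ v ∈ nb H y (b' (lev y)), v ∈ E ∧ lev v ≤ lev y := by
    rintro y hy v ⟨hv, hyv⟩
    have hvE := (hb'U (lev y)).1 hv
    refine ⟨hvE, ?_⟩
    rw [← hlev v hvE]
    exact A3 (lev y) y ((hlev y hy _).2 le_rfl) v hvE ((hb'fin _ v hv).trans (hlunc _)) hyv
  have hii : ∀ y ∈ E, ∀ v ∈ nb H y B, lev v ≤ lev y := by
    rintro y hy v ⟨⟨hvE, hv⟩, hyv⟩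
    by_contra hcon
    obtain ⟨k, hk⟩ : ∃ k, lev v = k + 1 := ⟨lev v - 1, by omega⟩
    rw [hk] at hv
    have h1 : v ∈ G k := by
      apply A3' k y ((hlev y hy k).2 (by omega)) v hvE ((hb'fin _ v hv).trans (hlunc _)) hyv
    rw [hlev v hvE] at h1
    omega
  have hiii : ∀ y ∈ E, ∀ g ∈ E, H y g → lev g < lev y →
      ∃ k, lev y = k + 1 ∧ lam k ≤ #(nb H y (b' (lev y))) := by
    intro y hy g hg hyg hlt
    obtain ⟨k, hk⟩ : ∃ k, lev y = k + 1 := ⟨lev y - 1, by omega⟩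
    refine ⟨k, hk, ?_⟩
    by_contra hcon
    rw [not_le, hk] at hcon
    have h1 : y ∈ G k := A3' k g ((hlev g hg k).2 (by omega)) y hy hcon (hP.symm hyg)
    rw [hlev y hy] at h1
    omega
  have hd : ∀ y ∈ E, #(nb H y B) = #(nb H y (b' (lev y))) := by
    intro y hy
    by_cases hcase : ∃ g ∈ E, H y g ∧ lev g < lev y
    · obtain ⟨g, hg, hyg, hlt⟩ := hcase
      obtain ⟨k, hk, hlamk⟩ := hiii y hy g hg hyg hlt
      set P : Set α := {v | v ∈ E ∧ v ∈ b' (lev y) ∧ lev v = lev y ∧ H y v} with hPdef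
      set δ := #(nb H y (b' (lev y))) with hδ
      have hsmall : #(G k) < δ := (hGlt k).trans_le hlamk
      have hδinf : ℵ₀ ≤ δ := (hlunc k).le.trans hlamk
      have h1 : nb H y (b' (lev y)) ⊆ P ∪ G k := by
        rintro v hv
        obtain ⟨hvE, hle⟩ := hi y hy v hv
        rcases hle.lt_or_eq with h | h
        · right
          rw [hlev v hvE]
          omega
        · exact Or.inl ⟨hvE, hv.1, h, hv.2⟩
      have h2 : nb H y B ⊆ P ∪ G k := by
        rintro v hv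
        have hle := hii y hy v hv
        rcases hle.lt_or_eq with h | h
        · right
          rw [hlev v hv.1.1]
          omega
        · refine Or.inl ⟨hv.1.1, ?_, h, hv.2⟩
          rw [← h]
          exact hv.1.2
      have h3 : P ⊆ nb H y (b' (lev y)) := fun v hv => ⟨hv.2.1, hv.2.2.2⟩
      have h4 : P ⊆ nb H y B := by
        rintro v ⟨hvE, hv, hl, hyv⟩
        refine ⟨⟨hvE, ?_⟩, hyv⟩
        rw [hl]
        exact hv
      have h5 : δ ≤ #P := by
        by_contra hcon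
        rw [not_le] at hcon
        exact absurd (mk_subset_lt h1 (mk_union_lt hδinf hcon hsmall)) (lt_irrefl _)
      apply le_antisymm
      · calc #(nb H y B) ≤ #(P ∪ G k : Set α) := mk_le_mk_of_subset h2
          _ ≤ #P + #(G k) := mk_union_le _ _
          _ ≤ δ + δ := add_le_add (mk_le_mk_of_subset h3) hsmall.le
          _ = δ := add_eq_self hδinf
      · exact h5.trans (mk_le_mk_of_subset h4)
    · push Not at hcase
      have heq : nb H y B = nb H y (b' (lev y)) := by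
        ext v
        constructor
        · rintro ⟨⟨hvE, hv⟩, hyv⟩
          have h1 := hii y hy v ⟨⟨hvE, hv⟩, hyv⟩
          have h2 := hcase v hvE hyv
          have h3 : lev v = lev y := le_antisymm h1 h2
          rw [h3] at hv
          exact ⟨hv, hyv⟩
        · rintro ⟨hv, hyv⟩
          obtain ⟨hvE, h1⟩ := hi y hy v ⟨hv, hyv⟩
          have h2 := hcase v hvE hyv
          have h3 : lev v = lev y := le_antisymm h1 h2
          refine ⟨⟨hvE, ?_⟩, hyv⟩
          rw [h3]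
          exact hv
      rw [heq]
  refine ⟨B, fun y hy => hy.1, ?_, ?_⟩
  · intro y hy
    rw [hd y hy, ← (hb'U (lev y)).2.1 y hy]
    exact ⟨fun h => h.2, fun h => ⟨hy, h⟩⟩
  · intro χ hχ m hm hdm
    rcases le_or_gt κ χ with hκχ | hχκ
    · refine lt_of_lt_of_le (mk_subset_lt ?_ (hdeg m hm)) hκχ
      rintro y ⟨hy, hmy, _⟩
      exact ⟨hy, hmy⟩
    · rw [hd m hm] at hdm
      obtain ⟨p, hp⟩ := hlcof χ hχκ
      -- the least q ≥ lev m with χ ≤ lam q
      have hexq : ∃ q, lev m ≤ q ∧ χ ≤ lam q :=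
        ⟨max p (lev m), le_max_right _ _, hp.le.trans (hlmono (le_max_left _ _))⟩
      set q := Nat.find hexq with hq
      obtain ⟨hq1, hq2⟩ := Nat.find_spec hexq
      rw [← hq] at hq1 hq2
      have hqmin : ∀ q', lev m ≤ q' → q' < q → lam q' < χ := by
        intro q' h1 h2
        have h3 := Nat.find_min hexq h2
        by_contra hcon
        exact h3 ⟨h1, not_lt.1 hcon⟩
      -- levels of the counted elements
      have hlevy : ∀ y, y ∈ E → H m y → #(nb H y B) < χ → lev y ≤ q := by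
        intro y hy hmy hdy
        by_contra hcon
        push Not at hcon
        obtain ⟨k, hk, hlamk⟩ := hiii y hy m hm (hP.symm hmy) (lt_of_le_of_lt hq1 hcon)
        rw [hd y hy] at hdy
        have h1 : lam q ≤ lam k := hlmono (by omega)
        exact absurd (hlamk.trans_lt (hdy.trans_le (hq2.trans h1))) (lt_irrefl _)
      rcases Nat.eq_or_lt_of_le hq1 with hqe | hql
      · -- q = lev m
        have hsub : {y | y ∈ E ∧ H m y ∧ #(nb H y B) < χ} ⊆
            {y | y ∈ E ∧ H m y ∧ #(nb H y (b' (lev m))) < χ} ∪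
              {y | y ∈ E ∧ H m y ∧ lev y < lev m} := by
          rintro y ⟨hy, hmy, hdy⟩
          have h1 := hlevy y hy hmy hdy
          rw [← hqe] at h1
          rcases h1.lt_or_eq with h2 | h2
          · exact Or.inr ⟨hy, hmy, h2⟩
          · left
            refine ⟨hy, hmy, ?_⟩
            rw [hd y hy, h2] at hdy
            exact hdy
        refine mk_subset_lt hsub (mk_union_lt hχ ?_ ?_)
        · apply (hb'U (lev m)).2.2 χ hχ _ m hm hdm
          rw [hqe]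
          exact hq2
        · by_cases hne : ∃ y, y ∈ E ∧ H m y ∧ lev y < lev m
          · obtain ⟨y, hy, hmy, hlt⟩ := hne
            obtain ⟨k, hk, hlamk⟩ := hiii m hm y hy hmy hlt
            refine (mk_subset_lt ?_ (hGlt k)).trans (hlamk.trans_lt hdm)
            rintro z ⟨hz, _, hzl⟩
            rw [hlev z hz]
            omega
          · have : {y | y ∈ E ∧ H m y ∧ lev y < lev m} = ∅ := by
              rw [eq_empty_iff_forall_notMem]
              intro y hy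
              exact hne ⟨y, hy⟩
            rw [this, mk_eq_zero]
            exact aleph0_pos.trans_le hχ
      · -- q = k + 1
        obtain ⟨k, hk⟩ : ∃ k, q = k + 1 := ⟨q - 1, by omega⟩
        have hlamk : lam k < χ := hqmin k (by omega) (by omega)
        have hsub : {y | y ∈ E ∧ H m y ∧ #(nb H y B) < χ} ⊆
            G k ∪ {y | y ∈ E ∧ H m y ∧ #(nb H y (b' (k + 1))) < χ} := by
          rintro y ⟨hy, hmy, hdy⟩
          have h1 := hlevy y hy hmy hdy
          rw [hk] at h1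
          rcases h1.lt_or_eq with h2 | h2
          · left
            rw [hlev y hy]
            omega
          · right
            refine ⟨hy, hmy, ?_⟩
            rw [hd y hy, h2] at hdy
            exact hdy
        refine mk_subset_lt hsub (mk_union_lt hχ ((hGlt k).trans hlamk) ?_)
        apply (hb'U (k + 1)).2.2 χ hχ _ m hm
        · have hmk : m ∈ G k := (hlev m hm k).2 (by omega)
          exact (A2' k m hmk).trans hlamk
        · rw [← hk]
          exact hq2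

end M5

end Pool.Agent.Work.MP_288596_co
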