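import Mathlib
import Pool.Agent.Work.MP_288596_co.Defs

/-! M3: spinal maps from good bases. -/

set_option autoImplicit false
namespace Pool.Agent.Work.MP_288596_co
open Cardinal Set
universe u
variable {α : Type u} {r H : α → α → Prop}

namespace Spinal

theorem Sp_dual {T : Set α} {f : α → α} (h : Sp r T f) : Sp (fun x y => r y x) T f :=
  ⟨h.1, h.2.1, fun x hx y hy => h.2.2.1 y hy x hx,
    fun x hx y hy hxy hne => (h.2.2.2 y hy x hx hxy hne.symm).symm⟩

/-- every element of a finite set lies above a minimal one -/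
theorem exists_min_below (hP : PO r H) : ∀ (k : ℕ) (s : Finset α), s.card = k → ∀ y ∈ s,
    ∃ m ∈ s, r m y ∧ ∀ z ∈ s, r z m → z = m := by
  classical
  intro k
  induction k with
  | zero =>
    intro s hs y hy
    rw [Finset.card_eq_zero.1 hs] at hy
    exact absurd hy (Finset.notMem_empty y)
  | succ k ih =>
    intro s hs y hy
    by_cases h : ∀ z ∈ s, r z y → z = y
    · exact ⟨y, hy, hP.refl y, h⟩
    · push Not at h
      obtain ⟨z, hz, hzy, hne⟩ := h
      have hc : (s.erase y).card = k := by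
        rw [Finset.card_erase_of_mem hy, hs]
        rfl
      obtain ⟨m, hm, hmz, hmin⟩ := ih (s.erase y) hc z (Finset.mem_erase.2 ⟨hne, hz⟩)
      refine ⟨m, Finset.mem_of_mem_erase hm, hP.trans _ _ _ hmz hzy, ?_⟩
      intro w hw hwm
      by_cases hwy : w = y
      · exfalso
        subst hwy
        have h1 : r w z := hP.trans _ _ _ hwm hmz
        exact hne (hP.antisymm _ _ hzy h1)
      · exact hmin w (Finset.mem_erase.2 ⟨hwy, hw⟩) hwm

theorem finite_case (hP : PO r H) : ∀ (k : ℕ) (s : Finset α), s.card = k →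
    ∃ f, Sp r (s : Set α) f := by
  classical
  intro k
  induction k using Nat.strong_induction_on with
  | _ k ih =>
    intro s hs
    by_cases hse : s = ∅
    · subst hse
      exact ⟨id, by simp, by simp, by simp, by simp⟩
    obtain ⟨y₀, hy₀⟩ := Finset.nonempty_iff_ne_empty.2 hse
    obtain ⟨m₀, hm₀, -, hm₀'⟩ := exists_min_below hP _ s rfl y₀ hy₀
    let s' : Finset α := s.filter (fun x => ¬ ∀ z ∈ s, r z x → z = x)
    have hs' : ∀ x, x ∈ s' ↔ x ∈ s ∧ ¬ ∀ z ∈ s, r z x → z = x := fun x => Finset.mem_filter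
    have hsub : s' ⊂ s := by
      refine Finset.ssubset_iff_subset_ne.2 ⟨Finset.filter_subset _ _, fun h => ?_⟩
      have : m₀ ∈ s' := by rw [h]; exact hm₀
      exact ((hs' m₀).1 this).2 hm₀'
    obtain ⟨f', hf'⟩ := ih s'.card (hs ▸ Finset.card_lt_card hsub) s' rfl
    by_cases hs'e : s' = ∅
    · refine ⟨fun _ => m₀, fun _ _ => hm₀, fun _ _ => rfl, fun _ _ _ _ => Or.inl (hP.refl _), ?_⟩
      intro x hx y hy hxy hne
      exfalso
      have : y ∈ s' := (hs' y).2 ⟨hy, fun h => hne (h x hx hxy)⟩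
      rw [hs'e] at this
      exact absurd this (Finset.notMem_empty y)
    obtain ⟨a, ha⟩ := Finset.nonempty_iff_ne_empty.2 hs'e
    obtain ⟨x₁, hx₁, -, hx₁min⟩ := exists_min_below hP _ (s'.image f') rfl (f' a)
      (Finset.mem_image_of_mem f' ha)
    obtain ⟨b, hb, rfl⟩ := Finset.mem_image.1 hx₁
    have hleast : ∀ x ∈ s', r (f' b) (f' x) := by
      intro x hx
      rcases hf'.2.2.1 b hb x hx with h | h
      · exact h
      · rw [hx₁min _ (Finset.mem_image_of_mem f' hx) h]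
        exact hP.refl _
    have hfb : f' b ∈ s' := hf'.1 b hb
    obtain ⟨m, hm, hmb, hmmin⟩ := exists_min_below hP _ s rfl (f' b) ((hs' _).1 hfb).1
    have hms' : m ∉ s' := fun h => ((hs' m).1 h).2 hmmin
    refine ⟨fun x => if x ∈ s' then f' x else m, ?_, ?_, ?_, ?_⟩
    · intro x hx
      by_cases h : x ∈ s'
      · simp only [h, if_true]
        exact ((hs' _).1 (hf'.1 x h)).1
      · simp only [h, if_false]
        exact hm
    · intro x hx
      by_cases h : x ∈ s'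
      · simp only [h, if_true]
        have h1 : f' x ∈ s' := hf'.1 x h
        simp only [h1, if_true]
        exact hf'.2.1 x h
      · simp only [h, if_false, hms']
    · intro x hx y hy
      by_cases h : x ∈ s'
      · by_cases h2 : y ∈ s'
        · simp only [h, h2, if_true]
          exact hf'.2.2.1 x h y h2
        · simp only [h, h2, if_true, if_false]
          exact Or.inr (hP.trans _ _ _ hmb (hleast x h))
      · by_cases h2 : y ∈ s'
        · simp only [h, h2, if_true, if_false]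
          exact Or.inl (hP.trans _ _ _ hmb (hleast y h2))
        · simp only [h, h2, if_false]
          exact Or.inl (hP.refl _)
    · intro x hx y hy hxy hne
      by_cases h2 : y ∈ s'
      · by_cases h : x ∈ s'
        · simp only [h, h2, if_true]
          exact hf'.2.2.2 x h y h2 hxy hne
        · simp only [h, h2, if_true, if_false]
          intro h3
          apply hms'
          rw [h3]
          exact hf'.1 y h2
      · exfalso
        apply h2
        rw [hs']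
        exact ⟨hy, fun h => hne (h x hx hxy)⟩

theorem val_mem (hP : PO r H) {T : Set α} {f : α → α} (hf : Sp r T f) {x : α} (hx : x ∈ T) :
    f x = x ∨ f x ∈ nb H x T := by
  by_cases hne : f x = x
  · exact Or.inl hne
  · right
    refine ⟨hf.1 x hx, ?_⟩
    rcases hP.cases x (f x) with h | h | h
    · exact absurd (hf.2.1 x hx).symm (hf.2.2.2 x hx (f x) (hf.1 x hx) h (Ne.symm hne))
    · exact absurd (hf.2.1 x hx) (hf.2.2.2 (f x) (hf.1 x hx) x hx h hne)
    · exact h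

end Spinal

open Spinal in
/-- M3a -/
theorem exists_spinal_of_finite (hP : PO r H) {B : Set α} (hB : ∀ m ∈ B, (nb H m B).Finite) :
    ∃ f, Sp r B f := by
  classical
  have hfs : ∀ s : Finset α, ∃ f, Sp r ((s.filter (· ∈ B) : Finset α) : Set α) f :=
    fun s => finite_case hP _ _ rfl
  choose F hF using hfs
  let U : Ultrafilter (Finset α) := Ultrafilter.of Filter.atTop
  have hmem : ∀ x : α, ∀ᶠ s in (U : Filter (Finset α)), x ∈ s := by
    intro x
    have h1 : ∀ᶠ s in (Filter.atTop : Filter (Finset α)), x ∈ s := by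
      filter_upwards [Filter.eventually_ge_atTop ({x} : Finset α)] with s hs
      exact hs (Finset.mem_singleton_self x)
    exact (Ultrafilter.of_le (Filter.atTop : Filter (Finset α))) h1
  have hT : ∀ x ∈ B, ∀ s : Finset α, x ∈ s → x ∈ ((s.filter (· ∈ B) : Finset α) : Set α) := by
    intro x hx s hs
    simp [hs, hx]
  have hex : ∀ x ∈ B, ∃ v ∈ insert x (nb H x B), ∀ᶠ s in (U : Filter (Finset α)), F s x = v := by
    intro x hx
    have hfin : (insert x (nb H x B)).Finite := (hB x hx).insert x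
    have h1 : (⋃ v ∈ insert x (nb H x B), {s | F s x = v}) ∈ (U : Filter (Finset α)) := by
      filter_upwards [hmem x] with s hs
      rw [mem_iUnion₂]
      refine ⟨F s x, ?_, rfl⟩
      rcases val_mem hP (hF s) (hT x hx s hs) with h | h
      · rw [h]
        exact mem_insert _ _
      · right
        refine ⟨?_, h.2⟩
        have := h.1
        simp only [Finset.coe_filter, Set.mem_ofPred_eq] at this
        exact this.2
    obtain ⟨v, hv, hv'⟩ := (Ultrafilter.finite_biUnion_mem_iff hfin).1 h1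
    exact ⟨v, hv, hv'⟩
  choose! f hf1 hf2 using hex
  refine ⟨f, ?_, ?_, ?_, ?_⟩
  · intro x hx
    rcases hf1 x hx with h | h
    · rw [h]
      exact hx
    · exact h.1
  · intro x hx
    have hfx : f x ∈ B := by
      rcases hf1 x hx with h | h
      · rw [h]
        exact hx
      · exact h.1
    obtain ⟨s, h1, h2, h3⟩ := ((hf2 x hx).and ((hf2 _ hfx).and (hmem x))).exists
    rw [← h2]
    conv_lhs => rw [← h1]
    rw [(hF s).2.1 x (hT x hx s h3), h1]
  · intro x hx y hy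
    obtain ⟨s, h1, h2, h3, h4⟩ :=
      ((hf2 x hx).and ((hf2 y hy).and ((hmem x).and (hmem y)))).exists
    rw [← h1, ← h2]
    exact (hF s).2.2.1 x (hT x hx s h3) y (hT y hy s h4)
  · intro x hx y hy hxy hne
    obtain ⟨s, h1, h2, h3, h4⟩ :=
      ((hf2 x hx).and ((hf2 y hy).and ((hmem x).and (hmem y)))).exists
    rw [← h1, ← h2]
    exact (hF s).2.2.2 x (hT x hx s h3) y (hT y hy s h4) hxy hne

namespace Spinal

/-- Lemma C -/
theorem lemC (hP : PO r H) {S B : Set α} (hB : GB H S B) {κ : Cardinal.{u}} (hκ : ℵ₀ ≤ κ)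
    {T : Set α} (hTS : T ⊆ S) {f : α → α} (hf : Sp r T f) (hfB : ∀ x ∈ T, f x ∈ B)
    {A : Set α} (hAT : A ⊆ T) (hch : ∀ x ∈ A, ∀ y ∈ A, r x y ∨ r y x)
    (hd : ∀ y ∈ A, #(nb H y B) < κ) (hno : ∀ y ∈ A, ∀ y' ∈ A, ¬ r y' (f y)) : #A < κ := by
  have hinc : ∀ y ∈ A, H (f y) y := by
    intro y hy
    rcases hP.cases (f y) y with h | h | h
    · exfalso
      by_cases hne : f y = y
      · exact hno y hy y hy (by rw [hne]; exact hP.refl y)
      · exact hf.2.2.2 (f y) (hf.1 y (hAT hy)) y (hAT hy) h hne (hf.2.1 y (hAT hy))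
    · exact absurd h (hno y hy y hy)
    · exact h
  rcases A.eq_empty_or_nonempty with hA | ⟨y₀, hy₀⟩
  · rw [hA]
    simp only [mk_eq_zero]
    exact aleph0_pos.trans_le hκ
  have hS0 : y₀ ∈ S := hTS (hAT hy₀)
  have hfS : f y₀ ∈ S := hB.1 (hfB _ (hAT hy₀))
  have hfd : #(nb H (f y₀) B) < κ :=
    lt_of_lt_of_le ((hB.2.1 _ hfS).1 (hfB _ (hAT hy₀))) hκ
  have hlow : #{y | y ∈ A ∧ r y y₀} < κ := by
    refine lt_of_le_of_lt (mk_le_mk_of_subset ?_) (hB.2.2 κ hκ (f y₀) hfS hfd)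
    rintro y ⟨hy, hyy⟩
    refine ⟨hTS (hAT hy), ?_, hd y hy⟩
    rcases hP.cases (f y₀) y with h | h | h
    · exact absurd (hP.trans _ _ _ h hyy) (hP.not_le (hinc y₀ hy₀))
    · exact absurd h (hno y₀ hy₀ y hy)
    · exact h
  have hhigh : #{y | y ∈ A ∧ r y₀ y} < κ := by
    refine lt_of_le_of_lt ?_ (hd y₀ hy₀)
    refine mk_le_of_injective (f := fun y : {y | y ∈ A ∧ r y₀ y} =>
      (⟨f y.1, ?_⟩ : nb H y₀ B)) ?_
    · obtain ⟨y, hy, hyy⟩ := y
      refine ⟨hfB y (hAT hy), ?_⟩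
      rcases hP.cases y₀ (f y) with h | h | h
      · exact absurd h (hno y hy y₀ hy₀)
      · exact absurd (hP.trans _ _ _ h hyy) (hP.not_le (hinc y hy))
      · exact h
    · rintro ⟨y, hy, hyy⟩ ⟨z, hz, hzz⟩ h0
      have h : f y = f z := congrArg Subtype.val h0
      by_contra hne
      have hne' : y ≠ z := fun h1 => hne (Subtype.ext h1)
      rcases hch y hy z hz with h1 | h1
      · exact hf.2.2.2 y (hAT hy) z (hAT hz) h1 hne' h
      · exact hf.2.2.2 z (hAT hz) y (hAT hy) h1 hne'.symm h.symm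
  have hsub : A ⊆ {y | y ∈ A ∧ r y y₀} ∪ {y | y ∈ A ∧ r y₀ y} := by
    intro y hy
    rcases hch y hy y₀ hy₀ with h | h
    · exact Or.inl ⟨hy, h⟩
    · exact Or.inr ⟨hy, h⟩
  exact lt_of_le_of_lt ((mk_le_mk_of_subset hsub).trans (mk_union_le _ _))
    (add_lt_of_lt hκ hlow hhigh)

theorem GB_dual_eq {S B : Set α} : GB H S B ↔ GB H S B := Iff.rfl

/-- dual Lemma C -/
theorem lemC' (hP : PO r H) {S B : Set α} (hB : GB H S B) {κ : Cardinal.{u}} (hκ : ℵ₀ ≤ κ)
    {T : Set α} (hTS : T ⊆ S) {f : α → α} (hf : Sp r T f) (hfB : ∀ x ∈ T, f x ∈ B)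
    {A : Set α} (hAT : A ⊆ T) (hch : ∀ x ∈ A, ∀ y ∈ A, r x y ∨ r y x)
    (hd : ∀ y ∈ A, #(nb H y B) < κ) (hno : ∀ y ∈ A, ∀ y' ∈ A, ¬ r (f y) y') : #A < κ :=
  lemC hP.dual hB hκ hTS (Sp_dual hf) hfB hAT (fun x hx y hy => (hch x hx y hy).symm) hd hno

/-- a set is small if all its colour classes are -/
theorem mk_lt_of_colors {n : ℕ} (c : α → Fin n) {κ : Cardinal.{u}} (hκ : ℵ₀ ≤ κ) {A : Set α}
    (h : ∀ j, #{x | x ∈ A ∧ c x = j} < κ) : #A < κ := by
  have key : ∀ s : Finset (Fin n), #{x | x ∈ A ∧ c x ∈ s} < κ := by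
    intro s
    classical
    induction s using Finset.induction_on with
    | empty =>
      have : {x | x ∈ A ∧ c x ∈ (∅ : Finset (Fin n))} = (∅ : Set α) := by
        ext x
        simp
      rw [this, mk_eq_zero]
      exact aleph0_pos.trans_le hκ
    | insert j s _ ih =>
      have : {x | x ∈ A ∧ c x ∈ insert j s} ⊆ {x | x ∈ A ∧ c x = j} ∪ {x | x ∈ A ∧ c x ∈ s} := by
        rintro x ⟨hx, hc⟩
        rcases Finset.mem_insert.1 hc with h1 | h1
        · exact Or.inl ⟨hx, h1⟩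
        · exact Or.inr ⟨hx, h1⟩
      exact lt_of_le_of_lt ((mk_le_mk_of_subset this).trans (mk_union_le _ _))
        (add_lt_of_lt hκ (h j) ih)
  have h1 := key Finset.univ
  have : {x | x ∈ A ∧ c x ∈ (Finset.univ : Finset (Fin n))} = A := by
    ext x
    simp
  rwa [this] at h1

/-- Lemma Inj: injective choice -/
theorem exists_inj_choice {μ : Cardinal.{u}} (I : Set α) (O : α → Set α) (hI : #I ≤ μ)
    (hO : ∀ i ∈ I, μ ≤ #(O i)) : ∃ g : α → α, (∀ i ∈ I, g i ∈ O i) ∧ InjOn g I := by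
  classical
  obtain ⟨rel, wo, hrel⟩ := exists_ord_eq I
  let G : (i : I) → ((j : I) → rel j i → α) → α := fun i ih =>
    if h : ∃ x ∈ O i, ∀ j (hj : rel j i), ih j hj ≠ x then Classical.choose h else i
  let g : I → α := wo.wf.fix G
  have hg : ∀ i : I, g i = G i (fun j _ => g j) := fun i => wo.wf.fix_eq G i
  have hex : ∀ i : I, ∃ x ∈ O i, ∀ j, rel j i → g j ≠ x := by
    intro i
    by_contra hcon
    push Not at hcon
    have h1 : O i ⊆ range (fun j : {j // rel j i} => g j.1) := by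
      intro x hx
      obtain ⟨j, hj, hjx⟩ := hcon x hx
      exact ⟨⟨j, hj⟩, hjx⟩
    have h2 : #(O i) ≤ #{j // rel j i} := (mk_le_mk_of_subset h1).trans mk_range_le
    have h3 : #{j // rel j i} < #I := by
      have := card_typein_lt i hrel
      rwa [Ordinal.card_typein] at this
    exact absurd (hI.trans (hO i i.2)) (not_le.2 (lt_of_le_of_lt h2 h3))
  have hspec : ∀ i : I, g i ∈ O i ∧ ∀ j, rel j i → g j ≠ g i := by
    intro i
    have h1 : ∃ x ∈ O i, ∀ j (_ : rel j i), g j ≠ x := hex i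
    have h2 : g i = Classical.choose h1 := by
      rw [hg i]
      exact dif_pos h1
    rw [h2]
    exact Classical.choose_spec h1
  refine ⟨fun x => if h : x ∈ I then g ⟨x, h⟩ else x, ?_, ?_⟩
  · intro i hi
    simp only [hi, dif_pos]
    exact (hspec ⟨i, hi⟩).1
  · intro i hi j hj hij
    simp only [hi, hj, dif_pos] at hij
    by_contra hne
    have hne' : (⟨i, hi⟩ : I) ≠ ⟨j, hj⟩ := fun h => hne (congrArg Subtype.val h)
    rcases trichotomous_of rel (⟨i, hi⟩ : I) ⟨j, hj⟩ with h | h | h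
    · exact (hspec ⟨j, hj⟩).2 _ h hij
    · exact hne' h
    · exact (hspec ⟨i, hi⟩).2 _ h hij.symm

/-- iterated neighbourhoods -/
def ball (H : α → α → Prop) (K : Set α) (x : α) : ℕ → Set α
  | 0 => {x}
  | k + 1 => ⋃ y ∈ (ball H K x k ∩ K), nb H y K

theorem mk_comp_le' {K : Set α} {μ : Cardinal.{u}} (hμ : ℵ₀ ≤ μ) (h : ∀ m ∈ K, #(nb H m K) ≤ μ)
    (x : α) : #(Comp H K x) ≤ μ := by
  have h1 : ∀ k, #(ball H K x k) ≤ μ := by
    intro k
    induction k with
    | zero =>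
      simp only [ball, mk_singleton]
      exact (one_lt_aleph0.le).trans hμ
    | succ k ih =>
      simp only [ball]
      refine (mk_biUnion_le _ _).trans ?_
      have h2 : #((ball H K x k ∩ K : Set α)) ≤ μ := (mk_le_mk_of_subset inter_subset_left).trans ih
      have h3 : (⨆ y : (ball H K x k ∩ K : Set α), #(nb H y.1 K)) ≤ μ :=
        ciSup_le' (fun y => h y.1 y.2.2)
      exact (mul_le_mul' h2 h3).trans (mul_eq_self hμ).le
  have h2 : Comp H K x ⊆ ⋃ k : ULift.{u} ℕ, ball H K x k.down := by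
    rintro y ⟨-, hy⟩
    have : ∃ k, y ∈ ball H K x k := by
      unfold Reach at hy
      induction hy with
      | refl => exact ⟨0, rfl⟩
      | tail _ hbc ih =>
        obtain ⟨k, hk⟩ := ih
        exact ⟨k + 1, mem_biUnion (⟨hk, hbc.1⟩ : _ ∈ ball H K x k ∩ K) ⟨hbc.2.1, hbc.2.2⟩⟩
    obtain ⟨k, hk⟩ := this
    exact mem_iUnion.2 ⟨⟨k⟩, hk⟩
  refine (mk_le_mk_of_subset h2).trans ((mk_iUnion_le _).trans ?_)
  have h3 : #(ULift.{u} ℕ) ≤ μ := by
    rw [mk_uLift, mk_nat, lift_aleph0]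
    exact hμ
  have h4 : (⨆ k : ULift.{u} ℕ, #(ball H K x k.down)) ≤ μ := ciSup_le' (fun k => h1 _)
  exact (mul_le_mul' h3 h4).trans (mul_eq_self hμ).le

theorem reach_symm (hP : PO r H) {K : Set α} {x y : α} (h : Reach H K x y) : Reach H K y x := by
  unfold Reach at h ⊢
  induction h with
  | refl => exact Relation.ReflTransGen.refl
  | tail _ hbc ih => exact Relation.ReflTransGen.head ⟨hbc.2.1, hbc.1, hP.symm hbc.2.2⟩ ih

theorem comp_eq (hP : PO r H) {K : Set α} {x y : α} (h : Reach H K x y) :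
    Comp H K x = Comp H K y := by
  have h' := reach_symm hP h
  unfold Reach at h h'
  ext z
  constructor
  · rintro ⟨hz, hxz⟩
    exact ⟨hz, h'.trans hxz⟩
  · rintro ⟨hz, hyz⟩
    exact ⟨hz, h.trans hyz⟩

theorem big_O (hP : PO r H) {n : ℕ} {c : α → Fin n} (hc : Col r c) {S B : Set α}
    (hB : GB H S B) {μ : Cardinal.{u}} (hμ : ℵ₀ ≤ μ) {T : Set α}
    (hT : ∀ y, y ∈ T ↔ y ∈ S ∧ #(nb H y B) < μ) {f : α → α} (hf : Sp r T f)
    (hfB : ∀ x ∈ T, f x ∈ B) {z : α} (_hz : z ∈ S) (hdz : #(nb H z B) = μ) :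
    μ ≤ #{x | x ∈ B ∧ f x = x ∧ H z x ∧ ∀ y ∈ T, f y = x → H z y} := by
  have hBd : ∀ y ∈ B, #(nb H y B) < ℵ₀ := fun y hy => (hB.2.1 y (hB.1 hy)).1 hy
  have hBT : B ⊆ T := fun y hy => (hT y).2 ⟨hB.1 hy, (hBd y hy).trans_le hμ⟩
  have hTS : T ⊆ S := fun y hy => ((hT y).1 hy).1
  have hzT : z ∉ T := fun h => absurd ((hT z).1 h).2 (by rw [hdz]; exact lt_irrefl _)
  have hzB : z ∉ B := fun h => hzT (hBT h)
  -- N1
  set N1 : Set α := {b | b ∈ nb H z B ∧ ¬ H z (f b)} with hN1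
  have hN1c : #N1 < ℵ₀ := by
    have ha : #{b | b ∈ nb H z B ∧ r (f b) z} < ℵ₀ := by
      refine mk_lt_of_colors c le_rfl (fun j => ?_)
      refine lemC hP hB le_rfl hTS hf hfB (A := _) ?_ ?_ ?_ ?_
      · rintro y ⟨⟨hy, -⟩, -⟩
        exact hBT hy.1
      · rintro x ⟨-, hx⟩ y ⟨-, hy⟩
        exact hc x y (hx.trans hy.symm)
      · rintro y ⟨⟨hy, -⟩, -⟩
        exact hBd y hy.1
      · rintro y ⟨⟨-, hy⟩, -⟩ y' ⟨⟨hy', -⟩, -⟩ h
        exact hP.not_ge hy'.2 (hP.trans _ _ _ h hy)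
    have hb : #{b | b ∈ nb H z B ∧ r z (f b)} < ℵ₀ := by
      refine mk_lt_of_colors c le_rfl (fun j => ?_)
      refine lemC' hP hB le_rfl hTS hf hfB (A := _) ?_ ?_ ?_ ?_
      · rintro y ⟨⟨hy, -⟩, -⟩
        exact hBT hy.1
      · rintro x ⟨-, hx⟩ y ⟨-, hy⟩
        exact hc x y (hx.trans hy.symm)
      · rintro y ⟨⟨hy, -⟩, -⟩
        exact hBd y hy.1
      · rintro y ⟨⟨-, hy⟩, -⟩ y' ⟨⟨hy', -⟩, -⟩ h
        exact hP.not_le hy'.2 (hP.trans _ _ _ hy h)
    have hsub : N1 ⊆ {b | b ∈ nb H z B ∧ r (f b) z} ∪ {b | b ∈ nb H z B ∧ r z (f b)} := by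
      rintro b ⟨hb1, hb2⟩
      rcases hP.cases z (f b) with h | h | h
      · exact Or.inr ⟨hb1, h⟩
      · exact Or.inl ⟨hb1, h⟩
      · exact absurd h hb2
    exact lt_of_le_of_lt ((mk_le_mk_of_subset hsub).trans (mk_union_le _ _))
      (add_lt_of_lt le_rfl ha hb)
  -- the image
  set Q : Set α := nb H z B \ N1 with hQ
  have hQimg : μ ≤ #(f '' Q) := by
    by_contra hcon
    push Not at hcon
    have hQs : #Q < μ := by
      refine mk_lt_of_colors c hμ (fun j => ?_)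
      refine lt_of_le_of_lt ?_ hcon
      refine mk_le_of_injective (f := fun y : {y | y ∈ Q ∧ c y = j} =>
        (⟨f y.1, mem_image_of_mem f y.2.1⟩ : f '' Q)) ?_
      rintro ⟨y, hy, hyc⟩ ⟨w, hw, hwc⟩ h0
      have h : f y = f w := congrArg Subtype.val h0
      by_contra hne
      have hne' : y ≠ w := fun h1 => hne (Subtype.ext h1)
      rcases hc y w (hyc.trans hwc.symm) with h1 | h1
      · exact hf.2.2.2 y (hBT hy.1.1) w (hBT hw.1.1) h1 hne' h
      · exact hf.2.2.2 w (hBT hw.1.1) y (hBT hy.1.1) h1 hne'.symm h.symm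
    have hsub : nb H z B ⊆ Q ∪ N1 := by
      intro b hb
      by_cases h : b ∈ N1
      · exact Or.inr h
      · exact Or.inl ⟨hb, h⟩
    have := lt_of_le_of_lt ((mk_le_mk_of_subset hsub).trans (mk_union_le _ _))
      (add_lt_of_lt hμ hQs (hN1c.trans_le hμ))
    rw [hdz] at this
    exact lt_irrefl _ this
  -- N2
  set N2 : Set α := {y | y ∈ T ∧ ¬ H z y ∧ H z (f y)} with hN2
  have hN2c : #N2 < μ := by
    have ha : #{y | y ∈ T ∧ r y z ∧ H z (f y)} < μ := by
      refine mk_lt_of_colors c hμ (fun j => ?_)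
      refine lemC' hP hB hμ hTS hf hfB (A := _) ?_ ?_ ?_ ?_
      · rintro y ⟨⟨hy, -⟩, -⟩
        exact hy
      · rintro x ⟨-, hx⟩ y ⟨-, hy⟩
        exact hc x y (hx.trans hy.symm)
      · rintro y ⟨⟨hy, -⟩, -⟩
        exact ((hT y).1 hy).2
      · rintro y ⟨⟨-, -, hy⟩, -⟩ y' ⟨⟨-, hy', -⟩, -⟩ h
        exact hP.not_ge hy (hP.trans _ _ _ h hy')
    have hb : #{y | y ∈ T ∧ r z y ∧ H z (f y)} < μ := by
      refine mk_lt_of_colors c hμ (fun j => ?_)
      refine lemC hP hB hμ hTS hf hfB (A := _) ?_ ?_ ?_ ?_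
      · rintro y ⟨⟨hy, -⟩, -⟩
        exact hy
      · rintro x ⟨-, hx⟩ y ⟨-, hy⟩
        exact hc x y (hx.trans hy.symm)
      · rintro y ⟨⟨hy, -⟩, -⟩
        exact ((hT y).1 hy).2
      · rintro y ⟨⟨-, -, hy⟩, -⟩ y' ⟨⟨-, hy', -⟩, -⟩ h
        exact hP.not_le hy (hP.trans _ _ _ hy' h)
    have hsub : N2 ⊆ {y | y ∈ T ∧ r y z ∧ H z (f y)} ∪ {y | y ∈ T ∧ r z y ∧ H z (f y)} := by
      rintro y ⟨hy, hy1, hy2⟩
      rcases hP.cases z y with h | h | h
      · exact Or.inr ⟨hy, h, hy2⟩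
      · exact Or.inl ⟨hy, h, hy2⟩
      · exact absurd h hy1
    exact lt_of_le_of_lt ((mk_le_mk_of_subset hsub).trans (mk_union_le _ _))
      (add_lt_of_lt hμ ha hb)
  by_contra hcon
  push Not at hcon
  have hsub : f '' Q ⊆ {x | x ∈ B ∧ f x = x ∧ H z x ∧ ∀ y ∈ T, f y = x → H z y} ∪ f '' N2 := by
    rintro x ⟨b, hb, rfl⟩
    by_cases h : f b ∈ f '' N2
    · exact Or.inr h
    · left
      have hbT : b ∈ T := hBT hb.1.1
      have hHb : H z (f b) := by
        by_contra h1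
        exact hb.2 ⟨hb.1, h1⟩
      refine ⟨hfB b hbT, hf.2.1 b hbT, hHb, ?_⟩
      intro y hy hfy
      by_contra h1
      apply h
      exact ⟨y, ⟨hy, h1, by rw [hfy]; exact hHb⟩, hfy⟩
  have h1 : #(f '' N2) < μ := mk_image_le.trans_lt hN2c
  have := lt_of_le_of_lt ((mk_le_mk_of_subset hsub).trans (mk_union_le _ _))
    (add_lt_of_lt hμ hcon h1)
  exact absurd hQimg (not_le.2 this)

theorem level_step (hP : PO r H) {n : ℕ} {c : α → Fin n} (hc : Col r c) {S B : Set α}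
    (hB : GB H S B) {μ : Cardinal.{u}} (hμ : ℵ₀ ≤ μ) {T T' : Set α}
    (hT : ∀ y, y ∈ T ↔ y ∈ S ∧ #(nb H y B) < μ) (hT' : ∀ y, y ∈ T' ↔ y ∈ S ∧ #(nb H y B) ≤ μ)
    {f : α → α} (hf : Sp r T f) (hfB : ∀ x ∈ T, f x ∈ B) :
    ∃ f', Sp r T' f' ∧ (∀ x ∈ T, f' x = f x) ∧ ∀ x ∈ T', f' x ∈ B := by
  classical
  have hBd : ∀ y ∈ B, #(nb H y B) < ℵ₀ := fun y hy => (hB.2.1 y (hB.1 hy)).1 hy
  have hBT : B ⊆ T := fun y hy => (hT y).2 ⟨hB.1 hy, (hBd y hy).trans_le hμ⟩
  have hTS : T ⊆ S := fun y hy => ((hT y).1 hy).1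
  have hTT' : T ⊆ T' := fun y hy => (hT' y).2 ⟨((hT y).1 hy).1, ((hT y).1 hy).2.le⟩
  have hT'd : ∀ y ∈ T', y ∉ T → y ∈ S ∧ #(nb H y B) = μ := by
    intro y hy hyT
    refine ⟨((hT' y).1 hy).1, le_antisymm ((hT' y).1 hy).2 ?_⟩
    by_contra hcon
    push Not at hcon
    exact hyT ((hT y).2 ⟨((hT' y).1 hy).1, hcon⟩)
  have hdeg : ∀ m ∈ T', #(nb H m T') ≤ μ := by
    intro m hm
    have h1 := hB.2.2 (Order.succ μ) (hμ.trans (Order.le_succ μ)) m ((hT' m).1 hm).1
      (Order.lt_succ_iff.2 ((hT' m).1 hm).2)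
    rw [Order.lt_succ_iff] at h1
    refine (mk_le_mk_of_subset ?_).trans h1
    rintro y ⟨hy1, hy2⟩
    exact ⟨((hT' y).1 hy1).1, hy2, Order.lt_succ_iff.2 ((hT' y).1 hy1).2⟩
  set O : α → Set α := fun z => {x | x ∈ B ∧ f x = x ∧ H z x ∧ ∀ y ∈ T, f y = x → H z y} with hO
  have hOz : ∀ z ∈ T', z ∉ T → μ ≤ #(O z) := by
    intro z hz hzT
    exact big_O hP hc hB hμ hT hf hfB (hT'd z hz hzT).1 (hT'd z hz hzT).2
  have hchoice : ∀ C : Set α, #C ≤ μ → ∃ g : α → α,
      (∀ i ∈ {z | z ∈ C ∧ z ∈ T' ∧ z ∉ T}, g i ∈ O i) ∧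
        InjOn g {z | z ∈ C ∧ z ∈ T' ∧ z ∉ T} := by
    intro C hC
    refine exists_inj_choice (μ := μ) _ O ((mk_le_mk_of_subset (fun z hz => hz.1)).trans hC) ?_
    rintro i ⟨-, hi1, hi2⟩
    exact hOz i hi1 hi2
  have : Nonempty (α → α) := ⟨id⟩
  choose! g hg1 hg2 using hchoice
  have hcs : ∀ x, #(Comp H T' x) ≤ μ := fun x => mk_comp_le' hμ hdeg x
  have hself : ∀ x ∈ T', x ∈ Comp H T' x := fun x hx => ⟨hx, Relation.ReflTransGen.refl⟩
  have hgz : ∀ z ∈ T', z ∉ T → g (Comp H T' z) z ∈ O z := fun z hz hzT =>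
    hg1 _ (hcs z) z ⟨hself z hz, hz, hzT⟩
  refine ⟨fun z => if z ∈ T then f z else g (Comp H T' z) z, ⟨?_, ?_, ?_, ?_⟩, ?_, ?_⟩
  · intro x hx
    by_cases h : x ∈ T
    · simp only [h, if_true]
      exact hTT' (hf.1 x h)
    · simp only [h, if_false]
      exact hTT' (hBT (hgz x hx h).1)
  · intro x hx
    by_cases h : x ∈ T
    · simp only [h, if_true]
      have h1 := hf.1 x h
      simp only [h1, if_true]
      exact hf.2.1 x h
    · simp only [h, if_false]
      have h1 := hBT (hgz x hx h).1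
      simp only [h1, if_true]
      exact (hgz x hx h).2.1
  · have hval : ∀ x ∈ T', ∃ y ∈ T, (if x ∈ T then f x else g (Comp H T' x) x) = f y := by
      intro x hx
      by_cases h : x ∈ T
      · exact ⟨x, h, by simp only [h, if_true]⟩
      · refine ⟨g (Comp H T' x) x, hBT (hgz x hx h).1, ?_⟩
        simp only [h, if_false]
        exact (hgz x hx h).2.1.symm
    intro x hx y hy
    obtain ⟨x', hx', ex⟩ := hval x hx
    obtain ⟨y', hy', ey⟩ := hval y hy
    simp only [ex, ey]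
    exact hf.2.2.1 x' hx' y' hy'
  · intro x hx y hy hxy hne heq
    by_cases h : x ∈ T
    · by_cases h' : y ∈ T
      · simp only [h, h', if_true] at heq
        exact hf.2.2.2 x h y h' hxy hne heq
      · simp only [h, h', if_true, if_false] at heq
        exact hP.not_ge ((hgz y hy h').2.2.2 x h heq) hxy
    · by_cases h' : y ∈ T
      · simp only [h, h', if_true, if_false] at heq
        exact hP.not_le ((hgz x hx h).2.2.2 y h' heq.symm) hxy
      · simp only [h, h', if_false] at heq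
        have hwx := hgz x hx h
        have hwy := hgz y hy h'
        have hwT : g (Comp H T' x) x ∈ T' := hTT' (hBT hwx.1)
        have h1 : Reach H T' x (g (Comp H T' x) x) :=
          Relation.ReflTransGen.single ⟨hx, hwT, hwx.2.2.1⟩
        have h2 : Reach H T' y (g (Comp H T' x) x) := by
          rw [heq]
          exact Relation.ReflTransGen.single ⟨hy, by rw [← heq]; exact hwT, hwy.2.2.1⟩
        have h3 : Comp H T' x = Comp H T' y := (comp_eq hP h1).trans (comp_eq hP h2).symm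
        rw [← h3] at heq
        apply hne
        refine hg2 _ (hcs x) ⟨hself x hx, hx, h⟩ ⟨?_, hy, h'⟩ heq
        rw [h3]
        exact hself y hy
  · intro x hx
    simp only [hx, if_true]
  · intro x hx
    by_cases h : x ∈ T
    · simp only [h, if_true]
      exact hfB x h
    · simp only [h, if_false]
      exact (hgz x hx h).1

end Spinal

open Spinal in
/-- M3b -/
theorem exists_spinal (hP : PO r H) {n : ℕ} {c : α → Fin n} (hc : Col r c) {S B : Set α}
    (hB : GB H S B) : ∃ f, Sp r S f := by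
  classical
  have hBd : ∀ y ∈ B, #(nb H y B) < ℵ₀ := fun y hy => (hB.2.1 y (hB.1 hy)).1 hy
  obtain ⟨f₀, hf₀⟩ := exists_spinal_of_finite hP (B := B)
    (fun m hm => lt_aleph0_iff_set_finite.1 (hBd m hm))
  -- the family of partial solutions
  let P : Set (Set α × (α → α)) := {p | B ⊆ p.1 ∧ p.1 ⊆ S ∧
    (∀ x ∈ p.1, ∀ y ∈ S, #(nb H y B) ≤ #(nb H x B) → y ∈ p.1) ∧ Sp r p.1 p.2 ∧
      ∀ x ∈ p.1, p.2 x ∈ B}
  let R : P → P → Prop := fun p q => p.1.1 ⊆ q.1.1 ∧ ∀ x ∈ p.1.1, q.1.2 x = p.1.2 x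
  have hne : Nonempty P := by
    refine ⟨⟨(B, f₀), subset_rfl, hB.1, ?_, hf₀, hf₀.1⟩⟩
    intro x hx y hy hyx
    exact (hB.2.1 y hy).2 (hyx.trans_lt (hBd x hx))
  have htrans : ∀ {a b c : P}, R a b → R b c → R a c := by
    intro a b c hab hbc
    refine ⟨hab.1.trans hbc.1, fun x hx => ?_⟩
    rw [hbc.2 x (hab.1 hx), hab.2 x hx]
  have hchain : ∀ C : Set P, IsChain R C → C.Nonempty → ∃ ub, ∀ a ∈ C, R a ub := by
    intro C hC hCne
    obtain ⟨p₀, hp₀⟩ := hCne
    let TT : Set α := ⋃ p ∈ C, p.1.1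
    have hTT : ∀ x ∈ TT, ∃ p ∈ C, x ∈ p.1.1 := by
      intro x hx
      simpa [TT] using hx
    have hTT' : ∀ p ∈ C, p.1.1 ⊆ TT := fun p hp => subset_biUnion_of_mem (u := fun p : P => p.1.1) hp
    choose! q hqC hqx using hTT
    let F : α → α := fun x => (q x).1.2 x
    have hF : ∀ p ∈ C, ∀ x ∈ p.1.1, F x = p.1.2 x := by
      intro p hp x hx
      have hxT := hTT' p hp hx
      by_cases hpq : q x = p
      · simp only [F, hpq]
      rcases hC (hqC x hxT) hp hpq with h | h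
      · exact (h.2 x (hqx x hxT)).symm
      · exact h.2 x hx
    have hpair : ∀ x ∈ TT, ∀ y ∈ TT, ∃ p ∈ C, x ∈ p.1.1 ∧ y ∈ p.1.1 := by
      intro x hx y hy
      by_cases hpq : q x = q y
      · refine ⟨q x, hqC x hx, hqx x hx, ?_⟩
        rw [hpq]
        exact hqx y hy
      rcases hC (hqC x hx) (hqC y hy) hpq with h | h
      · exact ⟨q y, hqC y hy, h.1 (hqx x hx), hqx y hy⟩
      · exact ⟨q x, hqC x hx, hqx x hx, h.1 (hqx y hy)⟩
    refine ⟨⟨(TT, F), ?_, ?_, ?_, ⟨?_, ?_, ?_, ?_⟩, ?_⟩, ?_⟩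
    · exact p₀.2.1.trans (hTT' p₀ hp₀)
    · intro x hx
      exact (q x).2.2.1 (hqx x hx)
    · intro x hx y hy hyx
      exact hTT' _ (hqC x hx) ((q x).2.2.2.1 x (hqx x hx) y hy hyx)
    · intro x hx
      exact hTT' _ (hqC x hx) ((q x).2.2.2.2.1.1 x (hqx x hx))
    · intro x hx
      have h1 := (q x).2.2.2.2.1.1 x (hqx x hx)
      have h2 := hF _ (hqC x hx) _ (hqx x hx)
      simp only
      rw [h2, hF _ (hqC x hx) _ h1]
      exact (q x).2.2.2.2.1.2.1 x (hqx x hx)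
    · intro x hx y hy
      obtain ⟨p, hp, hxp, hyp⟩ := hpair x hx y hy
      simp only
      rw [hF p hp x hxp, hF p hp y hyp]
      exact p.2.2.2.2.1.2.2.1 x hxp y hyp
    · intro x hx y hy hxy hne
      obtain ⟨p, hp, hxp, hyp⟩ := hpair x hx y hy
      simp only
      rw [hF p hp x hxp, hF p hp y hyp]
      exact p.2.2.2.2.1.2.2.2 x hxp y hyp hxy hne
    · intro x hx
      simp only
      rw [hF _ (hqC x hx) _ (hqx x hx)]
      exact (q x).2.2.2.2.2 x (hqx x hx)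
    · intro p hp
      exact ⟨hTT' p hp, fun x hx => hF p hp x hx⟩
  obtain ⟨⟨⟨T, f⟩, hBT, hTS, hcl, hf, hfB⟩, hmax⟩ :=
    exists_maximal_of_nonempty_chains_bounded hchain htrans
  simp only at hBT hTS hcl hf hfB
  by_cases hTe : T = S
  · subst hTe
    exact ⟨f, hf⟩
  exfalso
  have hex : ({κ : Cardinal.{u} | ∃ y, y ∈ S ∧ y ∉ T ∧ #(nb H y B) = κ}).Nonempty := by
    obtain ⟨y, hy1, hy2⟩ := not_subset.1 (fun h => hTe (subset_antisymm hTS h))
    exact ⟨_, y, hy1, hy2, rfl⟩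
  obtain ⟨μ, ⟨z₀, hz₀S, hz₀T, hz₀d⟩, hmin⟩ := Cardinal.lt_wf.has_min _ hex
  have hμ : ℵ₀ ≤ μ := by
    by_contra hcon
    push Not at hcon
    exact hz₀T (hBT ((hB.2.1 z₀ hz₀S).2 (by rw [hz₀d]; exact hcon)))
  have hT : ∀ y, y ∈ T ↔ y ∈ S ∧ #(nb H y B) < μ := by
    intro y
    constructor
    · intro hy
      refine ⟨hTS hy, ?_⟩
      by_contra hcon
      push Not at hcon
      exact hz₀T (hcl y hy z₀ hz₀S (by rw [hz₀d]; exact hcon))
    · rintro ⟨hyS, hyd⟩
      by_contra hyT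
      exact hmin _ ⟨y, hyS, hyT, rfl⟩ hyd
  obtain ⟨f', hf', hext, hfB'⟩ := level_step hP hc hB hμ
    (T' := {y | y ∈ S ∧ #(nb H y B) ≤ μ}) hT (fun y => Iff.rfl) hf hfB
  have hTT' : T ⊆ {y | y ∈ S ∧ #(nb H y B) ≤ μ} := fun y hy =>
    ⟨((hT y).1 hy).1, ((hT y).1 hy).2.le⟩
  have hnew : ({y | y ∈ S ∧ #(nb H y B) ≤ μ}, f') ∈ P := by
    refine ⟨hBT.trans hTT', fun y hy => hy.1, ?_, hf', hfB'⟩
    rintro x ⟨-, hx⟩ y hy hyx
    exact ⟨hy, hyx.trans hx⟩
  have h1 := hmax ⟨_, hnew⟩ ⟨hTT', hext⟩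
  exact hz₀T (h1.1 ⟨hz₀S, hz₀d.le⟩)

end Pool.Agent.Work.MP_288596_co
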